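import Pool.Agent.Lib.MP_172a45_an.H5.Sound7
import Pool.Agent.Lib.MP_172a45_an.H5.DataA

set_option autoImplicit false

/-!
# Part L-a: `N ≥ 100`, `96/64 ≤ Δ ≤ 512/64`
-/

namespace Pool.Agent.Lib.MP_172a45_an.H5

open Pool.Agent.Lib.MP_172a45_an.F
open Pool.Agent.Lib.MP_172a45_an.F.Fr

/-- **Part L-a.** No frame with at least 100 points, the maximal `‖u_k‖` at `k = 0` and
`96/64 ≤ Δ ≤ 512/64`. -/
theorem La {M : ℕ} {a : ℝ} {ζ z : Fin (M + 1) → ℂ} (h : Fr (M + 1) a ζ z)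
    (hmax : ∀ k, ‖u a ζ k‖ ≤ ‖u a ζ 0‖) (hN : 100 ≤ M + 1)
    (h0 : ((96 : ℕ) : ℝ) / 64 ≤ Del a ζ) (h1 : Del a ζ ≤ ((512 : ℕ) : ℝ) / 64) : False := by
  have hM : 0 < M := by omega
  rcases le_total (Del a ζ) (((112 : ℕ) : ℝ) / 64) with c0 | c0
  · exact cell_sound h hM hmax hN dataA_0 h0 c0
  rcases le_total (Del a ζ) (((128 : ℕ) : ℝ) / 64) with c1 | c1
  · exact cell_sound h hM hmax hN dataA_1 c0 c1
  rcases le_total (Del a ζ) (((144 : ℕ) : ℝ) / 64) with c2 | c2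
  · exact cell_sound h hM hmax hN dataA_2 c1 c2
  rcases le_total (Del a ζ) (((160 : ℕ) : ℝ) / 64) with c3 | c3
  · exact cell_sound h hM hmax hN dataA_3 c2 c3
  rcases le_total (Del a ζ) (((176 : ℕ) : ℝ) / 64) with c4 | c4
  · exact cell_sound h hM hmax hN dataA_4 c3 c4
  rcases le_total (Del a ζ) (((192 : ℕ) : ℝ) / 64) with c5 | c5
  · exact cell_sound h hM hmax hN dataA_5 c4 c5
  rcases le_total (Del a ζ) (((208 : ℕ) : ℝ) / 64) with c6 | c6
  · exact cell_sound h hM hmax hN dataA_6 c5 c6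
  rcases le_total (Del a ζ) (((224 : ℕ) : ℝ) / 64) with c7 | c7
  · exact cell_sound h hM hmax hN dataA_7 c6 c7
  rcases le_total (Del a ζ) (((232 : ℕ) : ℝ) / 64) with c8 | c8
  · exact cell_sound h hM hmax hN dataA_8 c7 c8
  rcases le_total (Del a ζ) (((240 : ℕ) : ℝ) / 64) with c9 | c9
  · exact cell_sound h hM hmax hN dataA_9 c8 c9
  rcases le_total (Del a ζ) (((256 : ℕ) : ℝ) / 64) with c10 | c10
  · exact cell_sound h hM hmax hN dataA_10 c9 c10
  rcases le_total (Del a ζ) (((272 : ℕ) : ℝ) / 64) with c11 | c11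
  · exact cell_sound h hM hmax hN dataA_11 c10 c11
  rcases le_total (Del a ζ) (((288 : ℕ) : ℝ) / 64) with c12 | c12
  · exact cell_sound h hM hmax hN dataA_12 c11 c12
  rcases le_total (Del a ζ) (((304 : ℕ) : ℝ) / 64) with c13 | c13
  · exact cell_sound h hM hmax hN dataA_13 c12 c13
  rcases le_total (Del a ζ) (((320 : ℕ) : ℝ) / 64) with c14 | c14
  · exact cell_sound h hM hmax hN dataA_14 c13 c14
  rcases le_total (Del a ζ) (((352 : ℕ) : ℝ) / 64) with c15 | c15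
  · exact cell_sound h hM hmax hN dataA_15 c14 c15
  rcases le_total (Del a ζ) (((384 : ℕ) : ℝ) / 64) with c16 | c16
  · exact cell_sound h hM hmax hN dataA_16 c15 c16
  rcases le_total (Del a ζ) (((416 : ℕ) : ℝ) / 64) with c17 | c17
  · exact cell_sound h hM hmax hN dataA_17 c16 c17
  rcases le_total (Del a ζ) (((448 : ℕ) : ℝ) / 64) with c18 | c18
  · exact cell_sound h hM hmax hN dataA_18 c17 c18
  rcases le_total (Del a ζ) (((480 : ℕ) : ℝ) / 64) with c19 | c19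
  · exact cell_sound h hM hmax hN dataA_19 c18 c19
  exact cell_sound h hM hmax hN dataA_20 c19 h1

end Pool.Agent.Lib.MP_172a45_an.H5
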