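import Pool.Agent.Lib.MP_172a45_an.L.Gam
import Pool.Agent.Lib.MP_172a45_an.L.Chain

set_option autoImplicit false

/-!
# The constants `s_α`: `ψ(α y) ≤ s (y - 1 - log y)`
-/

namespace Pool.Agent.Lib.MP_172a45_an.H5

open Pool.Agent.Lib.MP_172a45_an.L

/-- `C(w) ≥ (w-1)²/(2w)` for `w ≥ 1` -/
theorem C_ge1 {w : ℝ} (hw : 1 ≤ w) : (w - 1) ^ 2 / (2 * w) ≤ w - 1 - Real.log w := by
  have hd : ∀ y : ℝ, y ≠ 0 → HasDerivAt (fun w : ℝ => w - 1 - Real.log w - (w / 2 - 1 + 1 / 2 * w⁻¹))
      ((1 - 0) - y⁻¹ - (1 / 2 - 0 + 1 / 2 * (-(y ^ 2)⁻¹))) y := by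
    intro y hy
    have h1 := ((hasDerivAt_id y).sub (hasDerivAt_const y (1:ℝ))).sub (Real.hasDerivAt_log hy)
    have h2 := (((hasDerivAt_id y).div_const 2).sub (hasDerivAt_const y (1:ℝ))).add
      ((hasDerivAt_inv hy).const_mul (1/2))
    exact (h1.sub h2)
  have hm : MonotoneOn (fun w : ℝ => w - 1 - Real.log w - (w / 2 - 1 + 1 / 2 * w⁻¹)) (Set.Ici 1) := by
    refine monotoneOn_of_deriv_nonneg (convex_Ici 1) ?_ ?_ ?_
    · intro y hy
      have : (1:ℝ) ≤ y := hy
      exact (hd y (by linarith)).continuousAt.continuousWithinAt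
    · intro y hy
      rw [interior_Ici] at hy
      have : (1:ℝ) < y := hy
      exact (hd y (by linarith)).differentiableAt.differentiableWithinAt
    · intro y hy
      rw [interior_Ici] at hy
      have h1 : (1:ℝ) < y := hy
      rw [(hd y (by linarith)).deriv]
      have h0 : 0 < y := by linarith
      have e : (1 - 0) - y⁻¹ - (1 / 2 - 0 + 1 / 2 * (-(y ^ 2)⁻¹)) = (y - 1) ^ 2 / (2 * y ^ 2) := by
        field_simp
        ring
      rw [e]
      positivity
  have h2 := hm (Set.mem_Ici.2 le_rfl) (Set.mem_Ici.2 hw) hw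
  simp only [Real.log_one, inv_one] at h2
  have hw0 : w ≠ 0 := by linarith
  have e : (w - 1) ^ 2 / (2 * w) = w / 2 - 1 + 1 / 2 * w⁻¹ := by
    field_simp
    ring
  rw [e]
  linarith

/-- `C(w) ≥ (w-1)²/2` for `w ≤ 1` -/
theorem C_ge2 {w : ℝ} (hw0 : 0 < w) (hw : w ≤ 1) : (w - 1) ^ 2 / 2 ≤ w - 1 - Real.log w := by
  have hd : ∀ y : ℝ, y ≠ 0 → HasDerivAt (fun w : ℝ => w - 1 - Real.log w - (w - 1) ^ 2 / 2)
      ((1 - 0) - y⁻¹ - (y - 1)) y := by
    intro y hy
    have h1 := ((hasDerivAt_id y).sub (hasDerivAt_const y (1:ℝ))).sub (Real.hasDerivAt_log hy)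
    have h2 := (((hasDerivAt_id y).sub (hasDerivAt_const y (1:ℝ))).pow 2).div_const 2
    refine (h1.sub h2).congr_deriv ?_
    simp
  have hm : AntitoneOn (fun w : ℝ => w - 1 - Real.log w - (w - 1) ^ 2 / 2) (Set.Icc w 1) := by
    refine antitoneOn_of_deriv_nonpos (convex_Icc w 1) ?_ ?_ ?_
    · intro y hy
      exact (hd y (by linarith [hy.1])).continuousAt.continuousWithinAt
    · intro y hy
      rw [interior_Icc] at hy
      exact (hd y (by linarith [hy.1])).differentiableAt.differentiableWithinAt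
    · intro y hy
      rw [interior_Icc] at hy
      have h0 : 0 < y := by linarith [hy.1]
      rw [(hd y (by linarith)).deriv]
      have e : (1 - 0) - y⁻¹ - (y - 1) = -((y - 1) ^ 2 / y) := by
        field_simp
        ring
      rw [e]
      have : 0 ≤ (y - 1) ^ 2 / y := by positivity
      linarith
  have h2 := hm (Set.left_mem_Icc.2 hw) (Set.right_mem_Icc.2 hw) hw
  simp only [Real.log_one] at h2
  linarith

/-- `C(w) ≤ (w-1)²/(2w)` for `w ≤ 1` -/
theorem C_le2 {w : ℝ} (hw0 : 0 < w) (hw : w ≤ 1) : w - 1 - Real.log w ≤ (w - 1) ^ 2 / (2 * w) := by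
  have hi : 1 ≤ w⁻¹ := (one_le_inv₀ hw0).2 hw
  -- C(w) for `w ≤ 1` : use `v = 1/w`
  have h1 := C_ge2 hw0 hw
  have hd : ∀ y : ℝ, y ≠ 0 → HasDerivAt (fun w : ℝ => w - 1 - Real.log w - (w / 2 - 1 + 1 / 2 * w⁻¹))
      ((1 - 0) - y⁻¹ - (1 / 2 - 0 + 1 / 2 * (-(y ^ 2)⁻¹))) y := by
    intro y hy
    have h1 := ((hasDerivAt_id y).sub (hasDerivAt_const y (1:ℝ))).sub (Real.hasDerivAt_log hy)
    have h2 := (((hasDerivAt_id y).div_const 2).sub (hasDerivAt_const y (1:ℝ))).add
      ((hasDerivAt_inv hy).const_mul (1/2))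
    exact (h1.sub h2)
  have hm : MonotoneOn (fun w : ℝ => w - 1 - Real.log w - (w / 2 - 1 + 1 / 2 * w⁻¹)) (Set.Icc w 1) := by
    refine monotoneOn_of_deriv_nonneg (convex_Icc w 1) ?_ ?_ ?_
    · intro y hy
      exact (hd y (by linarith [hy.1])).continuousAt.continuousWithinAt
    · intro y hy
      rw [interior_Icc] at hy
      exact (hd y (by linarith [hy.1])).differentiableAt.differentiableWithinAt
    · intro y hy
      rw [interior_Icc] at hy
      have h0 : 0 < y := by linarith [hy.1]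
      rw [(hd y (by linarith)).deriv]
      have e : (1 - 0) - y⁻¹ - (1 / 2 - 0 + 1 / 2 * (-(y ^ 2)⁻¹)) = (y - 1) ^ 2 / (2 * y ^ 2) := by
        field_simp
        ring
      rw [e]
      positivity
  have h2 := hm (Set.left_mem_Icc.2 hw) (Set.right_mem_Icc.2 hw) hw
  simp only [Real.log_one, inv_one] at h2
  have hw1 : w ≠ 0 := by linarith
  have e : (w - 1) ^ 2 / (2 * w) = w / 2 - 1 + 1 / 2 * w⁻¹ := by
    field_simp
    ring
  rw [e]
  linarith

/-- `C(w) ≤ (w-1)²/2` for `w ≥ 1` -/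
theorem C_le1 {w : ℝ} (hw : 1 ≤ w) : w - 1 - Real.log w ≤ (w - 1) ^ 2 / 2 := by
  have hd : ∀ y : ℝ, y ≠ 0 → HasDerivAt (fun w : ℝ => w - 1 - Real.log w - (w - 1) ^ 2 / 2)
      ((1 - 0) - y⁻¹ - (y - 1)) y := by
    intro y hy
    have h1 := ((hasDerivAt_id y).sub (hasDerivAt_const y (1:ℝ))).sub (Real.hasDerivAt_log hy)
    have h2 := (((hasDerivAt_id y).sub (hasDerivAt_const y (1:ℝ))).pow 2).div_const 2
    refine (h1.sub h2).congr_deriv ?_
    simp
  have hm : AntitoneOn (fun w : ℝ => w - 1 - Real.log w - (w - 1) ^ 2 / 2) (Set.Icc 1 w) := by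
    refine antitoneOn_of_deriv_nonpos (convex_Icc 1 w) ?_ ?_ ?_
    · intro y hy
      exact (hd y (by linarith [hy.1])).continuousAt.continuousWithinAt
    · intro y hy
      rw [interior_Icc] at hy
      exact (hd y (by linarith [hy.1])).differentiableAt.differentiableWithinAt
    · intro y hy
      rw [interior_Icc] at hy
      have h0 : 0 < y := by linarith [hy.1]
      rw [(hd y (by linarith)).deriv]
      have e : (1 - 0) - y⁻¹ - (y - 1) = -((y - 1) ^ 2 / y) := by
        field_simp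
        ring
      rw [e]
      have : 0 ≤ (y - 1) ^ 2 / y := by positivity
      linarith
  have h2 := hm (Set.left_mem_Icc.2 hw) (Set.right_mem_Icc.2 hw) hw
  simp only [Real.log_one] at h2
  linarith

/-- the function `f(z) = A z + c - (1+s) log z - 1/z` -/
noncomputable def ff (A c s z : ℝ) : ℝ := A * z + c - (1 + s) * Real.log z - 1 / z

/-- its derivative -/
noncomputable def ff' (A s z : ℝ) : ℝ := A - (1 + s) / z + 1 / z ^ 2

theorem ff_taylor {A c s z p : ℝ} (hz : 0 < z) (hp : 0 < p) :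
    ff A c s p - ff A c s z - ff' A s z * (p - z) =
      (1 + s) * (p / z - 1 - Real.log (p / z)) - (p / z - 1) ^ 2 / (p / z * z) := by
  unfold ff ff'
  rw [Real.log_div hp.ne' hz.ne']
  field_simp
  ring

/-- `f ≥ 0` on `[1, ∞)` -/
theorem ff_nonneg {A c s r : ℝ} (hs : 0 < s) (hs1 : s ≤ 1) (h1 : 0 ≤ ff A c s 1)
    (hz0 : 0 ≤ ff A c s (2 / (1 + s))) (hr0 : 2 / (1 + s) ≤ r) (hr' : 0 ≤ ff' A s r)
    (hfr : ff' A s r * (r - 2 / (1 + s)) ≤ ff A c s r) {z : ℝ} (hz : 1 ≤ z) : 0 ≤ ff A c s z := by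
  set z0 := 2 / (1 + s) with hz0d
  have hz01 : 1 ≤ z0 := by
    rw [hz0d, le_div_iff₀ (by linarith)]
    linarith
  have hz0s : z0 * (1 + s) = 2 := by
    rw [hz0d]
    field_simp
  rcases le_total z z0 with h | h
  · -- concave part
    have hzp : 0 < z := by linarith
    have ha : ff A c s 1 - ff A c s z - ff' A s z * (1 - z) ≤ 0 := by
      rw [ff_taylor hzp one_pos]
      have hw0 : 0 < 1 / z := by positivity
      have hw1 : 1 / z ≤ 1 := by
        rw [div_le_one hzp]; exact hz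
      have h3 := C_le2 hw0 hw1
      have h4 : (1 + s) * ((1 / z - 1) ^ 2 / (2 * (1 / z))) ≤ (1 / z - 1) ^ 2 / (1 / z * z) := by
        rw [mul_div_assoc', div_le_div_iff₀ (by positivity) (by positivity)]
        have h5 : z * (1 + s) ≤ 2 := by nlinarith
        have h6 : 0 ≤ (1 / z - 1) ^ 2 * (1 / z) := by positivity
        nlinarith
      have h7 : (1 + s) * (1 / z - 1 - Real.log (1 / z)) ≤
          (1 + s) * ((1 / z - 1) ^ 2 / (2 * (1 / z))) :=
        mul_le_mul_of_nonneg_left h3 (by linarith)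
      linarith
    have hb : ff A c s z0 - ff A c s z - ff' A s z * (z0 - z) ≤ 0 := by
      rw [ff_taylor hzp (by linarith)]
      have hw1 : 1 ≤ z0 / z := by
        rw [le_div_iff₀ hzp]; linarith
      have h3 := C_le1 hw1
      have h4 : (1 + s) * ((z0 / z - 1) ^ 2 / 2) ≤ (z0 / z - 1) ^ 2 / (z0 / z * z) := by
        rw [mul_div_assoc', div_le_div_iff₀ (by positivity) (by positivity)]
        have h5 : z0 / z * z = z0 := by field_simp
        rw [h5]
        have h6 : 0 ≤ (z0 / z - 1) ^ 2 := by positivity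
        nlinarith
      have h7 : (1 + s) * (z0 / z - 1 - Real.log (z0 / z)) ≤ (1 + s) * ((z0 / z - 1) ^ 2 / 2) :=
        mul_le_mul_of_nonneg_left h3 (by linarith)
      linarith
    -- combine
    rcases le_total 0 (ff' A s z) with h5 | h5
    · have : ff' A s z * (1 - z) ≤ 0 := mul_nonpos_of_nonneg_of_nonpos h5 (by linarith)
      -- f z ≥ f 1 - f'(1 - z) ≥ f 1
      linarith
    · have : ff' A s z * (z0 - z) ≤ 0 := mul_nonpos_of_nonpos_of_nonneg h5 (by linarith)
      linarith
  · have hrp : 0 < r := by linarith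
    have hzp : 0 < z := by linarith
    have ha : 0 ≤ ff A c s z - ff A c s r - ff' A s r * (z - r) := by
      rw [ff_taylor hrp hzp]
      have hw0 : 0 < z / r := by positivity
      have e1 : z / r * r = z := by field_simp
      rcases le_total (z / r) 1 with h3 | h3
      · have h4 := C_ge2 hw0 h3
        have h5 : (z / r - 1) ^ 2 / (z / r * r) ≤ (1 + s) * ((z / r - 1) ^ 2 / 2) := by
          rw [mul_div_assoc', div_le_div_iff₀ (by positivity) (by positivity), e1]
          have h6 : 0 ≤ (z / r - 1) ^ 2 := by positivity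
          have h7 : 2 ≤ (1 + s) * z := by nlinarith
          nlinarith
        have h7 : (1 + s) * ((z / r - 1) ^ 2 / 2) ≤ (1 + s) * (z / r - 1 - Real.log (z / r)) :=
          mul_le_mul_of_nonneg_left h4 (by linarith)
        linarith
      · have h4 := C_ge1 h3
        have h5 : (z / r - 1) ^ 2 / (z / r * r) ≤ (1 + s) * ((z / r - 1) ^ 2 / (2 * (z / r))) := by
          rw [mul_div_assoc', div_le_div_iff₀ (by positivity) (by positivity)]
          have h6 : 0 ≤ (z / r - 1) ^ 2 * (z / r) := by positivity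
          have h7 : 2 ≤ (1 + s) * r := by nlinarith
          nlinarith
        have h7 : (1 + s) * ((z / r - 1) ^ 2 / (2 * (z / r))) ≤
            (1 + s) * (z / r - 1 - Real.log (z / r)) :=
          mul_le_mul_of_nonneg_left h4 (by linarith)
        linarith
    have h8 : ff' A s r * (r - z) ≤ ff' A s r * (r - z0) :=
      mul_le_mul_of_nonneg_left (by linarith) hr'
    nlinarith

/-- the criterion for `ψ(α y) ≤ s C(y)` -/
theorem psi_le {α s r la lz lr : ℝ} (hα : 0 < α) (hs : 0 < s) (hs1 : s ≤ 1)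
    (hla : la ≤ Real.log α) (hlz : Real.log (2 / (1 + s)) ≤ lz) (hlr : Real.log r ≤ lr)
    (hz0 : (1 + s) * lz + (1 + s) / 2 ≤ s / α * (2 / (1 + s)) + (1 - s + s * la))
    (hr0 : 2 / (1 + s) ≤ r) (hr' : 0 ≤ s / α - (1 + s) / r + 1 / r ^ 2)
    (hfr : (s / α - (1 + s) / r + 1 / r ^ 2) * (r - 2 / (1 + s)) ≤
      s / α * r + (1 - s + s * la) - (1 + s) * lr - 1 / r) (y : ℝ) (hy : 0 < y) (hy1 : 1 ≤ α * y) :
    psi (α * y) ≤ s * (y - 1 - Real.log y) := by
  have hg : 0 ≤ ff (s / α) (1 - s + s * Real.log α) s 1 := by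
    unfold ff
    simp only [mul_one, Real.log_one, mul_zero, sub_zero, div_one]
    have h1 : 1 - α⁻¹ ≤ Real.log α := Real.one_sub_inv_le_log_of_pos hα
    have e : s / α + (1 - s + s * Real.log α) - 1 = s * (α⁻¹ - 1 + Real.log α) := by
      field_simp
      ring
    rw [e]
    exact mul_nonneg hs.le (by linarith)
  have hrp : 0 < r := lt_of_lt_of_le (by positivity) hr0
  have h1 : 0 ≤ ff (s / α) (1 - s + s * Real.log α) s (2 / (1 + s)) := by
    unfold ff
    have e : 1 / (2 / (1 + s)) = (1 + s) / 2 := by field_simp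
    rw [e]
    have := mul_le_mul_of_nonneg_left hlz (by linarith : 0 ≤ 1 + s)
    have := mul_le_mul_of_nonneg_left hla hs.le
    linarith
  have h2 : ff' (s / α) s r * (r - 2 / (1 + s)) ≤ ff (s / α) (1 - s + s * Real.log α) s r := by
    unfold ff ff'
    have := mul_le_mul_of_nonneg_left hlr (by linarith : 0 ≤ 1 + s)
    have := mul_le_mul_of_nonneg_left hla hs.le
    linarith
  have h3 := ff_nonneg hs hs1 hg h1 hr0 hr' h2 hy1
  unfold ff at h3
  unfold psi
  rw [Real.log_mul hα.ne' hy.ne'] at *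
  have e1 : s / α * (α * y) = s * y := by field_simp
  rw [e1] at h3
  rw [one_div] at h3
  nlinarith

/-- `log x ≤ q` from the Taylor polynomial of `exp q` -/
theorem log_le_of_taylor {x q : ℝ} (hx : 0 < x) (hq : 0 ≤ q)
    (h : x ≤ ∑ i ∈ Finset.range 9, q ^ i / (i.factorial : ℝ)) : Real.log x ≤ q := by
  rw [Real.log_le_iff_le_exp hx]
  exact h.trans (Real.sum_le_exp_of_nonneg hq 9)

theorem le_log_of_inv {x q : ℝ} (h : Real.log x⁻¹ ≤ q) : -q ≤ Real.log x := by
  rw [Real.log_inv] at h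
  linarith

theorem psi_95 (y : ℝ) (hy : 0 < y) (hy1 : 1 ≤ (19 / 20) * y) :
    psi ((19 / 20) * y) ≤ (595 / 1000) * (y - 1 - Real.log y) := by
  have h1 : -(51294 / 1000000 : ℝ) ≤ Real.log ((19 / 20)) := by
    refine le_log_of_inv (log_le_of_taylor (by norm_num) (by norm_num) ?_)
    norm_num [Finset.sum_range_succ, Nat.factorial]
  have h2 : Real.log (2 / (1 + (595 / 1000))) ≤ 226275 / 1000000 := by
    refine log_le_of_taylor (by norm_num) (by norm_num) ?_
    norm_num [Finset.sum_range_succ, Nat.factorial]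
  have h3 : Real.log ((1435 / 1000)) ≤ 361167 / 1000000 := by
    refine log_le_of_taylor (by norm_num) (by norm_num) ?_
    norm_num [Finset.sum_range_succ, Nat.factorial]
  exact psi_le (by norm_num) (by norm_num) (by norm_num) h1 h2 h3 (by norm_num) (by norm_num)
    (by norm_num) (by norm_num) y hy hy1

theorem psi_90 (y : ℝ) (hy : 0 < y) (hy1 : 1 ≤ (9 / 10) * y) :
    psi ((9 / 10) * y) ≤ (472 / 1000) * (y - 1 - Real.log y) := by
  have h1 : -(105361 / 1000000 : ℝ) ≤ Real.log ((9 / 10)) := by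
    refine le_log_of_inv (log_le_of_taylor (by norm_num) (by norm_num) ?_)
    norm_num [Finset.sum_range_succ, Nat.factorial]
  have h2 : Real.log (2 / (1 + (472 / 1000))) ≤ 306527 / 1000000 := by
    refine log_le_of_taylor (by norm_num) (by norm_num) ?_
    norm_num [Finset.sum_range_succ, Nat.factorial]
  have h3 : Real.log ((1655 / 1000)) ≤ 503803 / 1000000 := by
    refine log_le_of_taylor (by norm_num) (by norm_num) ?_
    norm_num [Finset.sum_range_succ, Nat.factorial]
  exact psi_le (by norm_num) (by norm_num) (by norm_num) h1 h2 h3 (by norm_num) (by norm_num)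
    (by norm_num) (by norm_num) y hy hy1

theorem psi_80 (y : ℝ) (hy : 0 < y) (hy1 : 1 ≤ (4 / 5) * y) :
    psi ((4 / 5) * y) ≤ (333 / 1000) * (y - 1 - Real.log y) := by
  have h1 : -(223144 / 1000000 : ℝ) ≤ Real.log ((4 / 5)) := by
    refine le_log_of_inv (log_le_of_taylor (by norm_num) (by norm_num) ?_)
    norm_num [Finset.sum_range_succ, Nat.factorial]
  have h2 : Real.log (2 / (1 + (333 / 1000))) ≤ 405717 / 1000000 := by
    refine log_le_of_taylor (by norm_num) (by norm_num) ?_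
    norm_num [Finset.sum_range_succ, Nat.factorial]
  have h3 : Real.log ((2005 / 1000)) ≤ 695647 / 1000000 := by
    refine log_le_of_taylor (by norm_num) (by norm_num) ?_
    norm_num [Finset.sum_range_succ, Nat.factorial]
  exact psi_le (by norm_num) (by norm_num) (by norm_num) h1 h2 h3 (by norm_num) (by norm_num)
    (by norm_num) (by norm_num) y hy hy1

end Pool.Agent.Lib.MP_172a45_an.H5
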