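import Pool.Agent.Lib.MP_172a45_an.LP.Tab

set_option autoImplicit false

/-!
# The box checker of part L-a (all numbers are naturals, scale `S = 2^24 = 16777216`)
-/

namespace Pool.Agent.Lib.MP_172a45_an.H5

/-- product rounded up -/
def mu (a b : ℕ) : ℕ := a * b / 16777216 + 1

/-- product rounded down -/
def md (a b : ℕ) : ℕ := a * b / 16777216

/-- maximum -/
def mx (a b : ℕ) : ℕ := a + (b - a)

/-- the loss in cell `i` -/
def l1 (Y c2 Xg i : ℕ) : ℕ :=
  let B := (1073741824 + (i + 1) * Y) / (63 - i) + 1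
  let f := 2 * B - c2 * i * 16777216 / (1073741824 + Xg * i)
  f * f / (4 * B) + 1

/-- the loop over the cells: `i R r l a b w` -/
noncomputable def go (Y c2 Xg X1 dd Kl L k : ℕ) : ℕ → ℕ → ℕ → ℕ → ℕ → ℕ → ℕ → Bool :=
  Nat.rec (motive := fun _ => ℕ → ℕ → ℕ → ℕ → ℕ → ℕ → ℕ → Bool)
    (fun _ _ _ _ a b w => Nat.blt (b + w * (64 * Kl)) (L * a))
    (fun _ ih i R r l a b _ =>
      ih (i + 1) (mu R r) (mu r dd) (mx l (l1 Y c2 Xg i)) (a + (1073741824 + X1 * i) * R)
        (b + (1073741824 + X1 * i) * R * (mx l (l1 Y c2 Xg i))) ((1073741824 + X1 * i) * R)) k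

/-- upper bound of `exp (-v)` -/
def ex (v : ℕ) : ℕ := 16777216 - v + mu v v / 2 + 1

/-- square rounded up -/
def sq (v : ℕ) : ℕ := mu v v

/-- the common part: `Δ0 t0 t1 gB`, `a1`, `D`, `Y` -/
noncomputable def tail (D0 t0 t1 gB a1 DD Y : ℕ) : Bool :=
  let X1 := mu a1 (t1 + 8388608)
  let m0 := t0 - 16777216 + DD
  let Xg := md a1 (t0 + 8388608)
  let q := 16777216 + mu a1 (t0 + 8388608)
  let g0 := t0 + DD - q
  let y := D0 * (DD + 16777216) / (DD + 33554432)
  let eps := mu a1 (sq (sq (sq (sq (ex (y / 16))))))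
  let L := md (16777216 - eps) g0
  let Dp := D0 - (gB + DD)
  let rho := ex (m0 / 64)
  let z0 := Dp / 8192
  let c2 := md (16777216 - eps) (md Xg Xg)
  let Kl := 7680 * (16777216 + Y) * (16777216 + X1) / (209 * (268435456 + 15 * X1)) + 1
  (Nat.ble X1 m0 && (Nat.ble a1 16777216 && (Nat.blt eps 16777216 && Nat.blt (3 * eps) L))) &&
    go Y c2 Xg X1 (bif Nat.beq Dp 0 then 16777216 else ex (2 * z0)) Kl (L - 3 * eps) 60 0 16777216
      (mu rho (bif Nat.beq Dp 0 then 16777216 else ex z0)) 0 0 0 0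

/-- `2 artanh z`, from below -/
def lgz (j z : ℕ) : ℕ :=
  j * 11629079 + 2 * (z + md (md z z) z / 3 + md (md (md z z) z) (md z z) / 5)

/-- the same for `m / S` -/
def lgm (j m : ℕ) : ℕ := lgz j ((m - 16777216) * 16777216 / (m + 16777216))

/-- lower bound of `log (E/S)` -/
def loglo (E : ℕ) : ℕ :=
  bif Nat.ble 16777216 E then lgm (Nat.log2 E - 24) (E / 2 ^ (Nat.log2 E - 24)) else 0

/-- `k`, for `c = 2^k` -/
def ck (A : ℕ) : ℕ :=
  bif Nat.blt A 83886080 then 1 else bif Nat.blt A 184549376 then 2 else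
  bif Nat.blt A 402653184 then 3 else bif Nat.blt A 838860800 then 4 else
  bif Nat.blt A 1426063360 then 5 else 6

/-- upper bound of `x t - b` on `[a0, a1]` -/
def xx (a0 a1 t : ℕ) : ℕ :=
  mu (16777216 - a0) (mu (16777216 + a0) t - 16777216) + mu (16777216 - md (2 * a0) t) (a1 - a0)

/-- check of one box -/
noncomputable def chkA (N D0 D1 t0 t1 T2 gA gB a0 a1 : ℕ) : Bool :=
  let DS := D1 - gA
  let b1 := 16777216 - a1
  let x0 := 16777216 - md a0 a0
  let X0 := xx a0 a1 t1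
  let k1 := 16777216 + xx a0 a1 T2 / 2 + 1
  let A := N * md b1 (50331648 - mu b1 b1) / 2
  let c := 2 ^ ck A
  let lc := ck A * 11629080
  let num := 16777216 + A + md k1 (16777216 - lc) / 2 - (X0 / 2 + 2 + mu k1 (lc - 16777216) / 2)
  let den := 16777216 + X0 + k1 / (2 * c) + 1
  let G := loglo (num * 16777216 / den)
  let D := mx (mx ((G - (DS * 595 / 2000 + 1)) * 19 / 20 * 16777216 / x0)
      ((G - (DS * 472 / 2000 + 1)) * 9 / 10 * 16777216 / x0))
      (mx ((G - (DS * 333 / 2000 + 1)) * 4 / 5 * 16777216 / x0) (G * 16777216 / mu x0 T2))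
  let Y := T2 - 16777216 - (T2 - 16777216 - mu a1 T2)
  tail D0 t0 t1 gB a1 D Y

/-- check of the last region `[a0, 1)` -/
noncomputable def chkL (N D0 t0 t1 T2 gB a0 : ℕ) : Bool :=
  let b0 := 16777216 - a0
  let rb := mu b0 (2 * t1 - 16777216)
  let num := 50331648 + N * md b0 (50331648 - mu b0 b0) - rb
  let G := loglo (num * 16777216 / (50331648 + 2 * rb))
  tail D0 t0 t1 gB 16777216 (G * 16777216 / mu (2 * b0) T2) (T2 - 16777216)

/-- all `a`-cells (cuts in units `1/1024`) -/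
noncomputable def covA (N D0 D1 t0 t1 T2 gA gB : ℕ) (l : List ℕ) : ℕ → Bool :=
  List.rec (motive := fun _ => ℕ → Bool)
    (fun a => chkL N D0 t0 t1 T2 gB (a * 16384))
    (fun c _ ih a => chkA N D0 D1 t0 t1 T2 gA gB (a * 16384) (c * 16384) && ih c) l

/-- a `t`-cell: right end, `T2` (units `1/64`), table indices for `t0`, `t1`, `T2`; the `a`-cuts -/
structure TC where
  t1 : ℕ
  T2 : ℕ
  kA : ℕ
  kB : ℕ
  kT : ℕ
  l : List ℕ

/-- lower bound of `g(T)` -/
def gLow (T k : ℕ) : ℕ := T + 117440512 - LP.lk k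

/-- upper bound of `g(T)` -/
def gUp (T k : ℕ) : ℕ := T + LP.lk k - 150994944

/-- check of one `t`-cell -/
noncomputable def chkT (N D0 D1 t0 : ℕ) (c : TC) : Bool :=
  let t1 := c.t1 * 262144
  let T2 := c.T2 * 262144
  let gA := gLow t0 c.kA
  (Nat.ble t0 t1 && (Nat.ble 16777216 T2 && (Nat.blt c.kA 1024 && (Nat.blt c.kB 1024 &&
      (Nat.blt c.kT 1024 && (Nat.ble (t0 * LP.rk c.kA) 281474976710656 &&
      (Nat.ble (LP.rk c.kB) t1 && (Nat.ble t1 T2 || (Nat.ble (T2 * LP.rk c.kT) 281474976710656 &&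
        Nat.ble (D1 - gA) (gLow T2 c.kT)))))))))) &&
    covA N D0 D1 t0 t1 T2 gA (gUp t1 c.kB) c.l 0

/-- all `t`-cells; `kE` is the table index for the last right end -/
noncomputable def covT (N D0 D1 kE : ℕ) (l : List TC) : ℕ → Bool :=
  List.rec (motive := fun _ => ℕ → Bool)
    (fun t0 => Nat.blt kE 1024 && (Nat.ble (t0 * LP.rk kE) 281474976710656 &&
      Nat.blt D1 (gLow t0 kE)))
    (fun c _ ih t0 => chkT N D0 D1 t0 c && ih (c.t1 * 262144)) l

end Pool.Agent.Lib.MP_172a45_an.H5
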