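import Pool.Agent.Lib.MP_172a45_an.H5.Disc

set_option autoImplicit false

/-!
# The core theorem of part L-a (real form)
-/

namespace Pool.Agent.Lib.MP_172a45_an.H5

open Finset
open Pool.Agent.Lib.MP_172a45_an.F
open Pool.Agent.Lib.MP_172a45_an.F.Fr
open Pool.Agent.Lib.MP_172a45_an.L

/-- existence of the root -/
theorem exists_root {κ pr : ℝ} (hκ : κ ≤ 1) (hpr : 0 ≤ pr) :
    ∃ X : ℝ, 0 ≤ X ∧ X * (X + (1 - κ)) = pr := by
  set μ := 1 - κ with hμ
  have hμ0 : 0 ≤ μ := by linarith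
  refine ⟨(-μ + √(μ ^ 2 + 4 * pr)) / 2, ?_, ?_⟩
  · have : μ ≤ √(μ ^ 2 + 4 * pr) := Real.le_sqrt_of_sq_le (by linarith)
    linarith
  · have h := Real.sq_sqrt (by positivity : 0 ≤ μ ^ 2 + 4 * pr)
    nlinarith

/-- the ratio of two consecutive cells -/
theorem cell_ratio {q : ℝ → ℝ} (hqc : Continuous q) {X m D H : ℝ} {i n : ℕ} (hX : 0 ≤ X)
    (hD : 0 ≤ D) (hH : 0 ≤ H) (hin : i + 2 ≤ n) (hn1 : n * H < 1)
    (hq0 : ∀ s, 0 ≤ s → s < 1 → 0 ≤ q s)
    (hanti : ∀ s s' : ℝ, 0 ≤ s → s ≤ s' → s' < 1 → q s' * wt X m D s ≤ q s * wt X m D s') :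
    (∫ s in ((i + 1 : ℕ) * H)..((i + 1 + 1 : ℕ) * H), q s) * wt X m D (i * H) ≤
      (∫ s in (i * H)..((i + 1 : ℕ) * H), q s) * wt X m D ((i + 1 : ℕ) * H) := by
  have hi0 : 0 ≤ (i : ℝ) * H := by positivity
  have hin' : ((i : ℝ) + 2) * H ≤ n * H := by
    refine mul_le_mul_of_nonneg_right ?_ hH
    exact_mod_cast hin
  have e1 : ∫ s in ((i + 1 : ℕ) * H)..((i + 1 + 1 : ℕ) * H), q s =
      ∫ s in (i * H)..((i + 1 : ℕ) * H), q (s + H) := by
    rw [intervalIntegral.integral_comp_add_right]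
    congr 1 <;> push_cast <;> ring
  rw [e1, ← intervalIntegral.integral_mul_const, ← intervalIntegral.integral_mul_const]
  refine intervalIntegral.integral_mono_on (by push_cast; nlinarith) ?_ ?_ ?_
  · exact ((hqc.comp (continuous_id.add continuous_const)).mul continuous_const).intervalIntegrable _ _
  · exact (hqc.mul continuous_const).intervalIntegrable _ _
  · intro s hs
    have hs0 : 0 ≤ s := hi0.trans hs.1
    have hs1 : s ≤ ((i : ℝ) + 1) * H := by
      have := hs.2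
      push_cast at this
      exact this
    have hs2 : s + H < 1 := by nlinarith
    have h1 := hanti s (s + H) hs0 (by linarith) hs2
    have h2 := wt_ratio (m := m) hX hD hi0 hs.1 hH
    have hw := wt_pos (m := m) (D := D) hX hs0
    have hw0 := wt_pos (m := m) (D := D) hX hi0
    have hq := hq0 s hs0 (by linarith)
    have e2 : ((i + 1 : ℕ) : ℝ) * H = i * H + H := by push_cast; ring
    rw [e2]
    refine le_of_mul_le_mul_left ?_ hw
    calc wt X m D s * (q (s + H) * wt X m D (i * H))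
        = (q (s + H) * wt X m D s) * wt X m D (i * H) := by ring
      _ ≤ (q s * wt X m D (s + H)) * wt X m D (i * H) := mul_le_mul_of_nonneg_right h1 hw0.le
      _ = q s * (wt X m D (s + H) * wt X m D (i * H)) := by ring
      _ ≤ q s * (wt X m D s * wt X m D (i * H + H)) := mul_le_mul_of_nonneg_left h2 hq
      _ = _ := by ring

/-- the last cell dominates `H q(s₁)` -/
theorem cell_last {q : ℝ → ℝ} (hqc : Continuous q) {X m D s0 s1 : ℝ} (hX : 0 ≤ X) (hXm : X ≤ m)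
    (hD : 0 ≤ D) (h0 : 0 ≤ s0) (h01 : s0 ≤ s1) (h1 : s1 < 1) (hq0 : ∀ s, 0 ≤ s → s < 1 → 0 ≤ q s)
    (hanti : ∀ s s' : ℝ, 0 ≤ s → s ≤ s' → s' < 1 → q s' * wt X m D s ≤ q s * wt X m D s') :
    (s1 - s0) * q s1 ≤ ∫ s in s0..s1, q s := by
  have e : (s1 - s0) * q s1 = ∫ _s in s0..s1, q s1 := by
    rw [intervalIntegral.integral_const, smul_eq_mul]
  rw [e]
  refine intervalIntegral.integral_mono_on h01 (by simp) (hqc.intervalIntegrable _ _) ?_
  intro s hs
  have hs0 : 0 ≤ s := h0.trans hs.1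
  have h2 := hanti s s1 hs0 hs.2 h1
  have h3 := wt_anti hX hXm hD hs0 hs.2
  have hw := wt_pos (m := m) (D := D) hX hs0
  have hq := hq0 s hs0 (lt_of_le_of_lt hs.2 h1)
  refine le_of_mul_le_mul_right ?_ hw
  exact h2.trans (mul_le_mul_of_nonneg_left h3 hq)

/-- `f(X) = R X + (1-R) X/(1+Xs)` is nondecreasing and 1-Lipschitz -/
theorem fX_mono {R s X X' : ℝ} (hR0 : 0 ≤ R) (hR1 : R ≤ 1) (hs : 0 ≤ s) (hX : 0 ≤ X)
    (hXX : X ≤ X') : R * X + (1 - R) * (X / (1 + X * s)) ≤ R * X' + (1 - R) * (X' / (1 + X' * s)) := by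
  have h1 : X / (1 + X * s) ≤ X' / (1 + X' * s) := by
    have := mul_nonneg hX hs
    have := mul_nonneg (hX.trans hXX) hs
    rw [div_le_div_iff₀ (by linarith) (by linarith)]
    nlinarith
  have := mul_le_mul_of_nonneg_left h1 (by linarith : 0 ≤ 1 - R)
  nlinarith

theorem fX_lip {R s X X' : ℝ} (hR0 : 0 ≤ R) (hR1 : R ≤ 1) (hs : 0 ≤ s) (hX : 0 ≤ X)
    (hXX : X ≤ X') : R * X' + (1 - R) * (X' / (1 + X' * s)) ≤
      R * X + (1 - R) * (X / (1 + X * s)) + (X' - X) := by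
  have h1 : X' / (1 + X' * s) ≤ X / (1 + X * s) + (X' - X) := by
    have h2 := mul_nonneg hX hs
    have h3 := mul_nonneg (hX.trans hXX) hs
    have h4 : X' / (1 + X' * s) - X / (1 + X * s) = (X' - X) / ((1 + X' * s) * (1 + X * s)) := by
      field_simp
      ring
    have h5 : (X' - X) / ((1 + X' * s) * (1 + X * s)) ≤ X' - X := by
      refine div_le_self (by linarith) ?_
      nlinarith
    linarith
  have := mul_le_mul_of_nonneg_left h1 (by linarith : 0 ≤ 1 - R)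
  nlinarith

/-- the quadratic loss: value at the optimal `R` -/
theorem loss_opt {B A : ℝ} (hB : 0 < B) (hA : 0 ≤ A) :
    ∃ R : ℝ, 0 ≤ R ∧ R ≤ 1 ∧ (max (2 * B - A) 0) ^ 2 / (4 * B) = (1 - R) * (B * (1 + R) - A) := by
  rcases le_total A (2 * B) with h | h
  · refine ⟨A / (2 * B), by positivity, by rw [div_le_one (by positivity)]; exact h, ?_⟩
    rw [max_eq_left (by linarith)]
    field_simp
    ring
  · refine ⟨1, zero_le_one, le_rfl, ?_⟩
    rw [max_eq_right (by linarith)]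
    simp

end Pool.Agent.Lib.MP_172a45_an.H5
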