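import Pool.Agent.Lib.MP_172a45_an.H5.Chk

set_option autoImplicit false

/-!
# Data of part L-a
-/

namespace Pool.Agent.Lib.MP_172a45_an.H5

theorem dA_20_17 : chkT 100 (480 * 262144) (512 * 262144) (269 * 262144)
    ⟨301, 301, 645, 370, 655, [256, 512, 595, 640, 671, 695, 715, 733, 750, 767, 784, 802, 823, 847, 874, 903, 931, 954, 971, 982, 992, 1003, 1012, 1014]⟩ = true := by
  decide +kernel

theorem dA_20_18 : chkT 100 (480 * 262144) (512 * 262144) (301 * 262144)
    ⟨333, 333, 655, 360, 665, [256, 512, 621, 678, 717, 748, 776, 802, 828, 857, 888, 919, 946, 967, 981, 989, 996, 1004, 1012, 1014]⟩ = true := by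
  decide +kernel

theorem dA_20_19 : chkT 100 (480 * 262144) (512 * 262144) (333 * 262144)
    ⟨397, 397, 665, 344, 681, [256, 512, 609, 655, 685, 707, 724, 738, 751, 763, 774, 785, 796, 808, 820, 833, 847, 864, 884, 906, 928, 949, 966, 979, 987, 991, 994, 995, 996, 997, 998, 1000, 1002, 1005, 1009, 1013, 1014]⟩ = true := by
  decide +kernel

theorem dA_20_20 : chkT 100 (480 * 262144) (512 * 262144) (397 * 262144)
    ⟨429, 429, 681, 337, 688, [256, 512, 689, 768, 822, 868, 910, 945, 971, 988, 997, 1001, 1003, 1006, 1009, 1012, 1014]⟩ = true := by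
  decide +kernel

theorem dA_20_21 : chkT 100 (480 * 262144) (512 * 262144) (429 * 262144)
    ⟨493, 460, 688, 324, 695, [256, 512, 691, 768, 820, 864, 903, 937, 965, 984, 995, 1001, 1004, 1006, 1008, 1010, 1012, 1014]⟩ = true := by
  decide +kernel

theorem dA_20_22 : chkT 100 (480 * 262144) (512 * 262144) (493 * 262144)
    ⟨557, 396, 701, 313, 681, [256, 512, 752, 844, 908, 955, 984, 1000, 1007, 1012, 1014]⟩ = true := by
  decide +kernel

theorem dA_20_23 : chkT 100 (480 * 262144) (512 * 262144) (557 * 262144)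
    ⟨621, 327, 712, 303, 663, [256, 512, 768, 883, 947, 984, 1003, 1011, 1014]⟩ = true := by
  decide +kernel

theorem dA_20_24 : chkT 100 (480 * 262144) (512 * 262144) (621 * 262144)
    ⟨685, 253, 722, 294, 639, [256, 512, 768, 900, 965, 998, 1011, 1014]⟩ = true := by
  decide +kernel

theorem dA_20_25 : chkT 100 (480 * 262144) (512 * 262144) (685 * 262144)
    ⟨749, 170, 731, 285, 603, [256, 512, 768, 914, 977, 1005, 1014]⟩ = true := by
  decide +kernel

theorem dA_20_e : covT 100 (480 * 262144) (512 * 262144) 740 [] (749 * 262144) = true := by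
  decide +kernel

end Pool.Agent.Lib.MP_172a45_an.H5
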