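import Pool.Agent.Lib.MP_172a45_an.L.Gam
import Pool.Agent.Lib.MP_172a45_an.L.Chain
import Pool.Agent.Lib.MP_172a45_an.F.H69.Late

set_option autoImplicit false

/-!
# The discrete chain
-/

namespace Pool.Agent.Lib.MP_172a45_an.H5

open Finset
open Pool.Agent.Lib.MP_172a45_an.F
open Pool.Agent.Lib.MP_172a45_an.F.Fr
open Pool.Agent.Lib.MP_172a45_an.L

/-- the weight -/
noncomputable def wt (X m D s : ℝ) : ℝ := (1 + X * s) * Real.exp (-(m * s + s ^ 2 / 2 * D))

theorem wt_pos {X m D s : ℝ} (hX : 0 ≤ X) (hs : 0 ≤ s) : 0 < wt X m D s := by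
  unfold wt
  have := mul_nonneg hX hs
  have := Real.exp_pos (-(m * s + s ^ 2 / 2 * D))
  positivity

/-- `w(s + H)/w(s)` is nonincreasing -/
theorem wt_ratio {X m D s s0 H : ℝ} (hX : 0 ≤ X) (hD : 0 ≤ D) (hs0 : 0 ≤ s0) (hs : s0 ≤ s)
    (hH : 0 ≤ H) : wt X m D (s + H) * wt X m D s0 ≤ wt X m D s * wt X m D (s0 + H) := by
  unfold wt
  have e1 : (1 + X * (s + H)) * Real.exp (-(m * (s + H) + (s + H) ^ 2 / 2 * D)) *
      ((1 + X * s0) * Real.exp (-(m * s0 + s0 ^ 2 / 2 * D))) =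
      ((1 + X * (s + H)) * (1 + X * s0)) *
        Real.exp (-(m * (s + H) + (s + H) ^ 2 / 2 * D) + -(m * s0 + s0 ^ 2 / 2 * D)) := by
    rw [Real.exp_add]; ring
  have e2 : (1 + X * s) * Real.exp (-(m * s + s ^ 2 / 2 * D)) *
      ((1 + X * (s0 + H)) * Real.exp (-(m * (s0 + H) + (s0 + H) ^ 2 / 2 * D))) =
      ((1 + X * s) * (1 + X * (s0 + H))) *
        Real.exp (-(m * s + s ^ 2 / 2 * D) + -(m * (s0 + H) + (s0 + H) ^ 2 / 2 * D)) := by
    rw [Real.exp_add]; ring
  rw [e1, e2]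
  have h1 : 0 ≤ X * s0 := mul_nonneg hX hs0
  have h2 : 0 ≤ X * s := mul_nonneg hX (hs0.trans hs)
  have h3 : 0 ≤ X * H := mul_nonneg hX hH
  have h4 : X * s0 ≤ X * s := mul_le_mul_of_nonneg_left hs hX
  refine mul_le_mul ?_ ?_ (Real.exp_pos _).le (by nlinarith)
  · nlinarith
  · rw [Real.exp_le_exp]
    have h5 : 0 ≤ D * (H * (s - s0)) := mul_nonneg hD (mul_nonneg hH (by linarith))
    nlinarith

/-- `w` is nonincreasing when `X ≤ m` -/
theorem wt_anti {X m D s s' : ℝ} (hX : 0 ≤ X) (hXm : X ≤ m) (hD : 0 ≤ D) (hs : 0 ≤ s)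
    (hss : s ≤ s') : wt X m D s' ≤ wt X m D s := by
  unfold wt
  have h1 : 0 ≤ X * s := mul_nonneg hX hs
  have h2 : 1 + X * s' ≤ (1 + X * s) * Real.exp (X * (s' - s)) := by
    have h3 : X * (s' - s) + 1 ≤ Real.exp (X * (s' - s)) := Real.add_one_le_exp _
    have h4 : 0 ≤ X * (s' - s) := mul_nonneg hX (by linarith)
    have h5 : (1 + X * s) * (X * (s' - s) + 1) ≤ (1 + X * s) * Real.exp (X * (s' - s)) :=
      mul_le_mul_of_nonneg_left h3 (by linarith)
    nlinarith [mul_nonneg h1 h4]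
  have h6 : (1 + X * s') * Real.exp (-(m * s' + s' ^ 2 / 2 * D)) ≤
      (1 + X * s) * Real.exp (X * (s' - s)) * Real.exp (-(m * s' + s' ^ 2 / 2 * D)) :=
    mul_le_mul_of_nonneg_right h2 (Real.exp_pos _).le
  refine h6.trans ?_
  rw [mul_assoc, ← Real.exp_add]
  refine mul_le_mul_of_nonneg_left ?_ (by linarith)
  rw [Real.exp_le_exp]
  have h7 : 0 ≤ (m - X) * (s' - s) := mul_nonneg (by linarith) (by linarith)
  have h8 : 0 ≤ D * ((s' - s) * (s' + s)) := mul_nonneg hD (mul_nonneg (by linarith) (by linarith))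
  nlinarith

/-- `q / w` is nonincreasing -/
theorem q_anti {M : ℕ} (c : Fin M → ℝ) (hc : ∀ k, 0 ≤ c k) {X X1 m0 D δ : ℝ} (hX : 0 ≤ X)
    (hXX : X ≤ X1) (hδ : 0 ≤ δ) (hm : m0 + δ ≤ ∑ k, (1 - c k))
    (hD : D - δ ≤ ∑ k, gg1 (max (c k) (1 / 2))) {s s' : ℝ} (hs : 0 ≤ s) (hss : s ≤ s')
    (hs' : s' < 1) :
    (TT (1 + X) s' * ∏ k, TT (c k) s') * wt X1 m0 D s ≤
      (TT (1 + X) s * ∏ k, TT (c k) s) * wt X1 m0 D s' := by
  set m := ∑ k, (1 - c k) with hmd
  have h1 := W_prod univ c (fun k _ => hc k) (m := m) (Δ := D - δ) hmd hD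
    ⟨hs, lt_of_le_of_lt hss hs'⟩ ⟨hs.trans hss, hs'⟩ hss
  set P' := ∏ k, TT (c k) s' with hP'
  set P := ∏ k, TT (c k) s with hP
  have hTn : ∀ x : ℝ, 0 ≤ x → x < 1 → ∀ k, 0 ≤ TT (c k) x := fun x hx hx1 k => by
    unfold TT
    have := mul_nonneg hx (hc k)
    linarith
  have hP0 : 0 ≤ P := Finset.prod_nonneg fun k _ => hTn s hs (lt_of_le_of_lt hss hs') k
  have hP'0 : 0 ≤ P' := Finset.prod_nonneg fun k _ => hTn s' (hs.trans hss) hs' k
  -- `P' exp(m0 s' + ..) ≤ P exp(m0 s + ..)`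
  have h2 : P' * Real.exp (m0 * s' + s' ^ 2 / 2 * D) ≤ P * Real.exp (m0 * s + s ^ 2 / 2 * D) := by
    have e : ∀ x : ℝ, Real.exp (m0 * x + x ^ 2 / 2 * D) =
        Real.exp (m * x + x ^ 2 / 2 * (D - δ)) * Real.exp (-((m - m0) * x) + x ^ 2 / 2 * δ) := by
      intro x
      rw [← Real.exp_add]
      congr 1
      ring
    rw [e, e, ← mul_assoc, ← mul_assoc]
    refine mul_le_mul h1 ?_ (Real.exp_pos _).le (by positivity)
    rw [Real.exp_le_exp]
    have h3 : δ * (s' - s) ≤ (m - m0) * (s' - s) :=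
      mul_le_mul_of_nonneg_right (by linarith) (by linarith)
    have h4 : δ * ((s' - s) * ((s' + s) / 2)) ≤ δ * ((s' - s) * 1) := by
      refine mul_le_mul_of_nonneg_left ?_ hδ
      exact mul_le_mul_of_nonneg_left (by linarith) (by linarith)
    nlinarith
  have h3 : P' * Real.exp (-(m0 * s + s ^ 2 / 2 * D)) ≤
      P * Real.exp (-(m0 * s' + s' ^ 2 / 2 * D)) := by
    have h4 := mul_le_mul_of_nonneg_right h2
      (Real.exp_pos (-(m0 * s + s ^ 2 / 2 * D) + -(m0 * s' + s' ^ 2 / 2 * D))).le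
    rw [mul_assoc, mul_assoc, ← Real.exp_add, ← Real.exp_add] at h4
    have e1 : m0 * s' + s' ^ 2 / 2 * D + (-(m0 * s + s ^ 2 / 2 * D) + -(m0 * s' + s' ^ 2 / 2 * D)) =
        -(m0 * s + s ^ 2 / 2 * D) := by ring
    have e2 : m0 * s + s ^ 2 / 2 * D + (-(m0 * s + s ^ 2 / 2 * D) + -(m0 * s' + s' ^ 2 / 2 * D)) =
        -(m0 * s' + s' ^ 2 / 2 * D) := by ring
    rw [e1, e2] at h4
    exact h4
  unfold wt
  have hXs : 0 ≤ X * s := mul_nonneg hX hs
  have hX1 : 0 ≤ X1 := hX.trans hXX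
  have h5 : TT (1 + X) s' * (1 + X1 * s) ≤ TT (1 + X) s * (1 + X1 * s') := by
    unfold TT
    have h6 : 0 ≤ (X1 - X) * (s' - s) := mul_nonneg (by linarith) (by linarith)
    nlinarith
  have hT0 : 0 ≤ TT (1 + X) s' := by
    unfold TT
    have := mul_nonneg hX (hs.trans hss)
    nlinarith
  have hT1 : 0 ≤ TT (1 + X) s := by
    unfold TT
    nlinarith
  calc TT (1 + X) s' * P' * ((1 + X1 * s) * Real.exp (-(m0 * s + s ^ 2 / 2 * D)))
      = (TT (1 + X) s' * (1 + X1 * s)) * (P' * Real.exp (-(m0 * s + s ^ 2 / 2 * D))) := by ring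
    _ ≤ (TT (1 + X) s * (1 + X1 * s')) * (P * Real.exp (-(m0 * s' + s' ^ 2 / 2 * D))) := by
        refine mul_le_mul h5 h3 (by positivity) ?_
        have := mul_nonneg hX1 (hs.trans hss)
        exact mul_nonneg hT1 (by linarith)
    _ = _ := by ring

/-- discrete Chebyshev -/
theorem cheb_disc {n : ℕ} (hn : 0 < n) {p W L : ℕ → ℝ} (hp : ∀ i, i < n → 0 < p i)
    (hW : ∀ i, i < n → 0 < W i) (hr : ∀ i, i + 1 < n → p (i + 1) * W i ≤ p i * W (i + 1))
    (hL : ∀ i, i + 1 < n → L (i + 1) ≤ L i) (hS : 0 < ∑ i ∈ range n, W i * L i) :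
    0 < ∑ i ∈ range n, p i * L i := by
  -- monotonicity of the ratio
  have hrat : ∀ i j, i ≤ j → j < n → p j / W j ≤ p i / W i := by
    intro i j hij
    induction j, hij using Nat.le_induction with
    | base => intro _; exact le_rfl
    | succ j hj ih =>
      intro hjn
      refine le_trans ?_ (ih (by omega))
      rw [div_le_div_iff₀ (hW _ hjn) (hW _ (by omega))]
      have := hr j hjn
      linarith
  have hLm : ∀ i j, i ≤ j → j < n → L j ≤ L i := by
    intro i j hij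
    induction j, hij using Nat.le_induction with
    | base => intro _; exact le_rfl
    | succ j hj ih =>
      intro hjn
      exact (hL j hjn).trans (ih (by omega))
  have hL0 : 0 < L 0 := by
    by_contra hcon
    push Not at hcon
    have : ∑ i ∈ range n, W i * L i ≤ 0 := by
      refine Finset.sum_nonpos fun i hi => ?_
      have hi' := Finset.mem_range.1 hi
      exact mul_nonpos_of_nonneg_of_nonpos (hW i hi').le ((hLm 0 i (Nat.zero_le _) hi').trans hcon)
    linarith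
  have key : ∃ r : ℝ, 0 < r ∧ ∀ i, i < n → r * (W i * L i) ≤ p i * L i := by
    by_cases hall : ∀ i, i < n → 0 ≤ L i
    · refine ⟨p (n - 1) / W (n - 1), div_pos (hp _ (by omega)) (hW _ (by omega)), fun i hi => ?_⟩
      have h1 := hrat i (n - 1) (by omega) (by omega)
      have h2 : p (n - 1) / W (n - 1) * W i ≤ p i := by
        rw [le_div_iff₀ (hW i hi)] at h1
        exact h1
      have := mul_le_mul_of_nonneg_right h2 (hall i hi)
      linarith
    · push Not at hall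
      classical
      have hex : ∃ k, k < n ∧ L k < 0 := hall
      set k := Nat.find hex with hk
      obtain ⟨hkn, hkL⟩ := Nat.find_spec hex
      rw [← hk] at hkn hkL
      have hk0 : 0 < k := by
        rcases Nat.eq_zero_or_pos k with h0 | h0
        · rw [h0] at hkL; linarith
        · exact h0
      refine ⟨p (k - 1) / W (k - 1), div_pos (hp _ (by omega)) (hW _ (by omega)), fun i hi => ?_⟩
      rcases lt_or_ge i k with hik | hik
      · have hLi : 0 ≤ L i := by
          by_contra hcon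
          push Not at hcon
          exact Nat.find_min hex hik ⟨hi, hcon⟩
        have h1 := hrat i (k - 1) (by omega) (by omega)
        have h2 : p (k - 1) / W (k - 1) * W i ≤ p i := by
          rw [le_div_iff₀ (hW i hi)] at h1
          exact h1
        have := mul_le_mul_of_nonneg_right h2 hLi
        linarith
      · have hLi : L i ≤ 0 := (hLm k i hik hi).trans hkL.le
        have h1 := hrat (k - 1) i (by omega) hi
        have h2 : p i ≤ p (k - 1) / W (k - 1) * W i := by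
          rw [div_le_iff₀ (hW i hi)] at h1
          exact h1
        have := mul_le_mul_of_nonpos_right h2 hLi
        linarith
  obtain ⟨r, hr0, hr1⟩ := key
  have h1 : r * ∑ i ∈ range n, W i * L i ≤ ∑ i ∈ range n, p i * L i := by
    rw [Finset.mul_sum]
    exact Finset.sum_le_sum fun i hi => hr1 i (Finset.mem_range.1 hi)
  have := mul_pos hr0 hS
  linarith

end Pool.Agent.Lib.MP_172a45_an.H5
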