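import Pool.Agent.Lib.MP_172a45_an.H5.Point
import Pool.Agent.Lib.MP_172a45_an.L.F0q

set_option autoImplicit false

/-!
# The core theorem of part L-a
-/

namespace Pool.Agent.Lib.MP_172a45_an.H5

open Finset
open Pool.Agent.Lib.MP_172a45_an.F
open Pool.Agent.Lib.MP_172a45_an.F.Fr
open Pool.Agent.Lib.MP_172a45_an.L

/-- the true loss, for the index `s` -/
noncomputable def lX (Y X μ s : ℝ) : ℝ :=
  (max (2 * ((1 + s * Y) / (1 - s)) - s * (X * (X + μ)) / TT (1 + X) s) 0) ^ 2 /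
    (4 * ((1 + s * Y) / (1 - s)))

theorem lX_nonneg {Y X μ s : ℝ} (hY : 0 ≤ Y) (hs0 : 0 ≤ s) (hs1 : s < 1) : 0 ≤ lX Y X μ s := by
  unfold lX
  have h1 := mul_nonneg hs0 hY
  have h2 : 0 < (1 + s * Y) / (1 - s) := div_pos (by linarith) (by linarith)
  positivity

theorem lX_contOn {Y X μ s1 : ℝ} (hY : 0 ≤ Y) (hX : 0 ≤ X) (hs1 : s1 < 1) :
    ContinuousOn (lX Y X μ) (Set.Icc 0 s1) := by
  unfold lX
  have hB : ContinuousOn (fun s : ℝ => (1 + s * Y) / (1 - s)) (Set.Icc 0 s1) := by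
    refine ContinuousOn.div (by fun_prop) (by fun_prop) fun s hs => ?_
    have := hs.2
    linarith
  have hA : ContinuousOn (fun s : ℝ => s * (X * (X + μ)) / TT (1 + X) s) (Set.Icc 0 s1) := by
    refine ContinuousOn.div (by fun_prop) ((TT_cont _).continuousOn) fun s hs => ?_
    unfold TT
    have := mul_nonneg hX hs.1
    nlinarith [hs.1]
  refine ContinuousOn.div ?_ (continuousOn_const.mul hB) fun s hs => ?_
  · exact (((continuousOn_const.mul hB).sub hA).sup continuousOn_const).pow 2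
  · have h1 := mul_nonneg hs.1 hY
    have h2 : 0 < (1 + s * Y) / (1 - s) := div_pos (by linarith) (by linarith [hs.2])
    positivity

/-- **Core theorem.** -/
theorem core {M : ℕ} {a : ℝ} {ζ z : Fin (M + 1) → ℂ} (h : Fr (M + 1) a ζ z) (hM : 0 < M)
    (hmax : ∀ k, ‖u a ζ k‖ ≤ ‖u a ζ 0‖)
    {a1 τ0 τ1 Δ0 D0 Y ε Δ' X1 Xg H g0 L0 Kl : ℝ} {n : ℕ} (hn : 0 < n)
    (ha1 : a ≤ a1) (ha11 : a1 ≤ 1) (hτ00 : 1 ≤ τ0) (hτ0 : τ0 ≤ ‖u a ζ 0‖) (hτ1 : ‖u a ζ 0‖ ≤ τ1)
    (hΔ00 : 0 ≤ Δ0) (hΔ0 : Δ0 ≤ Del a ζ) (hD0 : D0 ≤ DS a ζ) (hD00 : 0 ≤ D0)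
    (hY : ∀ k, ‖vt a ζ k‖ ≤ 1 + Y) (hY0 : 0 ≤ Y)
    (hε : a1 * Real.exp (-(Δ0 * ((D0 + 1) / (D0 + 2)))) ≤ ε) (hε0 : 0 ≤ ε) (hε1 : ε < 1)
    (hΔ'0 : 0 ≤ Δ') (hΔ' : Δ' = 0 ∨ Δ' ≤ Δ0 - gg1 τ1 - D0)
    (hX1 : a1 * (τ1 + 1 / 2) ≤ X1) (hX1m : X1 ≤ τ0 - 1 + D0)
    (hXg0 : 0 ≤ Xg) (hXg : Xg ≤ a1 * (τ0 + 1 / 2))
    (hg0 : g0 ≤ τ0 - 1 + D0 - a1 * (τ0 + 1 / 2)) (hL0 : L0 ≤ (1 - ε) * g0 - 3 * ε)
    (hH : 0 < H) (hnH : (n : ℝ) * H < 1) (hw : 0 < (n * H) ^ 2 + n * H - 1)
    (ℓ : ℕ → ℝ) (hℓm : ∀ i, i + 1 < n → ℓ i ≤ ℓ (i + 1))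
    (hℓ : ∀ i, i < n → ∃ B A : ℝ, (1 + ((i + 1 : ℕ) * H) * Y) / (1 - (i + 1 : ℕ) * H) ≤ B ∧
      A ≤ (1 - ε) * AX Xg (i * H) ∧ (max (2 * B - A) 0) ^ 2 ≤ 4 * B * ℓ i)
    (W : ℕ → ℝ) (hW0 : ∀ i, i < n → 0 < W i)
    (hW : ∀ i, i + 1 < n → W i * wt X1 (τ0 - 1 + D0) Δ' ((i + 1 : ℕ) * H) ≤
      W (i + 1) * wt X1 (τ0 - 1 + D0) Δ' (i * H))
    (hK : 2 * (n * H) / ((n * H) ^ 2 + n * H - 1) * (1 + Y) * ((1 + X1) / (1 + X1 * (n * H))) ≤ Kl)
    (hsum : 0 < ∑ i ∈ range n, W i * (L0 - ℓ i - (if i = n - 1 then Kl / H else 0))) : False := by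
  have ha := h.a0
  have hM0 : (0 : ℝ) < M := by exact_mod_cast hM
  have hκ1 : kap a ζ ≤ 1 := H69.kap_le_one h hM hmax
  have hpr0 : 0 ≤ pr a ζ := by
    unfold pr
    positivity
  obtain ⟨X, hX0, hXr⟩ := exists_root hκ1 hpr0
  set κ := kap a ζ with hκ
  set μ := 1 - κ with hμ
  have hμ0 : 0 ≤ μ := by linarith
  have hroot : ((1 + X) - 1) * ((1 + X) - κ) = pr a ζ := by
    rw [← hXr, hμ]; ring
  have hc1 : (1 : ℝ) ≤ 1 + X := by linarith
  set t := ‖u a ζ 0‖ with ht
  have ht1 : 1 ≤ t := hτ00.trans hτ0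
  -- X ≤ a1 (t + 1/2)
  have hXt : X ≤ a1 * (t + 1 / 2) := by
    have h1 := root_le2 h hM hκ1 hroot
    have h2 : tm a ζ ≤ 1 := by
      unfold tm
      rw [mean_tail h, div_le_one hM0]
      linarith
    have h3 : a * tm a ζ ≤ a * 1 := mul_le_mul_of_nonneg_left h2 ha.le
    have h4 : a * (t + 1 / 2) ≤ a1 * (t + 1 / 2) := mul_le_mul_of_nonneg_right ha1 (by linarith)
    rw [← hκ, ← ht] at h1
    linarith
  have ha10 : 0 ≤ a1 := ha.le.trans ha1
  have hXX1 : X ≤ X1 := by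
    refine hXt.trans (le_trans ?_ hX1)
    exact mul_le_mul_of_nonneg_left (by linarith) ha10
  -- Gam
  have hkap := kap_eq h hM
  rw [← hκ, ← ht] at hkap
  have hGam : Gam a ζ (1 + X) = t - 1 + DS a ζ - X + μ := by
    unfold Gam
    rw [← hκ, hμ]
    linarith
  -- Dall
  have hDall := Gam_ge1 h hM hroot
  rw [← hκ] at hDall
  have hDall2 : DS a ζ ≤ Dall a ζ := by
    rw [Dall_eq]
    have := h.gl 0
    linarith
  set D := Dall a ζ with hD
  set η := a * (D + 1) * Real.exp (-(Del a ζ * ((D + 1) / (D + 2)))) with hη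
  have hDel0 : 0 ≤ Del a ζ := hΔ00.trans hΔ0
  have hD0D : D0 ≤ D := hD0.trans hDall2
  have hDnn : 0 ≤ D := hD00.trans hD0D
  have hηε : η ≤ ε * (D + 1) := by
    have h1 : (D0 + 1) / (D0 + 2) ≤ (D + 1) / (D + 2) := by
      rw [div_le_div_iff₀ (by linarith) (by linarith)]
      have e : (D + 1) * (D0 + 2) - (D0 + 1) * (D + 2) = D - D0 := by ring
      linarith
    have h1' : 0 ≤ (D0 + 1) / (D0 + 2) := by positivity
    have h2 : Δ0 * ((D0 + 1) / (D0 + 2)) ≤ Del a ζ * ((D + 1) / (D + 2)) :=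
      mul_le_mul hΔ0 h1 h1' hDel0
    have h3 : Real.exp (-(Del a ζ * ((D + 1) / (D + 2)))) ≤
        Real.exp (-(Δ0 * ((D0 + 1) / (D0 + 2)))) := Real.exp_le_exp.2 (by linarith)
    have h4 : a * Real.exp (-(Del a ζ * ((D + 1) / (D + 2)))) ≤ ε :=
      (mul_le_mul ha1 h3 (Real.exp_pos _).le ha10).trans hε
    calc η = (a * Real.exp (-(Del a ζ * ((D + 1) / (D + 2))))) * (D + 1) := by rw [hη]; ring
      _ ≤ ε * (D + 1) := mul_le_mul_of_nonneg_right h4 (by linarith)
  have hη2 : η ≤ ε * (t - 1 + DS a ζ - X + 3) := by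
    refine hηε.trans (mul_le_mul_of_nonneg_left ?_ hε0)
    rw [hGam] at hDall
    linarith
  -- F0
  have hF0 := F0_int h hM hmax hc1 hroot
  set q : ℝ → ℝ := fun s => TT (1 + X) s * ∏ k : Fin M, TT ‖vt a ζ k‖ s with hq
  have hqc : Continuous q := (TT_cont _).mul (continuous_finsetProd _ fun k _ => TT_cont _)
  have hprod : ∏ k, ‖u a ζ k‖ = Real.exp (-Del a ζ) := by
    unfold Del
    rw [neg_neg, Real.exp_sum]
    exact Finset.prod_congr rfl fun k _ => (Real.exp_log (norm_pos_iff.2 (h.u_ne k))).symm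
  have hηq : a * ∏ k, ‖u a ζ k‖ ≤ η * ∫ s in (0:ℝ)..1, q s := by
    have h1 : η * (Real.exp (-Del a ζ) * (Real.exp (Del a ζ * ((D + 1) / (D + 2))) / (D + 1))) ≤
        η * ∫ s in (0:ℝ)..1, q s := by
      refine mul_le_mul_of_nonneg_left hF0 ?_
      rw [hη]
      have := Real.exp_pos (-(Del a ζ * ((D + 1) / (D + 2))))
      positivity
    refine le_trans (le_of_eq ?_) h1
    rw [hprod, hη]
    have hD1 : D + 1 ≠ 0 := by linarith
    have e1 : Real.exp (-(Del a ζ * ((D + 1) / (D + 2)))) *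
        Real.exp (Del a ζ * ((D + 1) / (D + 2))) = 1 := by
      rw [← Real.exp_add]
      simp
    generalize Real.exp (-(Del a ζ * ((D + 1) / (D + 2)))) = E1 at e1 ⊢
    generalize Real.exp (Del a ζ * ((D + 1) / (D + 2))) = E2 at e1 ⊢
    generalize Real.exp (-Del a ζ) = E3
    calc a * E3 = a * E3 * (E1 * E2) * ((D + 1) / (D + 1)) := by rw [e1, div_self hD1]; ring
      _ = _ := by ring
  -- positivity of q
  have hTpos : ∀ s : ℝ, 0 ≤ s → s < 1 → ∀ c : ℝ, 0 ≤ c → 0 < TT c s := fun s hs0 hs1 c hc => by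
    unfold TT
    have := mul_nonneg hs0 hc
    linarith
  have hqpos : ∀ s : ℝ, 0 ≤ s → s < 1 → 0 < q s := fun s hs0 hs1 =>
    mul_pos (hTpos s hs0 hs1 _ (by linarith)) (Finset.prod_pos fun k _ =>
      hTpos s hs0 hs1 _ (norm_nonneg _))
  -- antitone ratio
  set m0 := τ0 - 1 + D0 with hm0
  have hsumc : ∑ k : Fin M, (1 - ‖vt a ζ k‖) = t - 1 + DS a ζ := by
    rw [Finset.sum_sub_distrib]
    simp only [Finset.sum_const, Finset.card_univ, Fintype.card_fin, nsmul_eq_mul, mul_one]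
    have : (M : ℝ) * κ = ∑ k : Fin M, ‖vt a ζ k‖ := by
      rw [hκ]
      unfold kap; field_simp
    rw [← this, hkap]
    ring
  have hanti : ∀ s s' : ℝ, 0 ≤ s → s ≤ s' → s' < 1 →
      q s' * wt X1 m0 Δ' s ≤ q s * wt X1 m0 Δ' s' := by
    intro s s' hs hss hs'
    refine q_anti (fun k : Fin M => ‖vt a ζ k‖) (fun k => norm_nonneg _) hX0 hXX1
      (δ := DS a ζ - D0) (by linarith) ?_ ?_ hs hss hs'
    · rw [hsumc, hm0]
      linarith
    · rcases hΔ' with h0 | h0
      · rw [h0]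
        have : 0 ≤ ∑ k : Fin M, gg1 (max ‖vt a ζ k‖ (1 / 2)) := Finset.sum_nonneg fun k _ =>
          gg1_nonneg (lt_of_lt_of_le (by norm_num) (le_max_right _ _))
        linarith
      · have h1 := sum_tail_g h
        have h2 : gg1 t ≤ gg1 τ1 := by
          unfold gg1
          have h3 : Real.log τ1 - Real.log t ≤ τ1 - t := by
            rw [← Real.log_div (by linarith) (by linarith)]
            have h4 := Real.log_le_sub_one_of_pos (show 0 < τ1 / t from div_pos (by linarith) (by linarith))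
            have h5 : τ1 / t - 1 ≤ τ1 - t := by
              rw [div_sub_one (by linarith), div_le_iff₀ (by linarith)]
              exact le_mul_of_one_le_right (sub_nonneg.2 hτ1) ht1
            linarith
          linarith
        rw [← ht] at h1
        linarith
  -- the cells
  set p : ℕ → ℝ := fun i => ∫ s in (i * H)..((i + 1 : ℕ) * H), q s with hp
  have hX10 : 0 ≤ X1 := hX0.trans hXX1
  have hcell : ∀ i : ℕ, i < n → ((i + 1 : ℕ) : ℝ) * H ≤ n * H := fun i hi => by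
    refine mul_le_mul_of_nonneg_right ?_ hH.le
    exact_mod_cast hi
  have hcell0 : ∀ i : ℕ, (i : ℝ) * H ≤ ((i + 1 : ℕ) : ℝ) * H := fun i => by
    refine mul_le_mul_of_nonneg_right ?_ hH.le
    push_cast
    linarith
  have hppos : ∀ i, i < n → 0 < p i := by
    intro i hi
    have hi0 : 0 ≤ (i : ℝ) * H := by positivity
    refine intervalIntegral.intervalIntegral_pos_of_pos_on (hqc.intervalIntegrable _ _) ?_ ?_
    · intro s hs
      exact hqpos s (hi0.trans hs.1.le) (lt_of_lt_of_le hs.2 ((hcell i hi).trans hnH.le))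
    · push_cast
      have e : ((i : ℝ) + 1) * H = i * H + H := by ring
      rw [e]
      exact lt_add_of_pos_right _ hH
  have hratio : ∀ i, i + 1 < n → p (i + 1) * W i ≤ p i * W (i + 1) := by
    intro i hi
    have h1 := cell_ratio (i := i) (n := n) hqc hX10 hΔ'0 hH.le (by omega) hnH
      (fun s hs0 hs1 => (hqpos s hs0 hs1).le) hanti
    have h2 := hW i hi
    have hi0 : 0 ≤ (i : ℝ) * H := by positivity
    have hi1 : 0 ≤ ((i + 1 : ℕ) : ℝ) * H := by positivity
    have hw0 := wt_pos (m := m0) (D := Δ') hX10 hi0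
    have hw1 := wt_pos (m := m0) (D := Δ') hX10 hi1
    have hp0 := (hppos i (by omega)).le
    have hWi := (hW0 i (by omega)).le
    refine le_of_mul_le_mul_right ?_ hw0
    calc p (i + 1) * W i * wt X1 m0 Δ' (i * H)
        = (p (i + 1) * wt X1 m0 Δ' (i * H)) * W i := by ring
      _ ≤ (p i * wt X1 m0 Δ' ((i + 1 : ℕ) * H)) * W i := mul_le_mul_of_nonneg_right h1 hWi
      _ = p i * (W i * wt X1 m0 Δ' ((i + 1 : ℕ) * H)) := by ring
      _ ≤ p i * (W (i + 1) * wt X1 m0 Δ' (i * H)) := mul_le_mul_of_nonneg_left h2 hp0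
      _ = _ := by ring
  -- Chebyshev
  set L : ℕ → ℝ := fun i => L0 - ℓ i - (if i = n - 1 then Kl / H else 0) with hL
  have hs10 : 0 < (n : ℝ) * H := by
    have : (0 : ℝ) < n := by exact_mod_cast hn
    positivity
  have hKl0 : 0 ≤ Kl := by
    refine le_trans ?_ hK
    have : 0 ≤ X1 * (n * H) := mul_nonneg hX10 hs10.le
    have h3 : 0 < 1 + X1 * (n * H) := by linarith
    positivity
  have hLm : ∀ i, i + 1 < n → L (i + 1) ≤ L i := by
    intro i hi
    have h1 := hℓm i hi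
    simp only [hL]
    rw [if_neg (by omega : ¬ i = n - 1)]
    split_ifs with h2
    · have : 0 ≤ Kl / H := div_nonneg hKl0 hH.le
      linarith
    · linarith
  have hcheb : 0 < ∑ i ∈ range n, p i * L i := cheb_disc hn hppos hW0 hratio hLm hsum
  -- L 0 > 0, hence Gam - η > 0
  have hLanti : ∀ i, i < n → L i ≤ L 0 := by
    intro i
    induction i with
    | zero => intro _; exact le_rfl
    | succ i ih => intro hi; exact (hLm i hi).trans (ih (by omega))
  have hL0pos : 0 < L 0 := by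
    by_contra hcon
    push Not at hcon
    have : ∑ i ∈ range n, p i * L i ≤ 0 := Finset.sum_nonpos fun i hi => by
      have hi' := Finset.mem_range.1 hi
      exact mul_nonpos_of_nonneg_of_nonpos (hppos i hi').le ((hLanti i hi').trans hcon)
    linarith
  -- pointwise
  have hpoint : ∀ i, i < n → ∀ s, (i : ℝ) * H ≤ s → s ≤ ((i + 1 : ℕ) : ℝ) * H →
      L0 - ℓ i ≤ Gam a ζ (1 + X) - η - lX Y X μ s := by
    intro i hi s hs1 hs2
    obtain ⟨B, A, hB, hA, hBA⟩ := hℓ i hi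
    exact point hX0 hXt ha11 ha10 hτ0 (by linarith) hXg0 hXg hGam hμ0 hη2 hD0 hε0 hε1 hg0 hL0
      (by positivity) hs1 hs2 (lt_of_le_of_lt (hcell i hi) hnH) hY0 hB hA hBA
  have hGη : 0 ≤ Gam a ζ (1 + X) - η := by
    have h1 := hpoint 0 hn ((0 : ℕ) * H) le_rfl (by
      push_cast
      rw [zero_mul]
      exact mul_nonneg (by norm_num) hH.le)
    have h2 : 0 ≤ lX Y X μ ((0 : ℕ) * H) := lX_nonneg hY0 (by simp) (by simp)
    have h3 : L 0 ≤ L0 - ℓ 0 := by
      simp only [hL]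
      split_ifs
      · have : 0 ≤ Kl / H := div_nonneg hKl0 hH.le
        linarith
      · linarith
    linarith
  -- phase step
  have hlc := lX_contOn (μ := μ) hY0 hX0 hnH
  have hli : ∀ x y : ℝ, 0 ≤ x → x ≤ y → y ≤ n * H →
      IntervalIntegrable (fun s => q s * lX Y X μ s) MeasureTheory.volume x y := by
    intro x y hx hxy hy
    refine ContinuousOn.intervalIntegrable_of_Icc hxy ?_
    exact hqc.continuousOn.mul (hlc.mono (Set.Icc_subset_Icc hx hy))
  have hphase := H69.frame_phase2 h hM hmax (c0 := 1 + X) (τ := Y) (s1 := n * H) hc1 hroot hY0 hY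
    hs10 hnH hw (lX Y X μ) (hli 0 (n * H) le_rfl hs10.le le_rfl) (fun s hs => by
      left
      have hs0 := hs.1
      have hs1 : s < 1 := lt_of_le_of_lt hs.2 hnH
      have h1 := mul_nonneg hs0.le hY0
      have hB0 : 0 < (1 + s * Y) / (1 - s) := div_pos (by linarith) (by linarith)
      refine ⟨(1 + s * Y) / (1 - s), hB0, ?_, ?_⟩
      · have hκ0 : 0 ≤ κ := kap_nonneg a ζ
        have hT : 0 < TT κ s := hTpos s hs0.le hs1 κ hκ0
        rw [div_le_div_iff₀ (mul_pos hT (by linarith)) (by linarith)]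
        have h2 : κ ≤ TT κ s := by
          unfold TT
          have h6 := mul_nonneg (sub_nonneg.2 hs1.le) (sub_nonneg.2 hκ1)
          have e : (1 - s) * (1 - κ) = 1 - κ - s + s * κ := by ring
          rw [e] at h6
          linarith only [h6]
        have h3 : κ * ((1 + s * Y) * (1 - s)) ≤ TT κ s * ((1 + s * Y) * (1 - s)) :=
          mul_le_mul_of_nonneg_right h2 (mul_nonneg (by linarith) (by linarith))
        linarith
      · unfold lX
        rw [← hXr]
        have e : ∀ B y : ℝ, 0 < B → y = 4 * B * (y / (4 * B)) := fun B y hB => by field_simp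
        exact (e _ _ hB0).le)
  -- splitting
  have hsplit : ∫ s in (0:ℝ)..1, q s = (∑ i ∈ range n, p i) + ∫ s in (n * H)..1, q s := by
    have h1 := intervalIntegral.sum_integral_adjacent_intervals (f := q) (a := fun i : ℕ => (i : ℝ) * H)
      (μ := MeasureTheory.volume) (n := n) (fun k _ => hqc.intervalIntegrable _ _)
    simp only [Nat.cast_zero, zero_mul] at h1
    have h2 := intervalIntegral.integral_add_adjacent_intervals
      (hqc.intervalIntegrable (μ := MeasureTheory.volume) 0 (n * H))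
      (hqc.intervalIntegrable (μ := MeasureTheory.volume) (n * H) 1)
    rw [← h2, ← h1]
  have hsplit2 : ∫ s in (0:ℝ)..(n * H), q s * lX Y X μ s =
      ∑ i ∈ range n, ∫ s in (i * H)..((i + 1 : ℕ) * H), q s * lX Y X μ s := by
    have h1 := intervalIntegral.sum_integral_adjacent_intervals (f := fun s => q s * lX Y X μ s)
      (a := fun i : ℕ => (i : ℝ) * H) (μ := MeasureTheory.volume) (n := n)
      (fun k hk => hli _ _ (by positivity) (hcell0 k) (hcell k hk))
    simp only [Nat.cast_zero, zero_mul] at h1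
    rw [← h1]
  -- cellwise inequality
  have hcellineq : ∀ i, i < n → p i * (L0 - ℓ i) ≤ (Gam a ζ (1 + X) - η) * p i -
      ∫ s in (i * H)..((i + 1 : ℕ) * H), q s * lX Y X μ s := by
    intro i hi
    have e1 : p i * (L0 - ℓ i) = ∫ s in (i * H)..((i + 1 : ℕ) * H), q s * (L0 - ℓ i) := by
      rw [intervalIntegral.integral_mul_const]
    have e2 : (Gam a ζ (1 + X) - η) * p i -
        ∫ s in (i * H)..((i + 1 : ℕ) * H), q s * lX Y X μ s =
        ∫ s in (i * H)..((i + 1 : ℕ) * H), ((Gam a ζ (1 + X) - η) * q s - q s * lX Y X μ s) := by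
      rw [intervalIntegral.integral_sub ((hqc.intervalIntegrable _ _).const_mul _)
        (hli _ _ (by positivity) (hcell0 i) (hcell i hi)), intervalIntegral.integral_const_mul]
    rw [e1, e2]
    refine intervalIntegral.integral_mono_on (hcell0 i) ?_ ?_ ?_
    · exact (hqc.intervalIntegrable _ _).mul_const _
    · exact ((hqc.intervalIntegrable _ _).const_mul _).sub
        (hli _ _ (by positivity) (hcell0 i) (hcell i hi))
    · intro s hs
      have h1 := hpoint i hi s hs.1 hs.2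
      have hs0 : 0 ≤ s := le_trans (by positivity) hs.1
      have h2 := (hqpos s hs0 (lt_of_le_of_lt (hs.2.trans (hcell i hi)) hnH)).le
      have := mul_le_mul_of_nonneg_left h1 h2
      linarith
  have hcellsum := Finset.sum_le_sum fun i (hi : i ∈ range n) => hcellineq i (Finset.mem_range.1 hi)
  rw [Finset.sum_sub_distrib, ← Finset.mul_sum, ← hsplit2] at hcellsum
  -- late term
  have hlate : 2 * (n * H) / ((n * H) ^ 2 + n * H - 1) * ((1 + Y) * (1 + X)) *
      ∏ k, TT ‖vt a ζ k‖ (n * H) ≤ Kl / H * p (n - 1) := by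
    have h1 := cell_last (s0 := ((n - 1 : ℕ) : ℝ) * H) (s1 := n * H) hqc hX10 hX1m hΔ'0
      (by positivity) (by
        refine mul_le_mul_of_nonneg_right ?_ hH.le
        exact_mod_cast Nat.sub_le n 1) hnH (fun s hs0 hs1 => (hqpos s hs0 hs1).le) hanti
    have e1 : (n : ℝ) * H - ((n - 1 : ℕ) : ℝ) * H = H := by
      rw [Nat.cast_sub hn]
      push_cast
      ring
    have e2 : p (n - 1) = ∫ s in (((n - 1 : ℕ) : ℝ) * H)..(n * H), q s := by
      simp only [hp]
      congr 2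
      rw [Nat.sub_add_cancel hn]
    rw [e1, ← e2] at h1
    have hXs : 0 ≤ X * (n * H) := mul_nonneg hX0 hs10.le
    have hX1s : 0 ≤ X1 * (n * H) := mul_nonneg hX10 hs10.le
    have hTT : TT (1 + X) (n * H) = 1 + X * (n * H) := by unfold TT; ring
    have hP0 : 0 ≤ ∏ k, TT ‖vt a ζ k‖ (n * H) :=
      Finset.prod_nonneg fun k _ => (hTpos _ hs10.le hnH _ (norm_nonneg _)).le
    have hqn : q (n * H) = (1 + X * (n * H)) * ∏ k, TT ‖vt a ζ k‖ (n * H) := by
      simp only [hq]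
      rw [hTT]
    have h2 : (1 + X) / (1 + X * (n * H)) ≤ (1 + X1) / (1 + X1 * (n * H)) := by
      rw [div_le_div_iff₀ (by linarith) (by linarith)]
      have h6 := mul_nonneg (sub_nonneg.2 hXX1) (sub_nonneg.2 hnH.le)
      have e : (1 + X1) * (1 + X * (n * H)) - (1 + X) * (1 + X1 * (n * H)) =
          (X1 - X) * (1 - n * H) := by ring
      linarith only [h6, e]
    have hc0 : 0 ≤ 2 * (n * H) / ((n * H) ^ 2 + n * H - 1) * (1 + Y) := by positivity
    have h3 : 2 * (n * H) / ((n * H) ^ 2 + n * H - 1) * (1 + Y) * ((1 + X) / (1 + X * (n * H))) ≤ Kl :=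
      (mul_le_mul_of_nonneg_left h2 hc0).trans hK
    have hq0 : 0 ≤ q (n * H) := (hqpos _ hs10.le hnH).le
    have e3 : 2 * (n * H) / ((n * H) ^ 2 + n * H - 1) * ((1 + Y) * (1 + X)) *
        ∏ k, TT ‖vt a ζ k‖ (n * H) =
        (2 * (n * H) / ((n * H) ^ 2 + n * H - 1) * (1 + Y) * ((1 + X) / (1 + X * (n * H)))) *
          q (n * H) := by
      rw [hqn]
      have hne : 1 + X * (n * H) ≠ 0 := by linarith
      field_simp
    rw [e3]
    calc _ ≤ Kl * q (n * H) := mul_le_mul_of_nonneg_right h3 hq0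
      _ = Kl / H * (H * q (n * H)) := by field_simp
      _ ≤ Kl / H * p (n - 1) := mul_le_mul_of_nonneg_left h1 (div_nonneg hKl0 hH.le)
  -- the rest `[s1, 1]`
  have hrest : 0 ≤ (Gam a ζ (1 + X) - η) * ∫ s in (n * H)..1, q s := by
    refine mul_nonneg hGη (intervalIntegral.integral_nonneg hnH.le fun s hs => ?_)
    rcases eq_or_lt_of_le hs.2 with h1 | h1
    · simp only [hq]
      refine mul_nonneg ?_ (Finset.prod_nonneg fun k _ => ?_)
      · unfold TT; rw [h1]; linarith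
      · unfold TT; rw [h1]; simp
    · exact (hqpos s (hs10.le.trans hs.1) h1).le
  -- the sum with the late term
  have hsumL : ∑ i ∈ range n, p i * L i =
      (∑ i ∈ range n, p i * (L0 - ℓ i)) - Kl / H * p (n - 1) := by
    have e1 : ∀ i ∈ range n, p i * L i = p i * (L0 - ℓ i) - (if i = n - 1 then Kl / H * p i else 0) := by
      intro i _
      simp only [hL]
      split_ifs <;> ring
    rw [Finset.sum_congr rfl e1, Finset.sum_sub_distrib, Finset.sum_ite_eq',
      if_pos (Finset.mem_range.2 (by omega))]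
  rw [hsumL] at hcheb
  have hGam2 : (M + 1) * (1 - κ) - ((1 + X) - 1) = Gam a ζ (1 + X) := rfl
  rw [← hκ, hGam2] at hphase
  have e5 : ∀ s, TT (1 + X) s * ∏ k : Fin M, TT ‖vt a ζ k‖ s = q s := fun s => rfl
  simp only [e5] at hphase
  rw [hsplit] at hphase hηq
  rw [mul_add] at hphase hηq
  rw [sub_mul] at hcellsum hrest
  linarith

end Pool.Agent.Lib.MP_172a45_an.H5
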