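import Pool.Agent.Lib.MP_172a45_an.H5.Core

set_option autoImplicit false

/-!
# The pointwise inequality and the core theorem
-/

namespace Pool.Agent.Lib.MP_172a45_an.H5

open Finset
open Pool.Agent.Lib.MP_172a45_an.F
open Pool.Agent.Lib.MP_172a45_an.F.Fr
open Pool.Agent.Lib.MP_172a45_an.L

/-- `s X²/(1 + X s)` -/
noncomputable def AX (X s : ℝ) : ℝ := s * X ^ 2 / (1 + X * s)

theorem AX_eq {X s : ℝ} (hX : 0 ≤ X) (hs : 0 ≤ s) : AX X s = X - X / (1 + X * s) := by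
  unfold AX
  have := mul_nonneg hX hs
  have h1 : 1 + X * s ≠ 0 := by linarith
  field_simp
  ring

theorem AX_nonneg {X s : ℝ} (hX : 0 ≤ X) (hs : 0 ≤ s) : 0 ≤ AX X s := by
  unfold AX
  have := mul_nonneg hX hs
  positivity

theorem AX_mono {X X' s s' : ℝ} (hX : 0 ≤ X) (hXX : X ≤ X') (hs : 0 ≤ s) (hss : s ≤ s') :
    AX X s ≤ AX X' s' := by
  have hX' := hX.trans hXX
  have hs' := hs.trans hss
  have e : ∀ {X s : ℝ}, 0 ≤ X → 0 ≤ s → AX X s = X * (1 - 1 / (1 + X * s)) := by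
    intro X s hX hs
    rw [AX_eq hX hs]
    ring
  rw [e hX hs, e hX' hs']
  have h1 := mul_nonneg hX hs
  have h2 : X * s ≤ X' * s' := mul_le_mul hXX hss hs hX'
  have h3 : 1 / (1 + X' * s') ≤ 1 / (1 + X * s) :=
    one_div_le_one_div_of_le (by linarith) (by linarith)
  have h4 : 1 / (1 + X * s) ≤ 1 := by
    rw [div_le_one (by linarith)]
    linarith
  exact mul_le_mul hXX (by linarith) (by linarith) hX'

theorem point {t X μ DSv D0 a1 τ0 ε g0 Xg Y s si sj Bi Ai ℓi η Gam L0 : ℝ}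
    (hX : 0 ≤ X) (hXt : X ≤ a1 * (t + 1 / 2)) (ha1 : a1 ≤ 1) (ha10 : 0 ≤ a1) (ht : τ0 ≤ t)
    (hτ0 : 0 ≤ τ0) (hXg0 : 0 ≤ Xg) (hXg : Xg ≤ a1 * (τ0 + 1 / 2)) (hG : Gam = t - 1 + DSv - X + μ)
    (hμ : 0 ≤ μ) (hη : η ≤ ε * (t - 1 + DSv - X + 3)) (hD : D0 ≤ DSv) (hε0 : 0 ≤ ε) (hε1 : ε < 1)
    (hg0 : g0 ≤ τ0 - 1 + D0 - a1 * (τ0 + 1 / 2)) (hL0 : L0 ≤ (1 - ε) * g0 - 3 * ε)
    (hsi : 0 ≤ si) (hs : si ≤ s) (hsj : s ≤ sj) (hsj1 : sj < 1) (hY : 0 ≤ Y)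
    (hBi : (1 + sj * Y) / (1 - sj) ≤ Bi) (hAi : Ai ≤ (1 - ε) * AX Xg si)
    (hℓi : (max (2 * Bi - Ai) 0) ^ 2 ≤ 4 * Bi * ℓi) :
    L0 - ℓi ≤ Gam - η - (max (2 * ((1 + s * Y) / (1 - s)) - s * (X * (X + μ)) / TT (1 + X) s) 0) ^ 2 /
      (4 * ((1 + s * Y) / (1 - s))) := by
  have hs0 : 0 ≤ s := hsi.trans hs
  have hs1 : s < 1 := lt_of_le_of_lt hsj hsj1
  set B := (1 + s * Y) / (1 - s) with hBd
  have hB0 : 0 < B := by
    have := mul_nonneg hs0 hY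
    exact div_pos (by linarith) (by linarith)
  have hBB : B ≤ Bi := by
    refine le_trans ?_ hBi
    rw [hBd, div_le_div_iff₀ (by linarith) (by linarith)]
    have h1 := mul_nonneg (sub_nonneg.2 hsj) hY
    linarith only [h1, hsj]
  have hTT : TT (1 + X) s = 1 + X * s := by unfold TT; ring
  have hXs := mul_nonneg hX hs0
  have hA0 : 0 ≤ s * (X * (X + μ)) / TT (1 + X) s := by
    rw [hTT]
    positivity
  obtain ⟨R, hR0, hR1, hR⟩ := loss_opt hB0 hA0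
  rw [hR]
  have hAX : AX X s ≤ s * (X * (X + μ)) / TT (1 + X) s := by
    unfold AX
    rw [hTT]
    refine div_le_div_of_nonneg_right ?_ (by linarith)
    have := mul_nonneg hs0 (mul_nonneg hX hμ)
    linarith only [this]
  set X' := a1 * (t + 1 / 2) with hX'
  set Xs := a1 * (τ0 + 1 / 2) with hXs'
  have hXs0 : 0 ≤ Xs := by positivity
  have hXsX' : Xs ≤ X' := mul_le_mul_of_nonneg_left (by linarith) ha10
  have h1 := fX_mono hR0 hR1 hs0 hX hXt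
  have h2 := fX_lip hR0 hR1 hs0 hXs0 hXsX'
  have h3 : X' - Xs ≤ t - τ0 := by
    rw [hX', hXs']
    have := mul_le_mul_of_nonneg_right ha1 (sub_nonneg.2 ht)
    linarith only [this]
  have e1 := AX_eq hX hs0
  have e2 := AX_eq hXs0 hs0
  -- t - X + (1-R) A_X ≥ τ0 - Xs + (1-R) A_Xs
  have h4 : τ0 - Xs + (1 - R) * AX Xs s ≤ t - X + (1 - R) * AX X s := by
    rw [e1, e2]
    linarith only [h1, h2, h3]
  have h5 : AX Xg si ≤ AX Xs s := AX_mono hXg0 hXg hsi hs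
  have h6 : Ai ≤ (1 - ε) * AX Xs s :=
    hAi.trans (mul_le_mul_of_nonneg_left h5 (by linarith))
  have h7 := H69.quad_le (A := Ai) (R := R) (lt_of_lt_of_le hB0 hBB) hR1
  have hBi0 : 0 < Bi := lt_of_lt_of_le hB0 hBB
  have h8 : (max (2 * Bi - Ai) 0) ^ 2 / (4 * Bi) ≤ ℓi := by
    rw [div_le_iff₀ (by positivity)]
    linarith
  have h9 := AX_nonneg hX hs0
  have hR' : 0 ≤ 1 - R := by linarith
  -- assemble
  have k1 : (1 - R) * (B * (1 + R) - s * (X * (X + μ)) / TT (1 + X) s) ≤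
      (1 - R) * (B * (1 + R) - AX X s) := mul_le_mul_of_nonneg_left (by linarith) hR'
  have k2 : (1 - R) * (B * (1 + R)) ≤ (1 - R) * (Bi * (1 + R)) := by
    refine mul_le_mul_of_nonneg_left ?_ hR'
    exact mul_le_mul_of_nonneg_right hBB (by linarith)
  have k3 : (1 - R) * Ai ≤ (1 - R) * ((1 - ε) * AX Xs s) := mul_le_mul_of_nonneg_left h6 hR'
  have k4 : (1 - ε) * (τ0 - Xs + (1 - R) * AX Xs s) ≤ (1 - ε) * (t - X + (1 - R) * AX X s) :=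
    mul_le_mul_of_nonneg_left h4 (by linarith)
  have k5 : (1 - ε) * g0 ≤ (1 - ε) * (τ0 - 1 + D0 - Xs) := mul_le_mul_of_nonneg_left hg0 (by linarith)
  have k6 : (1 - ε) * D0 ≤ (1 - ε) * DSv := mul_le_mul_of_nonneg_left hD (by linarith)
  have k7 : 0 ≤ ε * ((1 - R) * AX X s) := mul_nonneg hε0 (mul_nonneg hR' h9)
  have k8 : 0 ≤ (1 - ε) * ((1 - R) * AX Xs s) :=
    mul_nonneg (by linarith) (mul_nonneg hR' (AX_nonneg hXs0 hs0))
  rw [hG]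
  linarith only [k1, k2, k3, k4, k5, k6, k7, k8, h7, h8, hη, hL0, hμ, hε0, hε1]

end Pool.Agent.Lib.MP_172a45_an.H5
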