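import Pool.Agent.Lib.MP_172a45_an.H5.Chk

set_option autoImplicit false

/-!
# Soundness of the box checker: arithmetic
-/

namespace Pool.Agent.Lib.MP_172a45_an.H5

theorem div_le_r (p q : ℕ) : ((p / q : ℕ) : ℝ) ≤ (p : ℝ) / q := Nat.cast_div_le

theorem le_div_r (p : ℕ) {q : ℕ} (hq : 0 < q) : (p : ℝ) / q ≤ ((p / q : ℕ) : ℝ) + 1 := by
  have h := Nat.lt_div_mul_add (a := p) hq
  have h1 : ((p : ℕ) : ℝ) < ((p / q * q + q : ℕ) : ℝ) := by exact_mod_cast h
  push_cast at h1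
  have hq' : (0 : ℝ) < q := by exact_mod_cast hq
  rw [div_le_iff₀ hq']
  nlinarith

theorem sub_ge_r (p q : ℕ) : (p : ℝ) - q ≤ ((p - q : ℕ) : ℝ) := by
  rcases le_total q p with h | h
  · rw [Nat.cast_sub h]
  · have h1 : (p : ℝ) ≤ q := by exact_mod_cast h
    have h2 : (0 : ℝ) ≤ ((p - q : ℕ) : ℝ) := Nat.cast_nonneg _
    linarith

theorem sub_le_r {p q : ℕ} {v : ℝ} (h : (p : ℝ) - q ≤ v) (h0 : 0 ≤ v) : ((p - q : ℕ) : ℝ) ≤ v := by
  rcases le_total q p with h' | h'
  · rw [Nat.cast_sub h']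
    exact h
  · rw [Nat.sub_eq_zero_of_le h']
    simpa using h0

theorem mu_ge {a b : ℕ} {x y : ℝ} (hx : x ≤ (a : ℝ) / 16777216) (hy : y ≤ (b : ℝ) / 16777216)
    (_hx0 : 0 ≤ x) (hy0 : 0 ≤ y) : x * y ≤ (mu a b : ℝ) / 16777216 := by
  have h1 := le_div_r (a * b) (q := 16777216) (by norm_num)
  have h2 : x * y ≤ (a : ℝ) / 16777216 * ((b : ℝ) / 16777216) :=
    mul_le_mul hx hy hy0 (by positivity)
  unfold mu
  push_cast at h1 ⊢
  refine h2.trans ?_
  rw [le_div_iff₀ (by norm_num)]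
  refine le_trans (le_of_eq ?_) h1
  field_simp

theorem mu_ge' (a b : ℕ) : (a : ℝ) / 16777216 * ((b : ℝ) / 16777216) ≤ (mu a b : ℝ) / 16777216 :=
  mu_ge le_rfl le_rfl (by positivity) (by positivity)

theorem md_le {a b : ℕ} {x y : ℝ} (hx : (a : ℝ) / 16777216 ≤ x) (hy : (b : ℝ) / 16777216 ≤ y) :
    (md a b : ℝ) / 16777216 ≤ x * y := by
  have h1 := div_le_r (a * b) 16777216
  have hx0 : 0 ≤ x := le_trans (by positivity) hx
  have h2 : (a : ℝ) / 16777216 * ((b : ℝ) / 16777216) ≤ x * y :=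
    mul_le_mul hx hy (by positivity) hx0
  refine le_trans ?_ h2
  unfold md
  rw [div_le_iff₀ (by norm_num)]
  refine h1.trans (le_of_eq ?_)
  push_cast
  field_simp

theorem mx_eq (a b : ℕ) : mx a b = max a b := by
  unfold mx
  omega

theorem ex_ge {v : ℕ} {x : ℝ} (hx : (v : ℝ) / 16777216 ≤ x) :
    Real.exp (-x) ≤ (ex v : ℝ) / 16777216 := by
  set w : ℝ := (v : ℝ) / 16777216 with hw
  have hw0 : 0 ≤ w := by positivity
  have h1 : Real.exp (-x) ≤ Real.exp (-w) := Real.exp_le_exp.2 (by linarith)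
  have h2 : Real.exp (-w) ≤ 1 - w + w ^ 2 / 2 := by
    have h3 : 1 + w + w ^ 2 / 2 ≤ Real.exp w := Real.quadratic_le_exp_of_nonneg hw0
    rw [Real.exp_neg, inv_le_comm₀ (Real.exp_pos _) (by nlinarith [sq_nonneg (w - 1)])]
    refine le_trans ?_ h3
    rw [inv_le_iff_one_le_mul₀ (by nlinarith [sq_nonneg (w - 1)])]
    nlinarith [sq_nonneg (w ^ 2), sq_nonneg w, pow_nonneg hw0 3]
  refine h1.trans (h2.trans ?_)
  have h3 := mu_ge' v v
  rw [← hw] at h3
  have h4 := le_div_r (mu v v) (q := 2) (by norm_num)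
  have h5 := sub_ge_r 16777216 v
  have e1 : (v : ℝ) = w * 16777216 := by rw [hw]; field_simp
  rw [le_div_iff₀ (by norm_num)]
  unfold ex
  push_cast at h4 h5 ⊢
  rw [le_div_iff₀ (by norm_num)] at h3
  rw [div_le_iff₀ (by norm_num)] at h4
  nlinarith

theorem sq_ge {v : ℕ} {x : ℝ} (hx0 : 0 ≤ x) (hx : x ≤ (v : ℝ) / 16777216) :
    x ^ 2 ≤ (sq v : ℝ) / 16777216 := by
  rw [pow_two]
  exact mu_ge hx hx hx0 hx0

/-- the sixteenth power -/
theorem ex16 {y : ℕ} {x : ℝ} (hx : (y : ℝ) / 16777216 ≤ x) :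
    Real.exp (-x) ≤ (sq (sq (sq (sq (ex (y / 16))))) : ℝ) / 16777216 := by
  have h1 : ((y / 16 : ℕ) : ℝ) / 16777216 ≤ x / 16 := by
    have := div_le_r y 16
    push_cast at this
    linarith
  have h2 := ex_ge h1
  have h3 := sq_ge (Real.exp_pos _).le h2
  have h4 := sq_ge (by positivity) h3
  have h5 := sq_ge (by positivity) h4
  have h6 := sq_ge (by positivity) h5
  refine le_trans (le_of_eq ?_) h6
  rw [← pow_mul, ← pow_mul, ← pow_mul, ← Real.exp_nat_mul]
  congr 1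
  push_cast
  ring

/-! ### Logarithms -/

theorem log_ge_series {z : ℝ} (hz0 : 0 ≤ z) (hz1 : z < 1) :
    2 * (z + z ^ 3 / 3 + z ^ 5 / 5) ≤ Real.log ((1 + z) / (1 - z)) := by
  have h1 := Real.hasSum_log_sub_log_of_abs_lt_one (x := z) (by rw [abs_of_nonneg hz0]; exact hz1)
  have h2 := h1.summable.sum_le_tsum (Finset.range 3) (fun i _ => by positivity)
  rw [h1.tsum_eq] at h2
  rw [Real.log_div (by linarith) (by linarith)]
  refine le_trans (le_of_eq ?_) h2
  simp only [Finset.sum_range_succ, Finset.sum_range_zero]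
  push_cast
  ring

theorem loglo_true {E : ℕ} (hb : Nat.ble 16777216 E = true) :
    loglo E = lgm (Nat.log2 E - 24) (E / 2 ^ (Nat.log2 E - 24)) := by
  unfold loglo
  rw [hb, cond_true]

theorem loglo_false {E : ℕ} (hb : Nat.ble 16777216 E = false) : loglo E = 0 := by
  unfold loglo
  rw [hb, cond_false]

theorem loglo_le (E : ℕ) : 0 < loglo E → 16777216 ≤ E ∧
    (loglo E : ℝ) / 16777216 ≤ Real.log ((E : ℝ) / 16777216) := by
  intro h0
  have hb : Nat.ble 16777216 E = true := by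
    cases hb : Nat.ble 16777216 E with
    | true => rfl
    | false =>
      rw [loglo_false hb] at h0
      exact absurd h0 (lt_irrefl 0)
  have hE : 16777216 ≤ E := Nat.le_of_ble_eq_true hb
  refine ⟨hE, ?_⟩
  have e' := loglo_true hb
  unfold lgm lgz at e'
  set j := Nat.log2 E - 24 with hj
  set m := E / 2 ^ j with hm
  set z := (m - 16777216) * 16777216 / (m + 16777216) with hz
  have hE0 : E ≠ 0 := by omega
  have hlog : 24 ≤ Nat.log2 E := by
    rw [Nat.le_log2 hE0]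
    omega
  have hm1 : 16777216 ≤ m := by
    have h1 := Nat.log2_self_le hE0
    rw [hm, Nat.le_div_iff_mul_le (by positivity)]
    have : 2 ^ Nat.log2 E = 16777216 * 2 ^ j := by
      have : Nat.log2 E = 24 + j := by omega
      rw [this, pow_add]
      norm_num
    omega
  have hmE : (m : ℝ) * 2 ^ j ≤ E := by
    have h1 : m * 2 ^ j ≤ E := Nat.div_mul_le_self _ _
    exact_mod_cast h1
  have e : loglo E = j * 11629079 + 2 * (z + md (md z z) z / 3 + md (md (md z z) z) (md z z) / 5) :=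
    e'
  have hmr : (16777216 : ℝ) ≤ m := by exact_mod_cast hm1
  -- the value of z
  set zr : ℝ := ((m : ℝ) - 16777216) / (m + 16777216) with hzr
  have hzr0 : 0 ≤ zr := div_nonneg (by linarith) (by linarith)
  have hzr1 : zr < 1 := by
    rw [hzr, div_lt_one (by linarith)]
    linarith
  have hz1 : (z : ℝ) / 16777216 ≤ zr := by
    have h1 := div_le_r ((m - 16777216) * 16777216) (m + 16777216)
    rw [← hz] at h1
    rw [div_le_iff₀ (by norm_num)]
    refine h1.trans (le_of_eq ?_)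
    rw [hzr]
    push_cast [Nat.cast_sub hm1]
    ring
  have hz2 : (md z z : ℝ) / 16777216 ≤ zr * zr := md_le hz1 hz1
  have hz3 : (md (md z z) z : ℝ) / 16777216 ≤ zr * zr * zr := md_le hz2 hz1
  have hz5 : (md (md (md z z) z) (md z z) : ℝ) / 16777216 ≤ zr * zr * zr * (zr * zr) := md_le hz3 hz2
  have hs := log_ge_series hzr0 hzr1
  have hratio : (1 + zr) / (1 - zr) = (m : ℝ) / 16777216 := by
    rw [hzr]
    have : (m : ℝ) + 16777216 ≠ 0 := by linarith
    rw [div_eq_div_iff (by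
      rw [sub_ne_zero]
      exact hzr1.ne') (by norm_num)]
    field_simp
    ring
  rw [hratio] at hs
  have hlog2 := Real.log_two_gt_d9
  have hlE : Real.log ((m : ℝ) / 16777216) + j * Real.log 2 ≤ Real.log ((E : ℝ) / 16777216) := by
    have hm0 : (0 : ℝ) < (m : ℝ) / 16777216 := div_pos (by linarith) (by norm_num)
    have h2j : (0 : ℝ) < 2 ^ j := pow_pos (by norm_num) j
    rw [← Real.log_pow, ← Real.log_mul hm0.ne' h2j.ne']
    refine Real.log_le_log (mul_pos hm0 h2j) ?_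
    rw [div_mul_eq_mul_div]
    exact div_le_div_of_nonneg_right hmE (by norm_num)
  have hj0 : (0 : ℝ) ≤ (j : ℝ) := Nat.cast_nonneg _
  rw [e]
  clear e
  generalize md (md (md z z) z) (md z z) = z5 at hz5 ⊢
  generalize md (md z z) z = z3 at hz3 ⊢
  have h3 := div_le_r z3 3
  have h5 := div_le_r z5 5
  push_cast at h3 h5 ⊢
  have hjl : (j : ℝ) * 11629079 / 16777216 ≤ j * Real.log 2 := by
    rw [mul_div_assoc]
    refine mul_le_mul_of_nonneg_left ?_ hj0
    linarith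
  have h3' : ((z3 / 3 : ℕ) : ℝ) / 16777216 ≤ zr * zr * zr / 3 := by
    refine le_trans (div_le_div_of_nonneg_right h3 (by norm_num)) ?_
    linarith
  have h5' : ((z5 / 5 : ℕ) : ℝ) / 16777216 ≤ zr * zr * zr * (zr * zr) / 5 := by
    refine le_trans (div_le_div_of_nonneg_right h5 (by norm_num)) ?_
    linarith
  generalize ((z3 / 3 : ℕ) : ℝ) = w3 at h3' ⊢
  generalize ((z5 / 5 : ℕ) : ℝ) = w5 at h5' ⊢
  linarith

end Pool.Agent.Lib.MP_172a45_an.H5
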