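import Pool.Agent.Lib.MP_172a45_an.H5.Sound1
import Pool.Agent.Lib.MP_172a45_an.H5.Main

set_option autoImplicit false

/-!
# Soundness of the box checker: the common part
-/

namespace Pool.Agent.Lib.MP_172a45_an.H5

open Finset
open Pool.Agent.Lib.MP_172a45_an.F
open Pool.Agent.Lib.MP_172a45_an.F.Fr
open Pool.Agent.Lib.MP_172a45_an.L

/-! ### The loop -/

/-- the ratio factors -/
def rs (dd r0 : ℕ) : ℕ → ℕ
  | 0 => r0
  | i + 1 => mu (rs dd r0 i) dd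

/-- the weights without the linear factor -/
def Rs (dd r0 : ℕ) : ℕ → ℕ
  | 0 => 16777216
  | i + 1 => mu (Rs dd r0 i) (rs dd r0 i)

/-- the losses -/
def lp (Y c2 Xg : ℕ) : ℕ → ℕ
  | 0 => 0
  | i + 1 => mx (lp Y c2 Xg i) (l1 Y c2 Xg i)

/-- the weights -/
def Wn (X1 dd r0 i : ℕ) : ℕ := (1073741824 + X1 * i) * Rs dd r0 i

theorem go_zero (Y c2 Xg X1 dd Kl L i R r l a b w : ℕ) :
    go Y c2 Xg X1 dd Kl L 0 i R r l a b w = Nat.blt (b + w * (64 * Kl)) (L * a) := rfl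

theorem go_succ (Y c2 Xg X1 dd Kl L k i R r l a b w : ℕ) :
    go Y c2 Xg X1 dd Kl L (k + 1) i R r l a b w =
      go Y c2 Xg X1 dd Kl L k (i + 1) (mu R r) (mu r dd) (mx l (l1 Y c2 Xg i))
        (a + (1073741824 + X1 * i) * R)
        (b + (1073741824 + X1 * i) * R * (mx l (l1 Y c2 Xg i))) ((1073741824 + X1 * i) * R) := rfl

theorem go_spec (Y c2 Xg X1 dd Kl L r0 : ℕ) : ∀ k i w : ℕ,
    go Y c2 Xg X1 dd Kl L k i (Rs dd r0 i) (rs dd r0 i) (lp Y c2 Xg i)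
      (∑ j ∈ range i, Wn X1 dd r0 j) (∑ j ∈ range i, Wn X1 dd r0 j * lp Y c2 Xg (j + 1)) w = true →
    (∑ j ∈ range (i + k), Wn X1 dd r0 j * lp Y c2 Xg (j + 1)) +
      (if k = 0 then w else Wn X1 dd r0 (i + k - 1)) * (64 * Kl) <
      L * ∑ j ∈ range (i + k), Wn X1 dd r0 j := by
  intro k
  induction k with
  | zero =>
    intro i w h
    rw [go_zero, Nat.blt_eq] at h
    simpa using h
  | succ k ih =>
    intro i w h
    rw [go_succ] at h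
    have h1 := ih (i + 1) (Wn X1 dd r0 i) (by
      rw [sum_range_succ, sum_range_succ]
      exact h)
    have e : i + 1 + k = i + (k + 1) := by ring
    rw [e] at h1
    rw [if_neg (Nat.succ_ne_zero k)]
    by_cases hk : k = 0
    · rw [if_pos hk] at h1
      rw [hk] at h1 ⊢
      exact h1
    · rw [if_neg hk] at h1
      exact h1

theorem lp_mono (Y c2 Xg i : ℕ) : lp Y c2 Xg i ≤ lp Y c2 Xg (i + 1) := by
  show lp Y c2 Xg i ≤ mx (lp Y c2 Xg i) (l1 Y c2 Xg i)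
  rw [mx_eq]
  exact le_max_left _ _

theorem l1_le_lp (Y c2 Xg i : ℕ) : l1 Y c2 Xg i ≤ lp Y c2 Xg (i + 1) := by
  show l1 Y c2 Xg i ≤ mx (lp Y c2 Xg i) (l1 Y c2 Xg i)
  rw [mx_eq]
  exact le_max_right _ _

theorem rs_pos {dd r0 : ℕ} (h0 : 0 < r0) : ∀ i, 0 < rs dd r0 i
  | 0 => h0
  | _ + 1 => Nat.succ_pos _

theorem Rs_pos (dd r0 : ℕ) : ∀ i, 0 < Rs dd r0 i
  | 0 => by show 0 < 16777216; norm_num
  | _ + 1 => Nat.succ_pos _

/-- the factors `r_i` -/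
theorem rs_ge {dd r0 : ℕ} {m D : ℝ} (h0 : Real.exp (-(m / 64 + D / 8192)) ≤ (r0 : ℝ) / 16777216)
    (hd : Real.exp (-(D / 4096)) ≤ (dd : ℝ) / 16777216) : ∀ i : ℕ,
    Real.exp (-(m / 64 + (2 * i + 1) * D / 8192)) ≤ (rs dd r0 i : ℝ) / 16777216
  | 0 => by
    refine le_trans (le_of_eq ?_) h0
    push_cast
    ring_nf
  | i + 1 => by
    have h1 := mu_ge (rs_ge h0 hd i) hd (Real.exp_pos _).le (Real.exp_pos _).le
    refine le_trans (le_of_eq ?_) h1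
    rw [← Real.exp_add]
    push_cast
    ring_nf

theorem W_step {X1 dd r0 : ℕ} {m D : ℝ}
    (h0 : Real.exp (-(m / 64 + D / 8192)) ≤ (r0 : ℝ) / 16777216)
    (hd : Real.exp (-(D / 4096)) ≤ (dd : ℝ) / 16777216) (i : ℕ) :
    (Wn X1 dd r0 i : ℝ) * wt ((X1 : ℝ) / 16777216) m D ((i + 1 : ℕ) * (1 / 64)) ≤
      (Wn X1 dd r0 (i + 1) : ℝ) * wt ((X1 : ℝ) / 16777216) m D (i * (1 / 64)) := by
  have h1 := rs_ge h0 hd i
  have h2 := mu_ge' (Rs dd r0 i) (rs dd r0 i)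
  have h3 : (Rs dd r0 i : ℝ) * Real.exp (-(m / 64 + (2 * i + 1) * D / 8192)) ≤
      (Rs dd r0 (i + 1) : ℝ) := by
    have h4 : (Rs dd r0 (i + 1) : ℝ) = (mu (Rs dd r0 i) (rs dd r0 i) : ℝ) := rfl
    rw [h4]
    have h5 : (Rs dd r0 i : ℝ) * Real.exp (-(m / 64 + (2 * i + 1) * D / 8192)) ≤
        (Rs dd r0 i : ℝ) * ((rs dd r0 i : ℝ) / 16777216) :=
      mul_le_mul_of_nonneg_left h1 (Nat.cast_nonneg _)
    refine h5.trans ?_
    have h6 : (Rs dd r0 i : ℝ) * ((rs dd r0 i : ℝ) / 16777216) =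
        16777216 * ((Rs dd r0 i : ℝ) / 16777216 * ((rs dd r0 i : ℝ) / 16777216)) := by
      field_simp
    rw [h6]
    calc _ ≤ 16777216 * ((mu (Rs dd r0 i) (rs dd r0 i) : ℝ) / 16777216) :=
          mul_le_mul_of_nonneg_left h2 (by norm_num)
      _ = _ := by field_simp
  unfold wt Wn
  push_cast
  have e1 : Real.exp (-(m * (((i : ℝ) + 1) * (1 / 64)) + (((i : ℝ) + 1) * (1 / 64)) ^ 2 / 2 * D)) =
      Real.exp (-(m / 64 + (2 * i + 1) * D / 8192)) *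
        Real.exp (-(m * ((i : ℝ) * (1 / 64)) + ((i : ℝ) * (1 / 64)) ^ 2 / 2 * D)) := by
    rw [← Real.exp_add]
    ring_nf
  rw [e1]
  have hc : 0 ≤ (1073741824 + (X1 : ℝ) * i) * (1 + (X1 : ℝ) / 16777216 * (((i : ℝ) + 1) * (1 / 64))) *
      Real.exp (-(m * ((i : ℝ) * (1 / 64)) + ((i : ℝ) * (1 / 64)) ^ 2 / 2 * D)) := by positivity
  have h7 := mul_le_mul_of_nonneg_left h3 hc
  have e2 : (1073741824 + (X1 : ℝ) * ((i : ℝ) + 1)) *
      (1 + (X1 : ℝ) / 16777216 * ((i : ℝ) * (1 / 64))) =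
      (1073741824 + (X1 : ℝ) * i) * (1 + (X1 : ℝ) / 16777216 * (((i : ℝ) + 1) * (1 / 64))) := by
    ring
  calc _ = (1073741824 + (X1 : ℝ) * i) * (1 + (X1 : ℝ) / 16777216 * (((i : ℝ) + 1) * (1 / 64))) *
      Real.exp (-(m * ((i : ℝ) * (1 / 64)) + ((i : ℝ) * (1 / 64)) ^ 2 / 2 * D)) *
      ((Rs dd r0 i : ℝ) * Real.exp (-(m / 64 + (2 * i + 1) * D / 8192))) := by ring
    _ ≤ _ := h7
    _ = (1073741824 + (X1 : ℝ) * ((i : ℝ) + 1)) *
      (1 + (X1 : ℝ) / 16777216 * ((i : ℝ) * (1 / 64))) *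
      Real.exp (-(m * ((i : ℝ) * (1 / 64)) + ((i : ℝ) * (1 / 64)) ^ 2 / 2 * D)) *
      (Rs dd r0 (i + 1) : ℝ) := by rw [e2]
    _ = _ := by ring

/-- the loss -/
theorem l1_ok {Y c2 Xg : ℕ} {ε : ℝ}
    (hc2 : (c2 : ℝ) / 16777216 ≤ (1 - ε) * ((Xg : ℝ) / 16777216) ^ 2) {i : ℕ} (hi : i < 60) :
    ∃ B A : ℝ, (1 + ((i + 1 : ℕ) * (1 / 64 : ℝ)) * ((Y : ℝ) / 16777216)) /
        (1 - (i + 1 : ℕ) * (1 / 64 : ℝ)) ≤ B ∧
      A ≤ (1 - ε) * AX ((Xg : ℝ) / 16777216) (i * (1 / 64 : ℝ)) ∧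
      (max (2 * B - A) 0) ^ 2 ≤ 4 * B * ((lp Y c2 Xg (i + 1) : ℝ) / 16777216) := by
  set Bn : ℕ := (1073741824 + (i + 1) * Y) / (63 - i) + 1 with hBn
  set An : ℕ := c2 * i * 16777216 / (1073741824 + Xg * i) with hAn
  set fn : ℕ := 2 * Bn - An with hfn
  have hl1 : l1 Y c2 Xg i = fn * fn / (4 * Bn) + 1 := rfl
  have hBp : 0 < Bn := Nat.succ_pos _
  have hi' : (i : ℝ) + 1 ≤ 60 := by exact_mod_cast hi
  have hi0 : (0 : ℝ) ≤ i := Nat.cast_nonneg _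
  refine ⟨(Bn : ℝ) / 16777216, (An : ℝ) / 16777216, ?_, ?_, ?_⟩
  · have h1 := le_div_r (1073741824 + (i + 1) * Y) (q := 63 - i) (by omega)
    have h2 : ((63 - i : ℕ) : ℝ) = 63 - (i : ℝ) := by
      rw [Nat.cast_sub (by omega)]
      norm_num
    rw [h2] at h1
    rw [hBn]
    push_cast at h1 ⊢
    rw [le_div_iff₀ (by norm_num)]
    refine le_trans (le_of_eq ?_) h1
    have h3 : (63 : ℝ) - i ≠ 0 := by linarith
    have h4 : (1 : ℝ) - (i + 1) * (1 / 64) = (63 - i) / 64 := by ring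
    rw [h4]
    field_simp
    ring
  · have h1 := div_le_r (c2 * i * 16777216) (1073741824 + Xg * i)
    rw [← hAn] at h1
    unfold AX
    rw [div_le_iff₀ (by norm_num)]
    refine h1.trans ?_
    push_cast
    have hXg : (0 : ℝ) ≤ (Xg : ℝ) := Nat.cast_nonneg _
    have hd : (0 : ℝ) < 1073741824 + (Xg : ℝ) * i := by positivity
    have hd2 : (0 : ℝ) < 1 + (Xg : ℝ) / 16777216 * (i * (1 / 64)) := by positivity
    rw [div_le_iff₀ hd]
    have e : (1 - ε) * (i * (1 / 64) * ((Xg : ℝ) / 16777216) ^ 2 /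
        (1 + (Xg : ℝ) / 16777216 * (i * (1 / 64)))) * 16777216 * (1073741824 + (Xg : ℝ) * i) =
        ((1 - ε) * ((Xg : ℝ) / 16777216) ^ 2) * (i * 16777216 * 16777216) := by
      field_simp
      ring
    rw [e]
    have h2 : (c2 : ℝ) ≤ ((1 - ε) * ((Xg : ℝ) / 16777216) ^ 2) * 16777216 := by
      rwa [div_le_iff₀ (by norm_num)] at hc2
    calc (c2 : ℝ) * i * 16777216 ≤
        (((1 - ε) * ((Xg : ℝ) / 16777216) ^ 2) * 16777216) * i * 16777216 := by gcongr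
      _ = _ := by ring
  · have h1 := le_div_r (fn * fn) (q := 4 * Bn) (Nat.mul_pos (by norm_num) hBp)
    have h2 : (l1 Y c2 Xg i : ℝ) ≤ (lp Y c2 Xg (i + 1) : ℝ) := by
      exact_mod_cast l1_le_lp Y c2 Xg i
    rw [hl1] at h2
    have hB0 : (0 : ℝ) < (Bn : ℝ) := by exact_mod_cast hBp
    have h3 : (fn : ℝ) * fn ≤ 4 * Bn * (lp Y c2 Xg (i + 1) : ℝ) := by
      push_cast at h1 h2
      have h4 := h1.trans h2
      rw [div_le_iff₀ (by positivity)] at h4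
      linarith
    have h5 := sub_ge_r (2 * Bn) An
    rw [← hfn] at h5
    have hf0 : (0 : ℝ) ≤ (fn : ℝ) := Nat.cast_nonneg _
    have h6 : max (2 * ((Bn : ℝ) / 16777216) - (An : ℝ) / 16777216) 0 ≤ (fn : ℝ) / 16777216 := by
      refine max_le ?_ (by positivity)
      rw [le_div_iff₀ (by norm_num)]
      push_cast at h5
      linarith
    calc _ ≤ ((fn : ℝ) / 16777216) ^ 2 := pow_le_pow_left₀ (le_max_right _ _) h6 2
      _ = (fn : ℝ) * fn / (16777216 * 16777216) := by ring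
      _ ≤ (4 * Bn * (lp Y c2 Xg (i + 1) : ℝ)) / (16777216 * 16777216) :=
          div_le_div_of_nonneg_right h3 (by norm_num)
      _ = _ := by ring

end Pool.Agent.Lib.MP_172a45_an.H5
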