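import Pool.Agent.Lib.MP_172a45_an.H5.Sound2

set_option autoImplicit false

/-!
# Soundness of the box checker: `tail`
-/

namespace Pool.Agent.Lib.MP_172a45_an.H5

open Finset
open Pool.Agent.Lib.MP_172a45_an.F
open Pool.Agent.Lib.MP_172a45_an.F.Fr
open Pool.Agent.Lib.MP_172a45_an.L

theorem blt_r {p q : ℕ} (h : Nat.blt p q = true) : (p : ℝ) < q := by
  rw [Nat.blt_eq] at h
  exact_mod_cast h

theorem ble_r {p q : ℕ} (h : Nat.ble p q = true) : (p : ℝ) ≤ q := by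
  exact_mod_cast Nat.le_of_ble_eq_true h

theorem r_nonneg (n : ℕ) : (0 : ℝ) ≤ (n : ℝ) / 16777216 := by positivity

theorem y_le (D0 DD : ℕ) : ((D0 * (DD + 16777216) / (DD + 33554432) : ℕ) : ℝ) / 16777216 ≤
    (D0 : ℝ) / 16777216 * (((DD : ℝ) / 16777216 + 1) / ((DD : ℝ) / 16777216 + 2)) := by
  have h1 := div_le_r (D0 * (DD + 16777216)) (DD + 33554432)
  rw [div_le_iff₀ (by norm_num)]
  refine h1.trans (le_of_eq ?_)
  push_cast
  have h2 : (DD : ℝ) + 33554432 ≠ 0 := by positivity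
  have h3 : (DD : ℝ) / 16777216 + 2 ≠ 0 := by positivity
  field_simp
  ring

theorem Kl_ge (X1 Y : ℕ) : 2 * (((60 : ℕ) : ℝ) * (1 / 64)) /
    ((((60 : ℕ) : ℝ) * (1 / 64)) ^ 2 + ((60 : ℕ) : ℝ) * (1 / 64) - 1) *
      (1 + (Y : ℝ) / 16777216) * ((1 + (X1 : ℝ) / 16777216) /
        (1 + (X1 : ℝ) / 16777216 * (((60 : ℕ) : ℝ) * (1 / 64)))) ≤
    ((7680 * (16777216 + Y) * (16777216 + X1) / (209 * (268435456 + 15 * X1)) + 1 : ℕ) : ℝ) /
      16777216 := by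
  have h1 := le_div_r (7680 * (16777216 + Y) * (16777216 + X1))
    (q := 209 * (268435456 + 15 * X1)) (by omega)
  push_cast at h1 ⊢
  rw [le_div_iff₀ (by norm_num)]
  refine le_trans (le_of_eq ?_) h1
  have h2 : (268435456 : ℝ) + 15 * X1 ≠ 0 := by positivity
  have h3 : (1 : ℝ) + (X1 : ℝ) / 16777216 * (60 * (1 / 64)) ≠ 0 := by positivity
  have h4 : (2 * (60 * (1 / 64 : ℝ)) / ((60 * (1 / 64 : ℝ)) ^ 2 + 60 * (1 / 64) - 1)) = 480 / 209 := by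
    norm_num
  rw [h4]
  field_simp
  ring

theorem Dp_or (D0 gB DD : ℕ) {g : ℝ} (hg : g ≤ (gB : ℝ) / 16777216) :
    ((D0 - (gB + DD) : ℕ) : ℝ) / 16777216 = 0 ∨
    ((D0 - (gB + DD) : ℕ) : ℝ) / 16777216 ≤ (D0 : ℝ) / 16777216 - g - (DD : ℝ) / 16777216 := by
  rcases le_total (gB + DD) D0 with h1 | h1
  · right
    rw [Nat.cast_sub h1]
    push_cast
    have e : ((D0 : ℝ) - ((gB : ℝ) + DD)) / 16777216 =
        (D0 : ℝ) / 16777216 - (gB : ℝ) / 16777216 - (DD : ℝ) / 16777216 := by ring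
    rw [e]
    linarith
  · left
    rw [Nat.sub_eq_zero_of_le h1]
    simp

/-- the final step: all data are given -/
theorem fin_sound {M : ℕ} {a : ℝ} {ζ z : Fin (M + 1) → ℂ} (h : Fr (M + 1) a ζ z) (hM : 0 < M)
    (hmax : ∀ k, ‖u a ζ k‖ ≤ ‖u a ζ 0‖) {D0 t0 t1 gB a1 DD Y X1 m0 Xg q g0 y eps L Dp c2 Kl : ℕ}
    {dd r0 : ℕ} (ha1 : a ≤ (a1 : ℝ) / 16777216)
    (ht : 16777216 ≤ t0) (hτ0 : (t0 : ℝ) / 16777216 ≤ ‖u a ζ 0‖)
    (hτ1 : ‖u a ζ 0‖ ≤ (t1 : ℝ) / 16777216)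
    (hg : gg1 ((t1 : ℝ) / 16777216) ≤ (gB : ℝ) / 16777216)
    (hΔ : (D0 : ℝ) / 16777216 ≤ Del a ζ) (hDD : (DD : ℝ) / 16777216 ≤ DS a ζ)
    (hY : ∀ k, ‖vt a ζ k‖ ≤ 1 + (Y : ℝ) / 16777216)
    (hX1 : X1 = mu a1 (t1 + 8388608)) (hm0 : m0 = t0 - 16777216 + DD)
    (hXg : Xg = md a1 (t0 + 8388608)) (hq : q = 16777216 + mu a1 (t0 + 8388608))
    (hg0 : g0 = t0 + DD - q) (hy : y = D0 * (DD + 16777216) / (DD + 33554432))
    (heps : eps = mu a1 (sq (sq (sq (sq (ex (y / 16))))))) (hL : L = md (16777216 - eps) g0)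
    (hDp : Dp = D0 - (gB + DD)) (hc2 : c2 = md (16777216 - eps) (md Xg Xg))
    (hKl : Kl = 7680 * (16777216 + Y) * (16777216 + X1) / (209 * (268435456 + 15 * X1)) + 1)
    (c1 : X1 ≤ m0) (c2' : a1 ≤ 16777216) (c3 : eps < 16777216) (c4 : 3 * eps < L)
    (hr0 : Real.exp (-((m0 : ℝ) / 16777216 / 64 + (Dp : ℝ) / 16777216 / 8192)) ≤ (r0 : ℝ) / 16777216)
    (hdd : Real.exp (-((Dp : ℝ) / 16777216 / 4096)) ≤ (dd : ℝ) / 16777216)
    (hgo : go Y c2 Xg X1 dd Kl (L - 3 * eps) 60 0 16777216 r0 0 0 0 0 = true) : False := by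
  have hlt := go_spec Y c2 Xg X1 dd Kl (L - 3 * eps) r0 60 0 0 (by
    rw [sum_range_zero, sum_range_zero]
    exact hgo)
  simp only [Nat.zero_add, if_neg (show ¬ (60 : ℕ) = 0 by norm_num),
    show 60 - 1 = 59 from rfl] at hlt
  have S0 : (0 : ℝ) < 16777216 := by norm_num
  have ht1 : t0 ≤ t1 := by
    have h1 := hτ0.trans hτ1
    rw [div_le_div_iff_of_pos_right S0] at h1
    exact_mod_cast h1
  have htr : (16777216 : ℝ) ≤ t0 := by exact_mod_cast ht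
  have hm0r : (m0 : ℝ) / 16777216 = (t0 : ℝ) / 16777216 - 1 + (DD : ℝ) / 16777216 := by
    rw [hm0]
    push_cast [Nat.cast_sub ht]
    ring
  have hmid : (((t0 + 8388608 : ℕ) : ℕ) : ℝ) / 16777216 = (t0 : ℝ) / 16777216 + 1 / 2 := by
    push_cast
    ring
  have hmid1 : (((t1 + 8388608 : ℕ) : ℕ) : ℝ) / 16777216 = (t1 : ℝ) / 16777216 + 1 / 2 := by
    push_cast
    ring
  have hepsr : (0 : ℝ) ≤ 1 - (eps : ℝ) / 16777216 := by
    have : (eps : ℝ) < 16777216 := by exact_mod_cast c3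
    rw [sub_nonneg, div_le_one S0]
    exact this.le
  have hoe : ((16777216 - eps : ℕ) : ℝ) / 16777216 = 1 - (eps : ℝ) / 16777216 := by
    rw [Nat.cast_sub c3.le]
    push_cast
    ring
  have hc2r : (c2 : ℝ) / 16777216 ≤ (1 - (eps : ℝ) / 16777216) * ((Xg : ℝ) / 16777216) ^ 2 := by
    rw [hc2, pow_two]
    exact md_le hoe.le (md_le le_rfl le_rfl)
  have hL3 : ((L - 3 * eps : ℕ) : ℝ) / 16777216 = (L : ℝ) / 16777216 - 3 * ((eps : ℝ) / 16777216) := by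
    rw [Nat.cast_sub c4.le]
    push_cast
    ring
  have hg0pos : 0 < g0 := by
    rcases Nat.eq_zero_or_pos g0 with h0 | h0
    · rw [h0] at hL
      have : L = 0 := by rw [hL]; simp [md]
      omega
    · exact h0
  refine core h hM hmax (a1 := (a1 : ℝ) / 16777216) (τ0 := (t0 : ℝ) / 16777216)
    (τ1 := (t1 : ℝ) / 16777216) (Δ0 := (D0 : ℝ) / 16777216) (D0 := (DD : ℝ) / 16777216)
    (Y := (Y : ℝ) / 16777216) (ε := (eps : ℝ) / 16777216) (Δ' := (Dp : ℝ) / 16777216)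
    (X1 := (X1 : ℝ) / 16777216) (Xg := (Xg : ℝ) / 16777216) (H := 1 / 64)
    (g0 := (g0 : ℝ) / 16777216) (L0 := ((L - 3 * eps : ℕ) : ℝ) / 16777216)
    (Kl := (Kl : ℝ) / 16777216) (n := 60) (Nat.succ_pos 59) ha1 ?_ ?_ hτ0 hτ1 (r_nonneg _) hΔ hDD
    (r_nonneg _) hY (r_nonneg _) ?_ (r_nonneg _) ?_ (r_nonneg _) ?_ ?_ ?_
    (r_nonneg _) ?_ ?_ ?_ (one_div_pos.2 (by norm_num)) (by norm_num) (by norm_num)
    (fun i => (lp Y c2 Xg (i + 1) : ℝ) / 16777216) ?_ ?_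
    (fun i => (Wn X1 dd r0 i : ℝ)) ?_ ?_ ?_ ?_
  · rw [div_le_one S0]
    exact_mod_cast c2'
  · rw [le_div_iff₀ S0]
    linarith
  · -- eps
    rw [heps]
    refine mu_ge le_rfl (ex16 ?_) (r_nonneg _) (Real.exp_pos _).le
    rw [hy]
    exact y_le D0 DD
  · rw [div_lt_one S0]
    exact_mod_cast c3
  · -- Δ'
    rw [hDp]
    exact Dp_or D0 gB DD hg
  · rw [hX1, ← hmid1]
    exact mu_ge' _ _
  · rw [← hm0r, div_le_div_iff_of_pos_right S0]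
    exact_mod_cast c1
  · rw [hXg, ← hmid]
    exact md_le le_rfl le_rfl
  · -- g0
    have h1 := mu_ge' a1 (t0 + 8388608)
    rw [hmid] at h1
    have h2 : (g0 : ℝ) = (t0 : ℝ) + DD - (16777216 + (mu a1 (t0 + 8388608) : ℝ)) := by
      rw [hg0, Nat.cast_sub (by omega), hq]
      push_cast
      ring
    rw [h2]
    have e : ((t0 : ℝ) + DD - (16777216 + (mu a1 (t0 + 8388608) : ℝ))) / 16777216 =
        (t0 : ℝ) / 16777216 - 1 + (DD : ℝ) / 16777216 - (mu a1 (t0 + 8388608) : ℝ) / 16777216 := by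
      ring
    rw [e]
    linarith
  · rw [hL3, hL]
    have := md_le (x := 1 - (eps : ℝ) / 16777216) (y := (g0 : ℝ) / 16777216) hoe.le le_rfl
    linarith
  · intro i _
    have : (lp Y c2 Xg (i + 1) : ℝ) ≤ (lp Y c2 Xg (i + 1 + 1) : ℝ) := by
      exact_mod_cast lp_mono Y c2 Xg (i + 1)
    exact div_le_div_of_nonneg_right this S0.le
  · intro i hi
    exact l1_ok hc2r hi
  · intro i _
    have h1 : 0 < Rs dd r0 i := Rs_pos dd r0 i
    have h2 : 0 < Wn X1 dd r0 i := Nat.mul_pos (by omega) h1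
    exact_mod_cast h2
  · intro i _
    rw [← hm0r]
    exact W_step hr0 hdd i
  · -- Kl
    rw [hKl]
    exact Kl_ge X1 Y
  · -- the sum
    have hltr : (∑ j ∈ range 60, (Wn X1 dd r0 j : ℝ) * (lp Y c2 Xg (j + 1) : ℝ)) +
        (Wn X1 dd r0 59 : ℝ) * (64 * Kl) <
        ((L - 3 * eps : ℕ) : ℝ) * ∑ j ∈ range 60, (Wn X1 dd r0 j : ℝ) := by
      have h1 : (((∑ j ∈ range 60, Wn X1 dd r0 j * lp Y c2 Xg (j + 1)) +
        Wn X1 dd r0 59 * (64 * Kl) : ℕ) : ℝ) <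
        (((L - 3 * eps) * ∑ j ∈ range 60, Wn X1 dd r0 j : ℕ) : ℝ) := by exact_mod_cast hlt
      push_cast at h1
      exact h1
    have e1 : ∀ i ∈ range 60, (Wn X1 dd r0 i : ℝ) *
        (((L - 3 * eps : ℕ) : ℝ) / 16777216 - (lp Y c2 Xg (i + 1) : ℝ) / 16777216 -
          (if i = 60 - 1 then (Kl : ℝ) / 16777216 / (1 / 64) else 0)) =
        (((L - 3 * eps : ℕ) : ℝ) * (Wn X1 dd r0 i : ℝ) -
          (Wn X1 dd r0 i : ℝ) * (lp Y c2 Xg (i + 1) : ℝ)) / 16777216 -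
          (if i = 59 then (Wn X1 dd r0 i : ℝ) * (64 * Kl) / 16777216 else 0) := by
      intro i _
      simp only [show 60 - 1 = 59 from rfl]
      split_ifs <;> ring
    rw [sum_congr rfl e1, sum_sub_distrib, ← sum_div, sum_sub_distrib, ← mul_sum, sum_ite_eq',
      if_pos (mem_range.2 (by norm_num)), ← sub_div]
    refine div_pos ?_ S0
    linarith

theorem div_r {p k : ℕ} : (((p / k : ℕ) : ℕ) : ℝ) / 16777216 ≤ (p : ℝ) / 16777216 / k := by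
  have h1 := div_le_r p k
  have h2 := div_le_div_of_nonneg_right h1 (show (0 : ℝ) ≤ 16777216 by norm_num)
  refine h2.trans (le_of_eq ?_)
  ring

theorem z_two (Dp : ℕ) : ((2 * (Dp / 8192) : ℕ) : ℝ) / 16777216 ≤ (Dp : ℝ) / 16777216 / 4096 := by
  have h1 := div_r (p := Dp) (k := 8192)
  push_cast at h1 ⊢
  have e : (2 * ((Dp / 8192 : ℕ) : ℝ)) / 16777216 = 2 * (((Dp / 8192 : ℕ) : ℝ) / 16777216) := by ring
  rw [e]
  linarith

theorem r0_ge {m0 Dp rho e0 : ℕ} (hrho : Real.exp (-((m0 : ℝ) / 16777216 / 64)) ≤ (rho : ℝ) / 16777216)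
    (he : Real.exp (-((Dp : ℝ) / 16777216 / 8192)) ≤ (e0 : ℝ) / 16777216) :
    Real.exp (-((m0 : ℝ) / 16777216 / 64 + (Dp : ℝ) / 16777216 / 8192)) ≤
      (mu rho e0 : ℝ) / 16777216 := by
  have h1 := mu_ge hrho he (Real.exp_pos _).le (Real.exp_pos _).le
  rw [← Real.exp_add] at h1
  refine le_trans (le_of_eq ?_) h1
  congr 1
  ring

theorem exp_bif_le {Dp e : ℕ} {k : ℝ}
    (he : Real.exp (-((Dp : ℝ) / 16777216 / k)) ≤ (e : ℝ) / 16777216) :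
    Real.exp (-((Dp : ℝ) / 16777216 / k)) ≤
      ((bif Nat.beq Dp 0 then 16777216 else e : ℕ) : ℝ) / 16777216 := by
  cases Dp with
  | zero => simp
  | succ n => exact he

theorem tail_sound {M : ℕ} {a : ℝ} {ζ z : Fin (M + 1) → ℂ} (h : Fr (M + 1) a ζ z) (hM : 0 < M)
    (hmax : ∀ k, ‖u a ζ k‖ ≤ ‖u a ζ 0‖) {D0 t0 t1 gB a1 DD Y : ℕ}
    (hc : tail D0 t0 t1 gB a1 DD Y = true) (ha1 : a ≤ (a1 : ℝ) / 16777216)
    (ht : 16777216 ≤ t0) (hτ0 : (t0 : ℝ) / 16777216 ≤ ‖u a ζ 0‖)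
    (hτ1 : ‖u a ζ 0‖ ≤ (t1 : ℝ) / 16777216)
    (hg : gg1 ((t1 : ℝ) / 16777216) ≤ (gB : ℝ) / 16777216)
    (hΔ : (D0 : ℝ) / 16777216 ≤ Del a ζ) (hDD : (DD : ℝ) / 16777216 ≤ DS a ζ)
    (hY : ∀ k, ‖vt a ζ k‖ ≤ 1 + (Y : ℝ) / 16777216) : False := by
  unfold tail at hc
  extract_lets X1 m0 Xg q g0 y eps L Dp rho z0 c2 Kl at hc
  have hrho : Real.exp (-((m0 : ℝ) / 16777216 / 64)) ≤ (rho : ℝ) / 16777216 := ex_ge div_r
  have hz2 : ((2 * z0 : ℕ) : ℝ) / 16777216 ≤ (Dp : ℝ) / 16777216 / 4096 := z_two Dp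
  have hz0 : (z0 : ℝ) / 16777216 ≤ (Dp : ℝ) / 16777216 / 8192 := div_r
  rw [Bool.and_eq_true, Bool.and_eq_true, Bool.and_eq_true, Bool.and_eq_true] at hc
  obtain ⟨⟨b1, b2, b3, b4⟩, hc'⟩ := hc
  have c1 := Nat.le_of_ble_eq_true b1
  have c2' := Nat.le_of_ble_eq_true b2
  rw [Nat.blt_eq] at b3 b4
  exact fin_sound h hM hmax (X1 := X1) (m0 := m0) (Xg := Xg) (q := q) (g0 := g0) (y := y)
    (eps := eps) (L := L) (Dp := Dp) (c2 := c2) (Kl := Kl)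
    (dd := bif Nat.beq Dp 0 then 16777216 else ex (2 * z0))
    (r0 := mu rho (bif Nat.beq Dp 0 then 16777216 else ex z0)) ha1 ht hτ0 hτ1 hg hΔ hDD hY
    rfl rfl rfl rfl rfl rfl rfl rfl rfl rfl rfl c1 c2' b3 b4
    (r0_ge hrho (exp_bif_le (ex_ge hz0))) (exp_bif_le (ex_ge hz2)) hc'

end Pool.Agent.Lib.MP_172a45_an.H5
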