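import Pool.Agent.Lib.MP_172a45_an.H5.Sound3
import Pool.Agent.Lib.MP_172a45_an.H5.Alpha

set_option autoImplicit false

/-!
# Soundness of the box checker: one box
-/

namespace Pool.Agent.Lib.MP_172a45_an.H5

open Finset
open Pool.Agent.Lib.MP_172a45_an.F
open Pool.Agent.Lib.MP_172a45_an.F.Fr
open Pool.Agent.Lib.MP_172a45_an.L

theorem xx_ge {a0 a1 tn : ℕ} {a t : ℝ} (h0 : (a0 : ℝ) / 16777216 ≤ a)
    (h1 : a ≤ (a1 : ℝ) / 16777216) (ha1 : a ≤ 1) (ht : t ≤ (tn : ℝ) / 16777216) :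
    (1 - a ^ 2) * t - (1 - a) ≤ (xx a0 a1 tn : ℝ) / 16777216 := by
  have S0 : (0 : ℝ) < 16777216 := by norm_num
  set α0 : ℝ := (a0 : ℝ) / 16777216 with hα0
  set α1 : ℝ := (a1 : ℝ) / 16777216 with hα1
  set T : ℝ := (tn : ℝ) / 16777216 with hT
  have hα00 : 0 ≤ α0 := r_nonneg _
  have hT0 : 0 ≤ T := r_nonneg _
  have e1 : 1 - α0 ≤ ((16777216 - a0 : ℕ) : ℝ) / 16777216 := by
    have := sub_ge_r 16777216 a0
    rw [le_div_iff₀ S0, hα0]
    push_cast at this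
    linarith
  have e2 : (1 + α0) ≤ ((16777216 + a0 : ℕ) : ℝ) / 16777216 := by
    push_cast
    rw [hα0]
    linarith
  have e3 : (1 + α0) * T ≤ (mu (16777216 + a0) tn : ℝ) / 16777216 :=
    mu_ge e2 le_rfl (by linarith) hT0
  have e4 : max ((1 + α0) * T - 1) 0 ≤
      ((mu (16777216 + a0) tn - 16777216 : ℕ) : ℝ) / 16777216 := by
    refine max_le ?_ (r_nonneg _)
    have := sub_ge_r (mu (16777216 + a0) tn) 16777216
    rw [le_div_iff₀ S0] at e3 ⊢
    push_cast at this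
    linarith
  have e5 := mu_ge e1 e4 (by linarith) (le_max_right _ _)
  have e6 : (md (2 * a0) tn : ℝ) / 16777216 ≤ 2 * α0 * T := by
    refine md_le ?_ le_rfl
    push_cast
    rw [hα0]
    linarith
  have e7 : max (1 - 2 * α0 * T) 0 ≤ ((16777216 - md (2 * a0) tn : ℕ) : ℝ) / 16777216 := by
    refine max_le ?_ (r_nonneg _)
    have := sub_ge_r 16777216 (md (2 * a0) tn)
    rw [div_le_iff₀ S0] at e6
    rw [le_div_iff₀ S0]
    push_cast at this
    linarith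
  have e8 : α1 - α0 ≤ ((a1 - a0 : ℕ) : ℝ) / 16777216 := by
    have := sub_ge_r a1 a0
    rw [le_div_iff₀ S0, hα0, hα1]
    linarith
  have e9 := mu_ge e7 e8 (le_max_right _ _) (by linarith)
  have hx : (xx a0 a1 tn : ℝ) / 16777216 =
      (mu (16777216 - a0) (mu (16777216 + a0) tn - 16777216) : ℝ) / 16777216 +
        (mu (16777216 - md (2 * a0) tn) (a1 - a0) : ℝ) / 16777216 := by
    unfold xx
    push_cast
    ring
  rw [hx]
  have f1 : (1 - a ^ 2) * t ≤ (1 - a ^ 2) * T := by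
    refine mul_le_mul_of_nonneg_left ht ?_
    nlinarith
  have f2 : (1 - α0) * ((1 + α0) * T - 1) ≤ (1 - α0) * max ((1 + α0) * T - 1) 0 :=
    mul_le_mul_of_nonneg_left (le_max_left _ _) (by linarith)
  have f3 : (a - α0) * (1 - 2 * α0 * T) ≤ max (1 - 2 * α0 * T) 0 * (α1 - α0) := by
    have h2 : (a - α0) * (1 - 2 * α0 * T) ≤ (a - α0) * max (1 - 2 * α0 * T) 0 :=
      mul_le_mul_of_nonneg_left (le_max_left _ _) (by linarith)
    have h3 : (a - α0) * max (1 - 2 * α0 * T) 0 ≤ (α1 - α0) * max (1 - 2 * α0 * T) 0 :=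
      mul_le_mul_of_nonneg_right (by linarith) (le_max_right _ _)
    linarith
  have f4 : (1 - a ^ 2) * T - (1 - a) = (1 - α0) * ((1 + α0) * T - 1) +
      (a - α0) * (1 - 2 * α0 * T) - (a - α0) ^ 2 * T := by ring
  have f5 : 0 ≤ (a - α0) ^ 2 * T := mul_nonneg (sq_nonneg _) hT0
  linarith

/-- a candidate for the lower bound of `D_S` -/
theorem cand {M : ℕ} {a : ℝ} {ζ z : Fin (M + 1) → ℂ} (h : Fr (M + 1) a ζ z)
    {G dn s α1 α2 x0 : ℕ} (hα1 : 0 < α1) (hα2 : 0 < α2)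
    (hs : ∀ y : ℝ, 0 < y → 1 ≤ ((α1 : ℝ) / α2) * y → psi (((α1 : ℝ) / α2) * y) ≤
      ((s : ℝ) / 1000) * (y - 1 - Real.log y))
    (hG : (G : ℝ) / 16777216 ≤ GS a ζ) (hΔ : Del a ζ - gg1 ‖u a ζ 0‖ ≤ (dn : ℝ) / 16777216)
    (hx : 1 - a ^ 2 ≤ (x0 : ℝ) / 16777216) (hDS : 0 ≤ DS a ζ) :
    (((G - (dn * s / 2000 + 1)) * α1 / α2 * 16777216 / x0 : ℕ) : ℝ) / 16777216 ≤ DS a ζ := by
  have S0 : (0 : ℝ) < 16777216 := by norm_num
  rcases Nat.eq_zero_or_pos (G - (dn * s / 2000 + 1)) with hv | hv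
  · rw [hv]
    simpa using hDS
  · have hα1r : (0 : ℝ) < α1 := by exact_mod_cast hα1
    have hα2r : (0 : ℝ) < α2 := by exact_mod_cast hα2
    have hx1 : 0 < 1 - a ^ 2 := h.m_pos
    have hx0 : (0 : ℝ) < (x0 : ℝ) / 16777216 := lt_of_lt_of_le hx1 hx
    have hx0' : (0 : ℝ) < x0 := by
      rcases div_pos_iff.1 hx0 with h1 | h1
      · exact h1.1
      · linarith [h1.2]
    have h1 := DS_ge_Del h (w := (α1 : ℝ) / α2) (s := (s : ℝ) / 1000) (div_pos hα1r hα2r)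
      (div_nonneg (Nat.cast_nonneg _) (by norm_num)) hs hG
    set v := G - (dn * s / 2000 + 1) with hvdef
    have hv1 : (v : ℝ) = G - (((dn * s / 2000 : ℕ) : ℝ) + 1) := by
      rw [hvdef, Nat.cast_sub (by omega)]
      push_cast
      ring
    have hv2 := le_div_r (dn * s) (q := 2000) (by norm_num)
    have hgg : gg1 ‖u a ζ 0‖ = ‖u a ζ 0‖ - 1 - Real.log ‖u a ζ 0‖ := rfl
    rw [← hgg] at h1
    have hv3 : (v : ℝ) / 16777216 ≤
        (G : ℝ) / 16777216 - 1 / 2 * ((s : ℝ) / 1000 * (Del a ζ - gg1 ‖u a ζ 0‖)) := by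
      have h2 : (s : ℝ) / 1000 * (Del a ζ - gg1 ‖u a ζ 0‖) ≤ (s : ℝ) / 1000 * ((dn : ℝ) / 16777216) :=
        mul_le_mul_of_nonneg_left hΔ (by positivity)
      rw [hv1]
      push_cast at hv2
      have h3 : ((G : ℝ) - (((dn * s / 2000 : ℕ) : ℝ) + 1)) / 16777216 ≤
          ((G : ℝ) - (dn : ℝ) * s / 2000) / 16777216 :=
        div_le_div_of_nonneg_right (by linarith) S0.le
      refine h3.trans ?_
      have e : ((G : ℝ) - (dn : ℝ) * s / 2000) / 16777216 =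
          (G : ℝ) / 16777216 - 1 / 2 * ((s : ℝ) / 1000 * ((dn : ℝ) / 16777216)) := by ring
      rw [e]
      linarith
    have hv0 : (0 : ℝ) < (v : ℝ) := by exact_mod_cast hv
    refine le_trans ?_ h1
    have h4 := div_le_r (v * α1 / α2 * 16777216) x0
    have h5 := div_le_r (v * α1) α2
    push_cast at h4 h5
    calc (((v * α1 / α2 * 16777216 / x0 : ℕ) : ℕ) : ℝ) / 16777216
        ≤ (((v * α1 / α2 : ℕ) : ℝ) * 16777216 / x0) / 16777216 :=
          div_le_div_of_nonneg_right h4 S0.le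
      _ ≤ ((v : ℝ) * α1 / α2 * 16777216 / x0) / 16777216 := by
          refine div_le_div_of_nonneg_right (div_le_div_of_nonneg_right
            (mul_le_mul_of_nonneg_right h5 S0.le) hx0'.le) S0.le
      _ = (α1 : ℝ) / α2 / ((x0 : ℝ) / 16777216) * ((v : ℝ) / 16777216) := by
          field_simp
      _ ≤ (α1 : ℝ) / α2 / (1 - a ^ 2) * ((v : ℝ) / 16777216) := by
          refine mul_le_mul_of_nonneg_right ?_ (by positivity)
          exact div_le_div_of_nonneg_left (by positivity) hx1 hx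
      _ ≤ _ := by
          refine mul_le_mul_of_nonneg_left hv3 ?_
          exact div_nonneg (by positivity) hx1.le

/-- the simple candidate -/
theorem cand0 {M : ℕ} {a : ℝ} {ζ z : Fin (M + 1) → ℂ} (h : Fr (M + 1) a ζ z)
    {x T G : ℝ} (hG : G ≤ GS a ζ) (hG0 : 0 ≤ G) (hx : 1 - a ^ 2 ≤ x)
    (hT : ∀ k : Fin M, ‖ut a ζ k‖ ≤ T) (hT0 : 0 < T) : G / (x * T) ≤ DS a ζ := by
  have hx1 : 0 < 1 - a ^ 2 := h.m_pos
  have h1 := DS_ge h (l := 1 / ((1 - a ^ 2) * T)) (Ψ := 0) (by positivity) hG (by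
    refine (Finset.sum_nonpos fun k _ => ?_)
    rw [psip_of_le]
    have e : 1 / ((1 - a ^ 2) * T) * (1 - a ^ 2) * ‖ut a ζ k‖ = ‖ut a ζ k‖ / T := by
      field_simp
    rw [e, div_le_one hT0]
    exact hT k)
  refine le_trans ?_ h1
  have h2 : G / (x * T) ≤ G / ((1 - a ^ 2) * T) :=
    div_le_div_of_nonneg_left hG0 (by positivity) (mul_le_mul_of_nonneg_right hx hT0.le)
  refine h2.trans (le_of_eq ?_)
  ring

theorem tail_a1 {D0 t0 t1 gB a1 DD Y : ℕ} (hc : tail D0 t0 t1 gB a1 DD Y = true) :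
    a1 ≤ 16777216 := by
  unfold tail at hc
  extract_lets X1 m0 Xg q g0 y eps L Dp rho z0 c2 Kl at hc
  rw [Bool.and_eq_true, Bool.and_eq_true, Bool.and_eq_true, Bool.and_eq_true] at hc
  exact Nat.le_of_ble_eq_true hc.1.2.1

theorem DS_nonneg {M : ℕ} {a : ℝ} {ζ z : Fin (M + 1) → ℂ} (h : Fr (M + 1) a ζ z) :
    0 ≤ DS a ζ := by
  unfold DS
  refine Finset.sum_nonneg fun k _ => ?_
  have := h.gl k.succ
  unfold ut vt
  simp only [ut] at *
  linarith

end Pool.Agent.Lib.MP_172a45_an.H5
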