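import Pool.Agent.Lib.MP_172a45_an.H5.Sound4

set_option autoImplicit false

/-!
# Soundness of the box checker: `chkA` and `chkL`
-/

namespace Pool.Agent.Lib.MP_172a45_an.H5

open Finset
open Pool.Agent.Lib.MP_172a45_an.F
open Pool.Agent.Lib.MP_172a45_an.F.Fr
open Pool.Agent.Lib.MP_172a45_an.L

/-- `b (3 - b²)` is increasing -/
theorem cub_mono {b c : ℝ} (hb : 0 ≤ b) (hbc : b ≤ c) (hc : c ≤ 1) :
    b * (3 - b ^ 2) ≤ c * (3 - c ^ 2) := by
  have h1 : 0 ≤ (c - b) * (3 - c ^ 2 - c * b - b ^ 2) := by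
    refine mul_nonneg (by linarith) ?_
    nlinarith
  linarith

/-- the lower bound `A` -/
theorem A_le {N M a1 : ℕ} {a : ℝ} (hN : N ≤ M + 1) (ha0 : 0 ≤ a) (ha1 : a ≤ 1)
    (h1 : a ≤ (a1 : ℝ) / 16777216) (ha1S : a1 ≤ 16777216) :
    ((N * md (16777216 - a1) (50331648 - mu (16777216 - a1) (16777216 - a1)) / 2 : ℕ) : ℝ) /
      16777216 ≤ (1 - a) * (M + 1) * (2 + 2 * a - a ^ 2) / 2 := by
  have S0 : (0 : ℝ) < 16777216 := by norm_num
  have hb : ((16777216 - a1 : ℕ) : ℝ) / 16777216 = 1 - (a1 : ℝ) / 16777216 := by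
    rw [Nat.cast_sub ha1S]
    push_cast
    ring
  set b1 := 16777216 - a1 with hb1
  set β : ℝ := 1 - (a1 : ℝ) / 16777216 with hβ
  have hβ0 : 0 ≤ β := by
    rw [← hb]
    exact r_nonneg _
  have hβ1 : β ≤ 1 - a := by linarith
  have h2 := mu_ge' b1 b1
  rw [hb] at h2
  have h3 : ((50331648 - mu b1 b1 : ℕ) : ℝ) / 16777216 ≤ 3 - β ^ 2 := by
    rw [div_le_iff₀ S0]
    refine sub_le_r ?_ ?_
    · rw [le_div_iff₀ S0] at h2
      push_cast
      linarith
    · have : β ^ 2 ≤ 1 := by nlinarith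
      linarith
  have h4 := md_le hb.le h3
  have h5 := cub_mono hβ0 hβ1 (by linarith)
  have h6 := h4.trans h5
  have h7 := div_le_r (N * md b1 (50331648 - mu b1 b1)) 2
  have hNr : (N : ℝ) ≤ M + 1 := by exact_mod_cast hN
  have hc0 : 0 ≤ (1 - a) * (3 - (1 - a) ^ 2) := by
    refine mul_nonneg (by linarith) ?_
    nlinarith
  push_cast at h7
  calc ((N * md b1 (50331648 - mu b1 b1) / 2 : ℕ) : ℝ) / 16777216
      ≤ ((N : ℝ) * (md b1 (50331648 - mu b1 b1) : ℝ) / 2) / 16777216 :=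
        div_le_div_of_nonneg_right h7 S0.le
    _ = (N : ℝ) * ((md b1 (50331648 - mu b1 b1) : ℝ) / 16777216) / 2 := by ring
    _ ≤ (N : ℝ) * ((1 - a) * (3 - (1 - a) ^ 2)) / 2 := by
        refine div_le_div_of_nonneg_right ?_ (by norm_num)
        exact mul_le_mul_of_nonneg_left h6 (Nat.cast_nonneg _)
    _ ≤ (M + 1) * ((1 - a) * (3 - (1 - a) ^ 2)) / 2 := by
        refine div_le_div_of_nonneg_right ?_ (by norm_num)
        exact mul_le_mul_of_nonneg_right hNr hc0
    _ = _ := by ring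

theorem k1_ok (Xt : ℕ) : (Xt : ℝ) / 16777216 ≤
    ((16777216 + Xt / 2 + 1 : ℕ) : ℝ) / 16777216 * Real.log (1 + (Xt : ℝ) / 16777216) := by
  set X : ℝ := (Xt : ℝ) / 16777216 with hX
  have hX0 : 0 ≤ X := r_nonneg _
  have h1 := Real.le_log_one_add_of_nonneg hX0
  have h2 : 1 + X / 2 ≤ ((16777216 + Xt / 2 + 1 : ℕ) : ℝ) / 16777216 := by
    have h3 := le_div_r Xt (q := 2) (by norm_num)
    push_cast at h3 ⊢
    rw [le_div_iff₀ (by norm_num), hX]
    linarith
  have h4 : X = (1 + X / 2) * (2 * X / (X + 2)) := by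
    field_simp
    ring
  calc X = (1 + X / 2) * (2 * X / (X + 2)) := h4
    _ ≤ (1 + X / 2) * Real.log (1 + X) := mul_le_mul_of_nonneg_left h1 (by linarith)
    _ ≤ _ := mul_le_mul_of_nonneg_right h2 (Real.log_nonneg (by linarith))

theorem lc_ge (k : ℕ) : (k : ℝ) * Real.log 2 ≤ ((k * 11629080 : ℕ) : ℝ) / 16777216 := by
  have := Real.log_two_lt_d9
  push_cast
  rw [mul_div_assoc]
  refine mul_le_mul_of_nonneg_left ?_ (Nat.cast_nonneg _)
  linarith

/-- the `G`-step -/
theorem G_step {A X0 k1 k num den E : ℕ} {G AA : ℝ}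
    (hnum : num = 16777216 + A + md k1 (16777216 - k * 11629080) / 2 -
      (X0 / 2 + 2 + mu k1 (k * 11629080 - 16777216) / 2))
    (hden : den = 16777216 + X0 + k1 / (2 * 2 ^ k) + 1)
    (hE : E = num * 16777216 / den) (hE1 : 16777216 ≤ E)
    (hG : G ≤ Real.log ((E : ℝ) / 16777216)) (hA : (A : ℝ) / 16777216 ≤ AA) :
    Real.exp G * (1 + (X0 : ℝ) / 16777216) + 1 / 2 * ((k1 : ℝ) / 16777216 * G) ≤
      1 + AA - 1 / 2 * ((X0 : ℝ) / 16777216) := by
  have S0 : (0 : ℝ) < 16777216 := by norm_num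
  set Er : ℝ := (E : ℝ) / 16777216 with hEr
  have hE1r : (16777216 : ℝ) ≤ E := by exact_mod_cast hE1
  have hEr1 : 1 ≤ Er := by
    rw [hEr, le_div_iff₀ S0]
    linarith
  have hEr0 : 0 < Er := by linarith
  have hexp : Real.exp G ≤ Er := by
    rw [← Real.exp_log hEr0]
    exact Real.exp_le_exp.2 hG
  set c : ℝ := 2 ^ k with hc
  have hc0 : 0 < c := pow_pos (by norm_num) k
  have hlog : G ≤ Er / c - 1 + ((k * 11629080 : ℕ) : ℝ) / 16777216 := by
    have h1 := Real.log_le_sub_one_of_pos (show 0 < Er / c from div_pos hEr0 hc0)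
    rw [Real.log_div hEr0.ne' hc0.ne', hc, Real.log_pow] at h1
    have h2 := lc_ge k
    rw [← hc] at h1
    linarith
  have hden1 : 1 + (X0 : ℝ) / 16777216 + (k1 : ℝ) / 16777216 / (2 * c) ≤ (den : ℝ) / 16777216 := by
    have h1 := le_div_r k1 (q := 2 * 2 ^ k) (Nat.mul_pos (by norm_num) (pow_pos (by norm_num) k))
    rw [hden]
    push_cast at h1 ⊢
    rw [← hc] at h1
    have e : (16777216 + (X0 : ℝ) + ((k1 / (2 * 2 ^ k) : ℕ) : ℝ) + 1) / 16777216 =
        1 + (X0 : ℝ) / 16777216 + (((k1 / (2 * 2 ^ k) : ℕ) : ℝ) + 1) / 16777216 := by ring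
    rw [e]
    have h2 := div_le_div_of_nonneg_right h1 S0.le
    have e2 : (k1 : ℝ) / (2 * c) / 16777216 = (k1 : ℝ) / 16777216 / (2 * c) := by ring
    linarith
  have hdenpos : 0 < den := by
    rw [hden]
    exact Nat.succ_pos _
  have hdenr : (0 : ℝ) < (den : ℝ) / 16777216 := by
    have : (0 : ℝ) < den := by exact_mod_cast hdenpos
    exact div_pos this S0
  have hEnum : Er * ((den : ℝ) / 16777216) ≤ (num : ℝ) / 16777216 := by
    have h1 : E * den ≤ num * 16777216 := by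
      rw [hE]
      exact Nat.div_mul_le_self _ _
    have h2 : (E : ℝ) * den ≤ (num : ℝ) * 16777216 := by exact_mod_cast h1
    rw [hEr, le_div_iff₀ S0]
    calc (E : ℝ) / 16777216 * ((den : ℝ) / 16777216) * 16777216 = (E : ℝ) * den / 16777216 := by
          ring
      _ ≤ (num : ℝ) * 16777216 / 16777216 := div_le_div_of_nonneg_right h2 S0.le
      _ = num := by field_simp
  have hnumpos : 0 < num := by
    rcases Nat.eq_zero_or_pos num with h1 | h1
    · rw [h1, Nat.zero_mul, Nat.zero_div] at hE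
      rw [hE] at hE1
      exact absurd hE1 (by norm_num)
    · exact h1
  -- the numerator
  set v : ℝ := ((k * 11629080 : ℕ) : ℝ) / 16777216 with hv
  set κ : ℝ := (k1 : ℝ) / 16777216 with hκ
  have hκ0 : 0 ≤ κ := r_nonneg _
  have hnumr : (num : ℝ) / 16777216 ≤ 1 + AA - 1 / 2 * ((X0 : ℝ) / 16777216) +
      1 / 2 * (κ * (1 - v)) := by
    have hn : (num : ℝ) = (16777216 + A + ((md k1 (16777216 - k * 11629080) / 2 : ℕ) : ℝ)) -
        (((X0 / 2 : ℕ) : ℝ) + 2 + ((mu k1 (k * 11629080 - 16777216) / 2 : ℕ) : ℝ)) := by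
      rw [hnum, Nat.cast_sub (by omega)]
      push_cast
      ring
    have h1 := div_le_r (md k1 (16777216 - k * 11629080)) 2
    have h2 := le_div_r X0 (q := 2) (by norm_num)
    have h3 := le_div_r (mu k1 (k * 11629080 - 16777216)) (q := 2) (by norm_num)
    have h4 : (md k1 (16777216 - k * 11629080) : ℝ) / 16777216 ≤ κ * max (1 - v) 0 := by
      refine md_le le_rfl ?_
      rw [div_le_iff₀ S0]
      refine sub_le_r ?_ (mul_nonneg (le_max_right _ _) S0.le)
      have h5 : (1 - v) * 16777216 ≤ max (1 - v) 0 * 16777216 :=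
        mul_le_mul_of_nonneg_right (le_max_left _ _) S0.le
      refine le_trans (le_of_eq ?_) h5
      rw [hv]
      push_cast
      ring
    have h5 : κ * max (v - 1) 0 ≤ (mu k1 (k * 11629080 - 16777216) : ℝ) / 16777216 := by
      refine mu_ge le_rfl ?_ hκ0 (le_max_right _ _)
      refine max_le ?_ (r_nonneg _)
      rw [le_div_iff₀ S0]
      have h6 := sub_ge_r (k * 11629080) 16777216
      refine le_trans (le_of_eq ?_) h6
      rw [hv]
      push_cast
      ring
    have h6 : max (1 - v) 0 - max (v - 1) 0 = 1 - v := by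
      rcases le_total v 1 with h | h
      · rw [max_eq_left (by linarith), max_eq_right (by linarith)]
        ring
      · rw [max_eq_right (by linarith), max_eq_left (by linarith)]
        ring
    push_cast at h1 h2 h3
    generalize ((md k1 (16777216 - k * 11629080) / 2 : ℕ) : ℝ) = p1 at *
    generalize ((mu k1 (k * 11629080 - 16777216) / 2 : ℕ) : ℝ) = p3 at *
    generalize ((X0 / 2 : ℕ) : ℝ) = p2 at *
    generalize (md k1 (16777216 - k * 11629080) : ℝ) = q1 at *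
    generalize (mu k1 (k * 11629080 - 16777216) : ℝ) = q3 at *
    rw [hn]
    generalize max (1 - v) 0 = m1 at *
    generalize max (v - 1) 0 = m2 at *
    have h7 : 1 / 2 * (κ * (1 - v)) = 1 / 2 * (κ * m1) - 1 / 2 * (κ * m2) := by
      rw [← h6]
      ring
    rw [h7]
    rw [div_le_iff₀ S0] at h4 hA ⊢
    rw [le_div_iff₀ S0] at h5
    have h8 : 1 / 2 * ((X0 : ℝ) / 16777216) * 16777216 = (X0 : ℝ) / 2 := by ring
    linarith
  have hX00 : 0 ≤ (X0 : ℝ) / 16777216 := r_nonneg _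
  generalize (X0 : ℝ) / 16777216 = x0 at *
  generalize (num : ℝ) / 16777216 = nn at *
  generalize (den : ℝ) / 16777216 = dd at *
  have g1 : Real.exp G * (1 + x0) ≤ Er * (1 + x0) := mul_le_mul_of_nonneg_right hexp (by linarith)
  have g2 : κ * G ≤ κ * (Er / c - 1 + v) := mul_le_mul_of_nonneg_left hlog hκ0
  have g3 : Er * (1 + x0 + κ / (2 * c)) ≤ Er * dd := mul_le_mul_of_nonneg_left hden1 hEr0.le
  have g4 : Er * (κ / (2 * c)) = 1 / 2 * (κ * (Er / c)) := by
    field_simp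
  have g5 : κ * (Er / c - 1 + v) = κ * (Er / c) - κ * (1 - v) := by ring
  have g6 : Er * (1 + x0 + κ / (2 * c)) = Er * (1 + x0) + Er * (κ / (2 * c)) := by ring
  linarith

end Pool.Agent.Lib.MP_172a45_an.H5
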