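import Pool.Agent.Lib.MP_172a45_an.H5.Sound5

set_option autoImplicit false

/-!
# Soundness of the box checker: `chkA` and `chkL`
-/

namespace Pool.Agent.Lib.MP_172a45_an.H5

open Finset
open Pool.Agent.Lib.MP_172a45_an.F
open Pool.Agent.Lib.MP_172a45_an.F.Fr
open Pool.Agent.Lib.MP_172a45_an.L

variable {M : ℕ} {a : ℝ} {ζ z : Fin (M + 1) → ℂ}

theorem mx_r {p q : ℕ} {v : ℝ} (hp : (p : ℝ) / 16777216 ≤ v) (hq : (q : ℝ) / 16777216 ≤ v) :
    ((mx p q : ℕ) : ℝ) / 16777216 ≤ v := by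
  rw [mx_eq]
  rcases le_total p q with h | h
  · rw [max_eq_right h]
    exact hq
  · rw [max_eq_left h]
    exact hp

theorem x0_ge {a0 : ℕ} (h0 : (a0 : ℝ) / 16777216 ≤ a) :
    1 - a ^ 2 ≤ ((16777216 - md a0 a0 : ℕ) : ℝ) / 16777216 := by
  have S0 : (0 : ℝ) < 16777216 := by norm_num
  have h1 := md_le h0 h0
  have h2 := sub_ge_r 16777216 (md a0 a0)
  rw [div_le_iff₀ S0] at h1
  rw [le_div_iff₀ S0]
  push_cast at h2
  linarith

theorem vt_le1 (h : Fr (M + 1) a ζ z) {T : ℝ} (hT : ∀ k : Fin M, ‖ut a ζ k‖ ≤ T) (k : Fin M) :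
    ‖vt a ζ k‖ ≤ T := by
  have h1 := h.gl k.succ
  refine le_trans ?_ (hT k)
  unfold vt ut
  exact h1

theorem vt_le2 (h : Fr (M + 1) a ζ z) {T a1 : ℝ} (hT : ∀ k : Fin M, ‖ut a ζ k‖ ≤ T) (ha1 : a ≤ a1)
    (k : Fin M) : ‖vt a ζ k‖ ≤ 1 + a1 * T := by
  have ha := h.a0
  unfold vt
  refine (norm_sub_le _ _).trans ?_
  rw [norm_one, norm_mul, Complex.norm_real, Real.norm_of_nonneg ha.le]
  have := mul_le_mul ha1 (hT k) (norm_nonneg _) (ha.le.trans ha1)
  linarith

theorem chkA_sound (h : Fr (M + 1) a ζ z) (hM : 0 < M)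
    (hmax : ∀ k, ‖u a ζ k‖ ≤ ‖u a ζ 0‖) {N D0 D1 t0 t1 T2 gA gB a0 a1 : ℕ} (hN : N ≤ M + 1)
    (hc : chkA N D0 D1 t0 t1 T2 gA gB a0 a1 = true) (ha0 : (a0 : ℝ) / 16777216 ≤ a)
    (ha1 : a ≤ (a1 : ℝ) / 16777216) (ht : 16777216 ≤ t0) (hτ0 : (t0 : ℝ) / 16777216 ≤ ‖u a ζ 0‖)
    (hτ1 : ‖u a ζ 0‖ ≤ (t1 : ℝ) / 16777216)
    (hgA : (gA : ℝ) / 16777216 ≤ gg1 ‖u a ζ 0‖)
    (hgB : gg1 ((t1 : ℝ) / 16777216) ≤ (gB : ℝ) / 16777216)
    (hΔ0 : (D0 : ℝ) / 16777216 ≤ Del a ζ) (hΔ1 : Del a ζ ≤ (D1 : ℝ) / 16777216)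
    (hT : ∀ k : Fin M, ‖ut a ζ k‖ ≤ (T2 : ℝ) / 16777216) (hT2 : 16777216 ≤ T2) : False := by
  have S0 : (0 : ℝ) < 16777216 := by norm_num
  have hapos := h.a0
  have ha1' := h.a1
  unfold chkA at hc
  extract_lets dn b1 x0 X0 k1 A c lc num den G D Y at hc
  have ha1S := tail_a1 hc
  have hTr : (0 : ℝ) < (T2 : ℝ) / 16777216 := by
    have : (16777216 : ℝ) ≤ T2 := by exact_mod_cast hT2
    exact div_pos (by linarith) S0
  have hDS0 := DS_nonneg h
  have hX0 : (1 - a ^ 2) * ‖u a ζ 0‖ - (1 - a) ≤ (X0 : ℝ) / 16777216 := xx_ge ha0 ha1 ha1'.le hτ1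
  have hXt : ∀ k : Fin M, (1 - a ^ 2) * ‖u a ζ k.succ‖ - (1 - a) ≤ (xx a0 a1 T2 : ℝ) / 16777216 :=
    fun k => xx_ge ha0 ha1 ha1'.le (hT k)
  have hx : 1 - a ^ 2 ≤ (x0 : ℝ) / 16777216 := x0_ge ha0
  have hGS : (G : ℝ) / 16777216 ≤ GS a ζ := by
    rcases Nat.eq_zero_or_pos G with h0 | h0
    · rw [h0]
      simpa using GS_nonneg h
    · obtain ⟨hE1, hE⟩ := loglo_le _ h0
      exact GS_ge' h hX0 (r_nonneg _) hXt (k1_ok (xx a0 a1 T2)) (r_nonneg _)
        (G_step (A := A) (X0 := X0) (k1 := k1) (k := ck A) (num := num) (den := den)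
          (E := num * 16777216 / den) rfl rfl rfl hE1 hE
          (A_le hN hapos.le ha1'.le ha1 ha1S))
  have hdn : Del a ζ - gg1 ‖u a ζ 0‖ ≤ (dn : ℝ) / 16777216 := by
    have h1 := sub_ge_r D1 gA
    rw [le_div_iff₀ S0]
    rw [le_div_iff₀ S0] at hΔ1
    rw [div_le_iff₀ S0] at hgA
    linarith
  have hG0 : 0 ≤ (G : ℝ) / 16777216 := r_nonneg _
  have hD : (D : ℝ) / 16777216 ≤ DS a ζ := by
    refine mx_r (mx_r ?_ ?_) (mx_r ?_ ?_)
    · refine cand h (α1 := 19) (α2 := 20) (s := 595) (by norm_num) (by norm_num) ?_ hGS hdn hx hDS0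
      intro y hy hy1
      have := psi_95 y hy (by push_cast at hy1; exact hy1)
      push_cast
      exact this
    · refine cand h (α1 := 9) (α2 := 10) (s := 472) (by norm_num) (by norm_num) ?_ hGS hdn hx hDS0
      intro y hy hy1
      have := psi_90 y hy (by push_cast at hy1; exact hy1)
      push_cast
      exact this
    · refine cand h (α1 := 4) (α2 := 5) (s := 333) (by norm_num) (by norm_num) ?_ hGS hdn hx hDS0
      intro y hy hy1
      have := psi_80 y hy (by push_cast at hy1; exact hy1)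
      push_cast
      exact this
    · have h1 := cand0 h hGS hG0 hx hT hTr
      have h2 := mu_ge' x0 T2
      have hxpos : (0 : ℝ) < (x0 : ℝ) / 16777216 := lt_of_lt_of_le h.m_pos hx
      have h3 := div_le_r (G * 16777216) (mu x0 T2)
      have h4 : (G : ℝ) / 16777216 / ((mu x0 T2 : ℝ) / 16777216) ≤
          (G : ℝ) / 16777216 / ((x0 : ℝ) / 16777216 * ((T2 : ℝ) / 16777216)) :=
        div_le_div_of_nonneg_left hG0 (mul_pos hxpos hTr) h2
      refine le_trans ?_ (h4.trans h1)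
      push_cast at h3
      calc ((G * 16777216 / mu x0 T2 : ℕ) : ℝ) / 16777216
          ≤ ((G : ℝ) * 16777216 / (mu x0 T2 : ℝ)) / 16777216 := div_le_div_of_nonneg_right h3 S0.le
        _ = _ := by field_simp
  have hY : ∀ k : Fin M, ‖vt a ζ k‖ ≤ 1 + (Y : ℝ) / 16777216 := by
    intro k
    rcases le_total (T2 - 16777216) (mu a1 T2) with h1 | h1
    · have h2 : Y = T2 - 16777216 := by
        show T2 - 16777216 - (T2 - 16777216 - mu a1 T2) = _
        omega
      rw [h2, Nat.cast_sub hT2]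
      refine (vt_le1 h hT k).trans (le_of_eq ?_)
      push_cast
      field_simp
      ring
    · have h2 : Y = mu a1 T2 := by
        show T2 - 16777216 - (T2 - 16777216 - mu a1 T2) = _
        omega
      rw [h2]
      refine (vt_le2 h hT ha1 k).trans ?_
      have := mu_ge' a1 T2
      linarith
  exact tail_sound h hM hmax hc ha1 ht hτ0 hτ1 hgB hΔ0 hD hY

/-- the last region: bound of `exp` -/
theorem conc {b b0 E G N r : ℝ} (hb : 0 < b) (hbb : b ≤ b0) (hN : 0 ≤ N)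
    (hr : 0 ≤ r) (hE1 : 1 ≤ E) (hG : G ≤ Real.log E)
    (hE : E * (3 + 2 * (b0 * r)) ≤ 3 + N * (b0 * (3 - b0 ^ 2)) - b0 * r) :
    Real.exp (b / b0 * G) * (3 + 2 * (b * r)) ≤ 3 + N * (b * (3 - b ^ 2)) - b * r := by
  have hb00 : 0 < b0 := lt_of_lt_of_le hb hbb
  set l := b / b0 with hl
  have hl0 : 0 ≤ l := by positivity
  have hl1 : l ≤ 1 := by
    rw [hl, div_le_one hb00]
    exact hbb
  have hE0 : 0 < E := by linarith
  have h1 : Real.exp (l * G) ≤ 1 + l * (E - 1) := by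
    have h2 : Real.exp (l * G) ≤ Real.exp (l * Real.log E) :=
      Real.exp_le_exp.2 (mul_le_mul_of_nonneg_left hG hl0)
    refine h2.trans ?_
    have h3 := rpow_one_add_le_one_add_mul_self (s := E - 1) (by linarith) hl0 hl1
    have h4 : (1 + (E - 1)) ^ l = Real.exp (l * Real.log E) := by
      rw [show 1 + (E - 1) = E by ring, Real.rpow_def_of_pos hE0]
      ring_nf
    rw [h4] at h3
    exact h3
  have hbl : b = l * b0 := by
    rw [hl]
    field_simp
  have h5 : (E - 1) * (3 + 2 * (b0 * r)) ≤ b0 * (N * (3 - b0 ^ 2) - 3 * r) := by linarith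
  have h6 : 0 ≤ E - 1 := by linarith
  have h7 : (E - 1) * (3 + 2 * (b * r)) ≤ b0 * (N * (3 - b ^ 2) - 3 * r) := by
    have h8 : (E - 1) * (3 + 2 * (b * r)) ≤ (E - 1) * (3 + 2 * (b0 * r)) := by
      refine mul_le_mul_of_nonneg_left ?_ h6
      have := mul_le_mul_of_nonneg_right hbb hr
      linarith
    have h9 : b0 * (N * (3 - b0 ^ 2) - 3 * r) ≤ b0 * (N * (3 - b ^ 2) - 3 * r) := by
      refine mul_le_mul_of_nonneg_left ?_ hb00.le
      have : N * (3 - b0 ^ 2) ≤ N * (3 - b ^ 2) := by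
        refine mul_le_mul_of_nonneg_left ?_ hN
        nlinarith
      linarith
    linarith
  have h10 : 0 ≤ 3 + 2 * (b * r) := by positivity
  calc _ ≤ (1 + l * (E - 1)) * (3 + 2 * (b * r)) := mul_le_mul_of_nonneg_right h1 h10
    _ = 3 + 2 * (b * r) + l * ((E - 1) * (3 + 2 * (b * r))) := by ring
    _ ≤ 3 + 2 * (b * r) + l * (b0 * (N * (3 - b ^ 2) - 3 * r)) := by
        have := mul_le_mul_of_nonneg_left h7 hl0
        linarith
    _ = 3 + 2 * (b * r) + (l * b0) * (N * (3 - b ^ 2) - 3 * r) := by ring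
    _ = _ := by
        rw [← hbl]
        ring

theorem chkL_sound (h : Fr (M + 1) a ζ z) (hM : 0 < M)
    (hmax : ∀ k, ‖u a ζ k‖ ≤ ‖u a ζ 0‖) {N D0 t0 t1 T2 gB a0 : ℕ} (hN : N ≤ M + 1)
    (hc : chkL N D0 t0 t1 T2 gB a0 = true) (ha0 : (a0 : ℝ) / 16777216 ≤ a)
    (ht : 16777216 ≤ t0) (hτ0 : (t0 : ℝ) / 16777216 ≤ ‖u a ζ 0‖)
    (hτ1 : ‖u a ζ 0‖ ≤ (t1 : ℝ) / 16777216)
    (hgB : gg1 ((t1 : ℝ) / 16777216) ≤ (gB : ℝ) / 16777216)
    (hΔ0 : (D0 : ℝ) / 16777216 ≤ Del a ζ)
    (hT : ∀ k : Fin M, ‖ut a ζ k‖ ≤ (T2 : ℝ) / 16777216) (hT2 : 16777216 ≤ T2) : False := by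
  have S0 : (0 : ℝ) < 16777216 := by norm_num
  have hapos := h.a0
  have ha1' := h.a1
  unfold chkL at hc
  extract_lets b0 rb num G at hc
  have hTr : (0 : ℝ) < (T2 : ℝ) / 16777216 := by
    have : (16777216 : ℝ) ≤ T2 := by exact_mod_cast hT2
    exact div_pos (by linarith) S0
  have hDS0 := DS_nonneg h
  have ht1 : 16777216 ≤ t1 := by
    have h1 := hτ0.trans hτ1
    rw [div_le_div_iff_of_pos_right S0] at h1
    exact ht.trans (by exact_mod_cast h1)
  have ha0S : a0 ≤ 16777216 := by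
    have h1 := ha0.trans ha1'.le
    rw [div_le_one S0] at h1
    exact_mod_cast h1
  have hb0 : (b0 : ℝ) / 16777216 = 1 - (a0 : ℝ) / 16777216 := by
    show ((16777216 - a0 : ℕ) : ℝ) / 16777216 = _
    rw [Nat.cast_sub ha0S]
    push_cast
    ring
  set β : ℝ := (b0 : ℝ) / 16777216 with hβ
  have hbβ : 1 - a ≤ β := by rw [hb0]; linarith
  have hβ1 : β ≤ 1 := by
    rw [hb0]
    have := r_nonneg a0
    linarith
  have hβ0 : 0 < β := by linarith
  set r : ℝ := 2 * ((t1 : ℝ) / 16777216) - 1 with hr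
  have ht1r : (1 : ℝ) ≤ (t1 : ℝ) / 16777216 := by
    have : (16777216 : ℝ) ≤ t1 := by exact_mod_cast ht1
    rw [le_div_iff₀ S0]
    linarith
  have hr0 : 0 ≤ r := by rw [hr]; linarith
  have hrn : ((2 * t1 - 16777216 : ℕ) : ℝ) / 16777216 = r := by
    rw [Nat.cast_sub (by omega), hr]
    push_cast
    ring
  have hrb : β * r ≤ (rb : ℝ) / 16777216 := by
    rw [← hrn, hβ]
    exact mu_ge' _ _
  have hX0 : (1 - a ^ 2) * ‖u a ζ 0‖ - (1 - a) ≤ (1 - a) * r := by
    have h1 : (1 - a ^ 2) * ‖u a ζ 0‖ ≤ (1 - a) * (2 * ((t1 : ℝ) / 16777216)) := by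
      have e : 1 - a ^ 2 = (1 - a) * (1 + a) := by ring
      rw [e, mul_assoc]
      refine mul_le_mul_of_nonneg_left ?_ (by linarith only [ha1'])
      have h2 : (1 + a) * ‖u a ζ 0‖ ≤ (1 + a) * ((t1 : ℝ) / 16777216) :=
        mul_le_mul_of_nonneg_left hτ1 (by linarith only [hapos])
      have h3 : (1 + a) * ((t1 : ℝ) / 16777216) ≤ 2 * ((t1 : ℝ) / 16777216) :=
        mul_le_mul_of_nonneg_right (by linarith only [ha1']) (by linarith only [ht1r])
      exact h2.trans h3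
    have e2 : (1 - a) * r = (1 - a) * (2 * ((t1 : ℝ) / 16777216)) - (1 - a) := by
      rw [hr]
      ring
    linarith
  have hD : ((G * 16777216 / mu (2 * b0) T2 : ℕ) : ℝ) / 16777216 ≤ DS a ζ := by
    rcases Nat.eq_zero_or_pos G with h0 | h0
    · rw [h0]
      simpa using hDS0
    · obtain ⟨hE1, hE⟩ := loglo_le _ h0
      set En : ℕ := num * 16777216 / (50331648 + 2 * rb) with hEn
      have hE1r : (1 : ℝ) ≤ (En : ℝ) / 16777216 := by
        have : (16777216 : ℝ) ≤ En := by exact_mod_cast hE1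
        rw [le_div_iff₀ S0]
        linarith
      have hEnum : (En : ℝ) / 16777216 * ((50331648 + 2 * rb : ℕ) : ℝ) / 16777216 ≤
          (num : ℝ) / 16777216 := by
        have h1 : En * (50331648 + 2 * rb) ≤ num * 16777216 := by
          rw [hEn]
          exact Nat.div_mul_le_self _ _
        have h2 : (En : ℝ) * ((50331648 + 2 * rb : ℕ) : ℝ) ≤ (num : ℝ) * 16777216 := by
          exact_mod_cast h1
        refine div_le_div_of_nonneg_right ?_ S0.le
        rw [div_mul_eq_mul_div, div_le_iff₀ S0]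
        exact h2
      have hnumpos : 0 < num := by
        rcases Nat.eq_zero_or_pos num with h1 | h1
        · rw [h1, Nat.zero_mul, Nat.zero_div] at hEn
          rw [hEn] at hE1
          exact absurd hE1 (by norm_num)
        · exact h1
      have hnumr : (num : ℝ) / 16777216 ≤ 3 + N * (β * (3 - β ^ 2)) - (rb : ℝ) / 16777216 := by
        have h1 : (num : ℝ) = 50331648 + N * (md b0 (50331648 - mu b0 b0) : ℝ) - rb := by
          have e : num = 50331648 + N * md b0 (50331648 - mu b0 b0) - rb := rfl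
          have : rb ≤ 50331648 + N * md b0 (50331648 - mu b0 b0) := by omega
          rw [e, Nat.cast_sub this]
          push_cast
          ring
        have h3 : ((50331648 - mu b0 b0 : ℕ) : ℝ) / 16777216 ≤ 3 - β ^ 2 := by
          have h2 := mu_ge' b0 b0
          rw [div_le_iff₀ S0]
          refine sub_le_r ?_ ?_
          · rw [le_div_iff₀ S0, ← hβ] at h2
            push_cast
            linarith
          · have : β ^ 2 ≤ 1 := pow_le_one₀ hβ0.le hβ1
            linarith only [this]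
        have h4 : (md b0 (50331648 - mu b0 b0) : ℝ) / 16777216 ≤ β * (3 - β ^ 2) := md_le le_rfl h3
        have h5 : (N : ℝ) * ((md b0 (50331648 - mu b0 b0) : ℝ) / 16777216) ≤
            N * (β * (3 - β ^ 2)) := mul_le_mul_of_nonneg_left h4 (Nat.cast_nonneg _)
        rw [h1]
        have e : (50331648 + (N : ℝ) * (md b0 (50331648 - mu b0 b0) : ℝ) - (rb : ℝ)) / 16777216 =
          3 + (N : ℝ) * ((md b0 (50331648 - mu b0 b0) : ℝ) / 16777216) - (rb : ℝ) / 16777216 := by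
          ring
        rw [e]
        linarith
      have hNr : (N : ℝ) ≤ M + 1 := by exact_mod_cast hN
      have hEE : (En : ℝ) / 16777216 * (3 + 2 * (β * r)) ≤ 3 + N * (β * (3 - β ^ 2)) - β * r := by
        have h1 : (3 + 2 * (β * r)) ≤ ((50331648 + 2 * rb : ℕ) : ℝ) / 16777216 := by
          push_cast
          have e : (50331648 + 2 * (rb : ℝ)) / 16777216 = 3 + 2 * ((rb : ℝ) / 16777216) := by ring
          rw [e]
          linarith
        have h2 : (En : ℝ) / 16777216 * (3 + 2 * (β * r)) ≤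
            (En : ℝ) / 16777216 * (((50331648 + 2 * rb : ℕ) : ℝ) / 16777216) :=
          mul_le_mul_of_nonneg_left h1 (r_nonneg _)
        rw [mul_div_assoc] at hEnum
        linarith
      have hcc := conc (b := 1 - a) (b0 := β) (E := (En : ℝ) / 16777216)
        (G := (G : ℝ) / 16777216) (N := N) (r := r) (by linarith) hbβ (Nat.cast_nonneg _) hr0
        hE1r hE hEE
      have hGS : (1 - a) / β * ((G : ℝ) / 16777216) ≤ GS a ζ := by
        refine GS_ge h hX0 (mul_nonneg (by linarith) hr0) ?_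
        refine hcc.trans ?_
        have h1 : (N : ℝ) * ((1 - a) * (3 - (1 - a) ^ 2)) ≤
            (M + 1) * ((1 - a) * (3 - (1 - a) ^ 2)) := by
          refine mul_le_mul_of_nonneg_right hNr (mul_nonneg (by linarith only [ha1']) ?_)
          have := pow_le_one₀ (n := 2) (by linarith only [ha1'] : 0 ≤ 1 - a)
            (by linarith only [hapos])
          linarith only [this]
        have e : (1 - a) * (M + 1) * (2 + 2 * a - a ^ 2) =
            (M + 1) * ((1 - a) * (3 - (1 - a) ^ 2)) := by ring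
        rw [e]
        linarith
      have hG0 : 0 ≤ (1 - a) / β * ((G : ℝ) / 16777216) :=
        mul_nonneg (div_nonneg (by linarith) hβ0.le) (r_nonneg _)
      have h1 := cand0 h hGS hG0 (x := (1 - a) * 2)
        (by have := sq_nonneg (1 - a); linarith only [this]) hT hTr
      have e1 : (1 - a) / β * ((G : ℝ) / 16777216) / ((1 - a) * 2 * ((T2 : ℝ) / 16777216)) =
          (G : ℝ) / 16777216 / (2 * β * ((T2 : ℝ) / 16777216)) := by
        have h2 : (1 - a) ≠ 0 := by linarith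
        field_simp
      rw [e1] at h1
      have h2 : 2 * β * ((T2 : ℝ) / 16777216) ≤ (mu (2 * b0) T2 : ℝ) / 16777216 := by
        refine mu_ge ?_ le_rfl (by linarith) (r_nonneg _)
        push_cast
        rw [hβ]
        linarith
      have h3 := div_le_r (G * 16777216) (mu (2 * b0) T2)
      have h4 : (G : ℝ) / 16777216 / ((mu (2 * b0) T2 : ℝ) / 16777216) ≤
          (G : ℝ) / 16777216 / (2 * β * ((T2 : ℝ) / 16777216)) :=
        div_le_div_of_nonneg_left (r_nonneg _) (mul_pos (by linarith) hTr) h2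
      refine le_trans ?_ (h4.trans h1)
      push_cast at h3
      calc ((G * 16777216 / mu (2 * b0) T2 : ℕ) : ℝ) / 16777216
          ≤ ((G : ℝ) * 16777216 / (mu (2 * b0) T2 : ℝ)) / 16777216 :=
            div_le_div_of_nonneg_right h3 S0.le
        _ = _ := by field_simp
  have hY : ∀ k : Fin M, ‖vt a ζ k‖ ≤ 1 + ((T2 - 16777216 : ℕ) : ℝ) / 16777216 := by
    intro k
    rw [Nat.cast_sub hT2]
    refine (vt_le1 h hT k).trans (le_of_eq ?_)
    push_cast
    field_simp
    ring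
  exact tail_sound h hM hmax hc (by push_cast; rw [div_self S0.ne']; exact ha1'.le) ht hτ0 hτ1 hgB
    hΔ0 hD hY

end Pool.Agent.Lib.MP_172a45_an.H5
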