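import Pool.Agent.Lib.MP_172a45_an.H5.Sound6

set_option autoImplicit false

/-!
# Soundness of the box checker: covering
-/

namespace Pool.Agent.Lib.MP_172a45_an.H5

open Finset
open Pool.Agent.Lib.MP_172a45_an.F
open Pool.Agent.Lib.MP_172a45_an.F.Fr
open Pool.Agent.Lib.MP_172a45_an.L

variable {M : ℕ} {a : ℝ} {ζ z : Fin (M + 1) → ℂ}

/-- `g` is increasing on `[1, ∞)` -/
theorem gg1_mono {s t : ℝ} (hs : 1 ≤ s) (hst : s ≤ t) : gg1 s ≤ gg1 t := by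
  unfold gg1
  have h3 : Real.log t - Real.log s ≤ t - s := by
    rw [← Real.log_div (by linarith) (by linarith)]
    have h4 := Real.log_le_sub_one_of_pos (show 0 < t / s from div_pos (by linarith) (by linarith))
    have h5 : t / s - 1 ≤ t - s := by
      rw [div_sub_one (by linarith), div_le_iff₀ (by linarith)]
      nlinarith
    linarith
  linarith

theorem gg1_strict {s t : ℝ} (hs : 1 ≤ s) (hst : s < t) : gg1 s < gg1 t := by
  unfold gg1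
  have h3 : Real.log t - Real.log s < t - s := by
    rw [← Real.log_div (by linarith) (by linarith)]
    have hne : t / s ≠ 1 := by
      rw [Ne, div_eq_one_iff_eq (by linarith)]
      exact hst.ne'
    have h4 := Real.log_lt_sub_one_of_pos (show 0 < t / s from div_pos (by linarith) (by linarith)) hne
    have h5 : t / s - 1 ≤ t - s := by
      rw [div_sub_one (by linarith), div_le_iff₀ (by linarith)]
      nlinarith
    linarith
  linarith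

/-- `S²` -/
theorem gLow_ok {T k : ℕ} (hk : k < 1024) (hT : 16777216 ≤ T)
    (h : T * LP.rk k ≤ 281474976710656) : (gLow T k : ℝ) / 16777216 ≤ gg1 ((T : ℝ) / 16777216) := by
  have S0 : (0 : ℝ) < 16777216 := by norm_num
  have hTr : (16777216 : ℝ) ≤ T := by exact_mod_cast hT
  have hrk : (0 : ℝ) < LP.rk k := by exact_mod_cast LP.rk_pos hk
  have h1 := LP.neg_log_rk_le hk
  have h2 : (T : ℝ) / 16777216 * ((LP.rk k : ℝ) / 16777216) ≤ 1 := by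
    have h3 : (T : ℝ) * (LP.rk k : ℝ) ≤ 281474976710656 := by exact_mod_cast h
    have e : (T : ℝ) / 16777216 * ((LP.rk k : ℝ) / 16777216) =
        (T : ℝ) * (LP.rk k : ℝ) / 281474976710656 := by ring
    rw [e, div_le_one (by norm_num)]
    exact h3
  have h3 : Real.log ((T : ℝ) / 16777216) + Real.log ((LP.rk k : ℝ) / 16777216) ≤ 0 := by
    rw [← Real.log_mul (by positivity) (by positivity)]
    exact Real.log_nonpos (by positivity) h2
  rw [div_le_iff₀ S0]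
  have h4 : gg1 ((T : ℝ) / 16777216) * 16777216 ≥
      ((T : ℝ) / 16777216 - 1 - ((LP.lk k : ℝ) / 16777216 - 8)) * 16777216 := by
    refine mul_le_mul_of_nonneg_right ?_ S0.le
    unfold gg1
    linarith
  have h0 : 0 ≤ gg1 ((T : ℝ) / 16777216) * 16777216 :=
    mul_nonneg (gg1_nonneg (div_pos (by linarith) S0)) S0.le
  unfold gLow
  refine sub_le_r ?_ h0
  refine le_trans (le_of_eq ?_) h4
  push_cast
  ring

theorem gUp_ok {T k : ℕ} (hk : k < 1024) (h : LP.rk k ≤ T) :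
    gg1 ((T : ℝ) / 16777216) ≤ (gUp T k : ℝ) / 16777216 := by
  have S0 : (0 : ℝ) < 16777216 := by norm_num
  have hrk : (0 : ℝ) < LP.rk k := by exact_mod_cast LP.rk_pos hk
  have hr : (LP.rk k : ℝ) ≤ T := by exact_mod_cast h
  have h1 := LP.neg_log_rk_le hk
  have h2 : Real.log ((LP.rk k : ℝ) / 16777216) ≤ Real.log ((T : ℝ) / 16777216) :=
    Real.log_le_log (by positivity) (div_le_div_of_nonneg_right hr S0.le)
  have h3 := sub_ge_r (T + LP.lk k) 150994944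
  unfold gUp
  rw [le_div_iff₀ S0]
  have h4 : gg1 ((T : ℝ) / 16777216) * 16777216 ≤
      ((T : ℝ) / 16777216 - 1 + ((LP.lk k : ℝ) / 16777216 - 8)) * 16777216 := by
    refine mul_le_mul_of_nonneg_right ?_ S0.le
    unfold gg1
    linarith
  refine (h4.trans (le_of_eq ?_)).trans h3
  push_cast
  ring

theorem covA_nil (N D0 D1 t0 t1 T2 gA gB a0 : ℕ) :
    covA N D0 D1 t0 t1 T2 gA gB [] a0 = chkL N D0 t0 t1 T2 gB (a0 * 16384) := rfl

theorem covA_cons (N D0 D1 t0 t1 T2 gA gB a0 c : ℕ) (l : List ℕ) :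
    covA N D0 D1 t0 t1 T2 gA gB (c :: l) a0 =
      (chkA N D0 D1 t0 t1 T2 gA gB (a0 * 16384) (c * 16384) &&
        covA N D0 D1 t0 t1 T2 gA gB l c) := rfl

theorem covA_sound (h : Fr (M + 1) a ζ z) (hM : 0 < M)
    (hmax : ∀ k, ‖u a ζ k‖ ≤ ‖u a ζ 0‖) {N D0 D1 t0 t1 T2 gA gB : ℕ} (hN : N ≤ M + 1)
    (ht : 16777216 ≤ t0) (hτ0 : (t0 : ℝ) / 16777216 ≤ ‖u a ζ 0‖)
    (hτ1 : ‖u a ζ 0‖ ≤ (t1 : ℝ) / 16777216)
    (hgA : (gA : ℝ) / 16777216 ≤ gg1 ‖u a ζ 0‖)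
    (hgB : gg1 ((t1 : ℝ) / 16777216) ≤ (gB : ℝ) / 16777216)
    (hΔ0 : (D0 : ℝ) / 16777216 ≤ Del a ζ) (hΔ1 : Del a ζ ≤ (D1 : ℝ) / 16777216)
    (hT : ∀ k : Fin M, ‖ut a ζ k‖ ≤ (T2 : ℝ) / 16777216) (hT2 : 16777216 ≤ T2) :
    ∀ (l : List ℕ) (a0 : ℕ), covA N D0 D1 t0 t1 T2 gA gB l a0 = true →
      ((a0 * 16384 : ℕ) : ℝ) / 16777216 ≤ a → False := by
  intro l
  induction l with
  | nil =>
    intro a0 hc ha
    rw [covA_nil] at hc
    exact chkL_sound h hM hmax hN hc ha ht hτ0 hτ1 hgB hΔ0 hT hT2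
  | cons c l ih =>
    intro a0 hc ha
    rw [covA_cons, Bool.and_eq_true] at hc
    rcases le_total a (((c * 16384 : ℕ) : ℝ) / 16777216) with h1 | h1
    · exact chkA_sound h hM hmax hN hc.1 ha h1 ht hτ0 hτ1 hgA hgB hΔ0 hΔ1 hT hT2
    · exact ih c hc.2 h1

/-- tail bound -/
theorem tail_g_le (h : Fr (M + 1) a ζ z) (k : Fin M) :
    gg1 ‖ut a ζ k‖ ≤ Del a ζ - gg1 ‖u a ζ 0‖ := by
  have h1 := sum_g h
  rw [Fin.sum_univ_succ] at h1
  have h2 : ∑ k : Fin M, (‖u a ζ k.succ‖ - 1 - Real.log ‖u a ζ k.succ‖) =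
      ∑ k : Fin M, gg1 ‖ut a ζ k‖ := rfl
  rw [h2] at h1
  have h3 : gg1 ‖ut a ζ k‖ ≤ ∑ k : Fin M, gg1 ‖ut a ζ k‖ :=
    Finset.single_le_sum (f := fun k : Fin M => gg1 ‖ut a ζ k‖)
      (fun k _ => gg1_nonneg (norm_pos_iff.2 (h.u_ne k.succ))) (Finset.mem_univ k)
  have h4 : gg1 ‖u a ζ 0‖ = ‖u a ζ 0‖ - 1 - Real.log ‖u a ζ 0‖ := rfl
  linarith

theorem chkT_sound (h : Fr (M + 1) a ζ z) (hM : 0 < M)
    (hmax : ∀ k, ‖u a ζ k‖ ≤ ‖u a ζ 0‖) {N D0 D1 t0 : ℕ} (hN : N ≤ M + 1) {c : TC}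
    (hc : chkT N D0 D1 t0 c = true)
    (ht : 16777216 ≤ t0) (hτ0 : (t0 : ℝ) / 16777216 ≤ ‖u a ζ 0‖)
    (hτ1 : ‖u a ζ 0‖ ≤ ((c.t1 * 262144 : ℕ) : ℝ) / 16777216)
    (hΔ0 : (D0 : ℝ) / 16777216 ≤ Del a ζ) (hΔ1 : Del a ζ ≤ (D1 : ℝ) / 16777216) : False := by
  have S0 : (0 : ℝ) < 16777216 := by norm_num
  unfold chkT at hc
  extract_lets t1 T2 gA at hc
  rw [Bool.and_eq_true, Bool.and_eq_true, Bool.and_eq_true, Bool.and_eq_true, Bool.and_eq_true,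
    Bool.and_eq_true, Bool.and_eq_true, Bool.and_eq_true, Bool.or_eq_true, Bool.and_eq_true] at hc
  obtain ⟨⟨_, b2, b3, b4, b5, b6, b7, b8⟩, hcov⟩ := hc
  have c2 : 16777216 ≤ T2 := Nat.le_of_ble_eq_true b2
  rw [Nat.blt_eq] at b3 b4 b5
  have c6 := Nat.le_of_ble_eq_true b6
  have c7 := Nat.le_of_ble_eq_true b7
  have htr : (1 : ℝ) ≤ (t0 : ℝ) / 16777216 := by
    have : (16777216 : ℝ) ≤ t0 := by exact_mod_cast ht
    rw [le_div_iff₀ S0]
    linarith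
  have hgA : (gA : ℝ) / 16777216 ≤ gg1 ‖u a ζ 0‖ :=
    (gLow_ok b3 ht c6).trans (gg1_mono htr hτ0)
  have hgB : gg1 ((t1 : ℝ) / 16777216) ≤ (gUp t1 c.kB : ℝ) / 16777216 := gUp_ok b4 c7
  have hT : ∀ k : Fin M, ‖ut a ζ k‖ ≤ (T2 : ℝ) / 16777216 := by
    intro k
    rcases b8 with b8 | ⟨b8, b9⟩
    · have c8 := ble_r b8
      refine (hmax k.succ).trans (hτ1.trans ?_)
      exact div_le_div_of_nonneg_right c8 S0.le
    · have c8 := Nat.le_of_ble_eq_true b8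
      have c9 := ble_r b9
      by_contra hcon
      push Not at hcon
      have hT1 : (1 : ℝ) ≤ (T2 : ℝ) / 16777216 := by
        have : (16777216 : ℝ) ≤ T2 := by exact_mod_cast c2
        rw [le_div_iff₀ S0]
        linarith
      have h1 := gg1_strict hT1 hcon
      have h2 := gLow_ok b5 c2 c8
      have h3 := tail_g_le h k
      have h4 := sub_ge_r D1 gA
      have h5 : ((D1 - gA : ℕ) : ℝ) / 16777216 ≤ (gLow T2 c.kT : ℝ) / 16777216 :=
        div_le_div_of_nonneg_right c9 S0.le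
      have h6 : (D1 : ℝ) / 16777216 - (gA : ℝ) / 16777216 ≤ ((D1 - gA : ℕ) : ℝ) / 16777216 := by
        rw [← sub_div]
        exact div_le_div_of_nonneg_right h4 S0.le
      linarith
  exact covA_sound h hM hmax hN ht hτ0 hτ1 hgA hgB hΔ0 hΔ1 hT c2 c.l 0 hcov (by
    rw [Nat.zero_mul]
    simpa using h.a0.le)

theorem covT_nil (N D0 D1 kE t0 : ℕ) :
    covT N D0 D1 kE [] t0 = (Nat.blt kE 1024 && (Nat.ble (t0 * LP.rk kE) 281474976710656 &&
      Nat.blt D1 (gLow t0 kE))) := rfl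

theorem covT_cons (N D0 D1 kE t0 : ℕ) (c : TC) (l : List TC) :
    covT N D0 D1 kE (c :: l) t0 = (chkT N D0 D1 t0 c && covT N D0 D1 kE l (c.t1 * 262144)) := rfl

theorem chkT_t0 {N D0 D1 t0 : ℕ} {c : TC} (hc : chkT N D0 D1 t0 c = true) :
    t0 ≤ c.t1 * 262144 := by
  unfold chkT at hc
  extract_lets t1 T2 gA at hc
  rw [Bool.and_eq_true, Bool.and_eq_true] at hc
  exact Nat.le_of_ble_eq_true hc.1.1

theorem covT_sound (h : Fr (M + 1) a ζ z) (hM : 0 < M)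
    (hmax : ∀ k, ‖u a ζ k‖ ≤ ‖u a ζ 0‖) {N D0 D1 kE : ℕ} (hN : N ≤ M + 1)
    (hΔ0 : (D0 : ℝ) / 16777216 ≤ Del a ζ) (hΔ1 : Del a ζ ≤ (D1 : ℝ) / 16777216) :
    ∀ (l : List TC) (t0 : ℕ), covT N D0 D1 kE l t0 = true → 16777216 ≤ t0 →
      (t0 : ℝ) / 16777216 ≤ ‖u a ζ 0‖ → False := by
  intro l
  induction l with
  | nil =>
    intro t0 hc ht hτ0
    rw [covT_nil, Bool.and_eq_true, Bool.and_eq_true] at hc
    obtain ⟨b1, b2, b3⟩ := hc
    rw [Nat.blt_eq] at b1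
    have c2 := Nat.le_of_ble_eq_true b2
    have c3 := blt_r b3
    have S0 : (0 : ℝ) < 16777216 := by norm_num
    have htr : (1 : ℝ) ≤ (t0 : ℝ) / 16777216 := by
      have : (16777216 : ℝ) ≤ t0 := by exact_mod_cast ht
      rw [le_div_iff₀ S0]
      linarith
    have h1 := (gLow_ok b1 ht c2).trans (gg1_mono htr hτ0)
    have h2 : (D1 : ℝ) / 16777216 < (gLow t0 kE : ℝ) / 16777216 :=
      div_lt_div_of_pos_right c3 S0
    have h3 := sum_g h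
    rw [Fin.sum_univ_succ] at h3
    have h4 : 0 ≤ ∑ k : Fin M, (‖u a ζ k.succ‖ - 1 - Real.log ‖u a ζ k.succ‖) :=
      Finset.sum_nonneg fun k _ => gg1_nonneg (norm_pos_iff.2 (h.u_ne k.succ))
    have h5 : gg1 ‖u a ζ 0‖ = ‖u a ζ 0‖ - 1 - Real.log ‖u a ζ 0‖ := rfl
    linarith
  | cons c l ih =>
    intro t0 hc ht hτ0
    rw [covT_cons, Bool.and_eq_true] at hc
    rcases le_total ‖u a ζ 0‖ (((c.t1 * 262144 : ℕ) : ℝ) / 16777216) with h1 | h1
    · exact chkT_sound h hM hmax hN hc.1 ht hτ0 h1 hΔ0 hΔ1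
    · exact ih (c.t1 * 262144) hc.2 (ht.trans (chkT_t0 hc.1)) h1

/-- the maximum is at least the mean -/
theorem one_le_u0 (h : Fr (M + 1) a ζ z) (hmax : ∀ k, ‖u a ζ k‖ ≤ ‖u a ζ 0‖) :
    1 ≤ ‖u a ζ 0‖ := by
  have h1 := h.mean
  have h2 : ∑ k, ‖u a ζ k‖ ≤ ∑ _k : Fin (M + 1), ‖u a ζ 0‖ := Finset.sum_le_sum fun k _ => hmax k
  simp only [Finset.sum_const, Finset.card_univ, Fintype.card_fin, nsmul_eq_mul] at h2
  rw [h1] at h2
  have h3 : (0 : ℝ) < ((M + 1 : ℕ) : ℝ) := by positivity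
  by_contra hcon
  push Not at hcon
  have := mul_lt_mul_of_pos_left hcon h3
  linarith

/-- one `Δ`-cell (units `1/64`) -/
theorem cell_sound (h : Fr (M + 1) a ζ z) (hM : 0 < M)
    (hmax : ∀ k, ‖u a ζ k‖ ≤ ‖u a ζ 0‖) {N d0 d1 kE : ℕ} {l : List TC} (hN : N ≤ M + 1)
    (hc : covT N (d0 * 262144) (d1 * 262144) kE l 16777216 = true)
    (hΔ0 : (d0 : ℝ) / 64 ≤ Del a ζ) (hΔ1 : Del a ζ ≤ (d1 : ℝ) / 64) : False := by
  have e : ∀ d : ℕ, ((d * 262144 : ℕ) : ℝ) / 16777216 = (d : ℝ) / 64 := fun d => by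
    push_cast
    ring
  refine covT_sound h hM hmax hN ?_ ?_ l 16777216 hc le_rfl ?_
  · rw [e]
    exact hΔ0
  · rw [e]
    exact hΔ1
  · have := one_le_u0 h hmax
    push_cast
    rw [div_self (by norm_num)]
    exact this

end Pool.Agent.Lib.MP_172a45_an.H5
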